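import Mathlib

/-!
# The choice of the parameters in the six exponentials theorem
-/

namespace Pool.Agent.Helper51.SixExp

theorem exponent_lt {D κ t S : ℕ} (ht : 13 * (D * κ) ≤ t) (ht0 : 0 < t) (hS : 2 * t ^ 2 ≤ S) :
    D * κ * (49 * t ^ 5 + 24 * t ^ 3 * S) < S ^ 3 := by
  have h1 : 4 * t ^ 4 ≤ S ^ 2 := by
    calc 4 * t ^ 4 = (2 * t ^ 2) ^ 2 := by ring
      _ ≤ S ^ 2 := Nat.pow_le_pow_left hS 2
  have h2 : 8 * t ^ 6 ≤ S ^ 3 := by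
    calc 8 * t ^ 6 = (2 * t ^ 2) ^ 3 := by ring
      _ ≤ S ^ 3 := Nat.pow_le_pow_left hS 3
  have h3 : 4 * t ^ 4 * S ≤ S ^ 3 := by
    calc 4 * t ^ 4 * S ≤ S ^ 2 * S := Nat.mul_le_mul_right _ h1
      _ = S ^ 3 := by ring
  have hS0 : 0 < S := by
    have : 0 < 2 * t ^ 2 := by positivity
    omega
  have hS3 : 0 < S ^ 3 := by positivity
  have h4 : 13 * (D * κ * (49 * t ^ 5 + 24 * t ^ 3 * S)) ≤ 49 * t ^ 6 + 24 * t ^ 4 * S := by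
    calc 13 * (D * κ * (49 * t ^ 5 + 24 * t ^ 3 * S))
        = (13 * (D * κ)) * (49 * t ^ 5 + 24 * t ^ 3 * S) := by ring
      _ ≤ t * (49 * t ^ 5 + 24 * t ^ 3 * S) := Nat.mul_le_mul_right _ ht
      _ = 49 * t ^ 6 + 24 * t ^ 4 * S := by ring
  have h5 : 24 * t ^ 4 * S = 6 * (4 * t ^ 4 * S) := by ring
  omega

theorem small_factor {κ t : ℕ} (ht : κ ≤ t) (ht3 : 3 ≤ t) :
    256 * t ^ 12 * 2 ^ κ ≤ 2 ^ t ^ 5 := by
  have h1 : t ≤ 2 ^ t := Nat.lt_two_pow_self.le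
  have h2 : t ^ 12 ≤ 2 ^ (12 * t) := by
    calc t ^ 12 ≤ (2 ^ t) ^ 12 := Nat.pow_le_pow_left h1 12
      _ = 2 ^ (12 * t) := by rw [← pow_mul, mul_comm]
  have h3 : 8 + 12 * t + κ ≤ t ^ 5 := by
    have h4 : 81 * t ≤ t ^ 5 := by
      calc 81 * t = 3 ^ 4 * t := by norm_num
        _ ≤ t ^ 4 * t := Nat.mul_le_mul_right _ (Nat.pow_le_pow_left ht3 4)
        _ = t ^ 5 := by ring
    omega
  calc 256 * t ^ 12 * 2 ^ κ ≤ 2 ^ 8 * 2 ^ (12 * t) * 2 ^ κ :=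
        Nat.mul_le_mul_right _ (Nat.mul_le_mul (by norm_num) h2)
    _ = 2 ^ (8 + 12 * t + κ) := by rw [pow_add, pow_add]
    _ ≤ 2 ^ t ^ 5 := Nat.pow_le_pow_right (by norm_num) h3

theorem exists_parameter {c A : ℝ} (hc : 1 ≤ c) (hA : 1 ≤ A) (D : ℕ) :
    ∃ t : ℕ, 0 < t ∧ ∀ S : ℕ, 2 * t ^ 2 ≤ S →
      ((16 * (t : ℝ) ^ 6) * (c * (c * (16 * (t : ℝ) ^ 6) * A ^ (48 * t ^ 5))) *
        A ^ (24 * t ^ 3 * S)) ^ D < 2 ^ S ^ 3 := by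
  obtain ⟨κ₁, hκ₁⟩ := pow_unbounded_of_one_lt A (one_lt_two (α := ℝ))
  obtain ⟨κ₂, hκ₂⟩ := pow_unbounded_of_one_lt (c * c) (one_lt_two (α := ℝ))
  set κ : ℕ := κ₁ + κ₂ + 1 with hκ
  have hAκ : A ≤ 2 ^ κ := hκ₁.le.trans (pow_le_pow_right₀ one_le_two (by omega))
  have hcκ : c * c ≤ 2 ^ κ := hκ₂.le.trans (pow_le_pow_right₀ one_le_two (by omega))
  set t : ℕ := 13 * (D * κ) + κ + 3 with ht
  have ht0 : 0 < t := by omega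
  refine ⟨t, ht0, fun S hS ↦ ?_⟩
  have h1 : (16 * (t : ℝ) ^ 6) * (c * (c * (16 * (t : ℝ) ^ 6) * A ^ (48 * t ^ 5))) *
      A ^ (24 * t ^ 3 * S) ≤ 2 ^ (κ * (49 * t ^ 5 + 24 * t ^ 3 * S)) := by
    have hs := small_factor (κ := κ) (t := t) (by omega) (by omega)
    have hs' : 256 * (t : ℝ) ^ 12 * 2 ^ κ ≤ 2 ^ t ^ 5 := by exact_mod_cast hs
    have ht12 : (0 : ℝ) ≤ 256 * (t : ℝ) ^ 12 := by positivity
    have hA0 : 0 ≤ A := by linarith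
    have e1 : (16 * (t : ℝ) ^ 6) * (c * (c * (16 * (t : ℝ) ^ 6) * A ^ (48 * t ^ 5))) *
        A ^ (24 * t ^ 3 * S) =
        (256 * (t : ℝ) ^ 12 * (c * c)) * (A ^ (48 * t ^ 5) * A ^ (24 * t ^ 3 * S)) := by ring
    rw [e1]
    have e2 : 256 * (t : ℝ) ^ 12 * (c * c) ≤ 2 ^ t ^ 5 :=
      (mul_le_mul_of_nonneg_left hcκ ht12).trans hs'
    have e3 : A ^ (48 * t ^ 5) * A ^ (24 * t ^ 3 * S) ≤
        2 ^ (κ * (48 * t ^ 5 + 24 * t ^ 3 * S)) := by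
      rw [← pow_add, pow_mul]
      exact pow_le_pow_left₀ hA0 hAκ _
    calc _ ≤ (2 : ℝ) ^ t ^ 5 * 2 ^ (κ * (48 * t ^ 5 + 24 * t ^ 3 * S)) :=
          mul_le_mul e2 e3 (by positivity) (by positivity)
      _ = 2 ^ (t ^ 5 + κ * (48 * t ^ 5 + 24 * t ^ 3 * S)) := by rw [pow_add]
      _ ≤ _ := by
          apply pow_le_pow_right₀ one_le_two
          have hk1 : 1 ≤ κ := by omega
          calc t ^ 5 + κ * (48 * t ^ 5 + 24 * t ^ 3 * S)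
              ≤ κ * t ^ 5 + κ * (48 * t ^ 5 + 24 * t ^ 3 * S) :=
                Nat.add_le_add_right (Nat.le_mul_of_pos_left _ hk1) _
            _ = κ * (49 * t ^ 5 + 24 * t ^ 3 * S) := by ring
  have hnn : 0 ≤ (16 * (t : ℝ) ^ 6) * (c * (c * (16 * (t : ℝ) ^ 6) * A ^ (48 * t ^ 5))) *
      A ^ (24 * t ^ 3 * S) := by positivity
  calc _ ≤ ((2 : ℝ) ^ (κ * (49 * t ^ 5 + 24 * t ^ 3 * S))) ^ D := pow_le_pow_left₀ hnn h1 D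
    _ = 2 ^ (D * κ * (49 * t ^ 5 + 24 * t ^ 3 * S)) := by
        rw [← pow_mul]; congr 1; ring
    _ < 2 ^ S ^ 3 := by
        apply pow_lt_pow_right₀ one_lt_two
        exact exponent_lt (by omega) ht0 hS

end Pool.Agent.Helper51.SixExp
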