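import Pool.Agent.Helper51.SigLeo.Modulus

/-!
# The `p`-adic exponential and Iwasawa's logarithm near `1`
-/

set_option linter.unusedSectionVars false

namespace Pool.Agent.Helper51.SixExp

open Pool.Agent.Helper51.SigLeo

variable {p : ℕ} [hp : Fact p.Prime] {k : Type*} [NormedField k] [NormedAlgebra ℚ_[p] k]

/-- The exponential series. -/
noncomputable def pexp (x : k) : k := ∑' n : ℕ, ((n.factorial : k))⁻¹ * x ^ n

variable (p) in
include p in
theorem norm_factorial_inv_le (n : ℕ) : ‖((n.factorial : k))⁻¹‖ ≤ (p : ℝ) ^ n := by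
  have hp0 : (0 : ℝ) < p := by exact_mod_cast hp.out.pos
  have hp1 : (1 : ℝ) ≤ p := by exact_mod_cast hp.out.one_lt.le
  rw [norm_inv, norm_natCast_eq p,
    Padic.norm_eq_zpow_neg_valuation (by exact_mod_cast n.factorial_ne_zero),
    Padic.valuation_natCast, zpow_neg, zpow_natCast, inv_inv]
  apply pow_le_pow_right₀ hp1
  have h1 := sub_one_mul_padicValNat_factorial (p := p) n
  have h2 : 1 ≤ p - 1 := by have := hp.out.two_le; omega
  calc padicValNat p n.factorial = 1 * padicValNat p n.factorial := (one_mul _).symm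
    _ ≤ (p - 1) * padicValNat p n.factorial := Nat.mul_le_mul_right _ h2
    _ ≤ n := by rw [h1]; exact Nat.sub_le _ _

variable (p) in
include p in
theorem norm_term_le (x : k) (n : ℕ) :
    ‖((n.factorial : k))⁻¹ * x ^ n‖ ≤ (p * ‖x‖) ^ n := by
  rw [norm_mul, norm_pow, mul_pow]
  exact mul_le_mul_of_nonneg_right (norm_factorial_inv_le p n) (by positivity)

variable (p) in
include p in
theorem p_mul_norm_le {x : k} (hx : ‖x‖ ≤ ((p : ℝ)⁻¹) ^ 2) : p * ‖x‖ ≤ (p : ℝ)⁻¹ := by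
  have hp0 : (0 : ℝ) < p := by exact_mod_cast hp.out.pos
  calc (p : ℝ) * ‖x‖ ≤ p * ((p : ℝ)⁻¹) ^ 2 := mul_le_mul_of_nonneg_left hx hp0.le
    _ = (p : ℝ)⁻¹ := by field_simp

variable (p) in
include p in
theorem p_inv_lt_one : (p : ℝ)⁻¹ < 1 := inv_lt_one_of_one_lt₀ (by exact_mod_cast hp.out.one_lt)

variable (p) in
include p in
theorem p_inv_le_half : (p : ℝ)⁻¹ ≤ 1 / 2 := by
  rw [one_div]
  exact inv_anti₀ (by norm_num) (by exact_mod_cast hp.out.two_le)

theorem p_inv_nonneg : (0 : ℝ) ≤ (p : ℝ)⁻¹ := by positivity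

variable (p) in
include p in
theorem summable_norm_term {x : k} (hx : ‖x‖ ≤ ((p : ℝ)⁻¹) ^ 2) :
    Summable (fun n : ℕ ↦ ‖((n.factorial : k))⁻¹ * x ^ n‖) := by
  refine Summable.of_nonneg_of_le (fun _ ↦ norm_nonneg _) (fun n ↦ ?_)
    (summable_geometric_of_lt_one p_inv_nonneg (p_inv_lt_one p))
  exact (norm_term_le p x n).trans (pow_le_pow_left₀ (by positivity) (p_mul_norm_le p hx) n)

variable [CompleteSpace k]

variable (p) in
include p in
theorem pexp_add {x y : k} (hx : ‖x‖ ≤ ((p : ℝ)⁻¹) ^ 2) (hy : ‖y‖ ≤ ((p : ℝ)⁻¹) ^ 2) :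
    pexp (x + y) = pexp x * pexp y := by
  have := charZero_of_padic p (k := k)
  unfold pexp
  rw [tsum_mul_tsum_eq_tsum_sum_antidiagonal_of_summable_norm
    (summable_norm_term p hx) (summable_norm_term p hy)]
  refine tsum_congr fun n ↦ ?_
  rw [(Commute.all x y).add_pow', Finset.mul_sum]
  refine Finset.sum_congr rfl fun kl hkl ↦ ?_
  have hkl' : kl.1 + kl.2 = n := by simpa using hkl
  have hc : ((n.choose kl.1 : ℕ) : k) = (n.factorial : k) / (kl.1.factorial * kl.2.factorial) := by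
    rw [← hkl', Nat.cast_add_choose]
  rw [nsmul_eq_mul, hc]
  have h1 : (n.factorial : k) ≠ 0 := by exact_mod_cast n.factorial_ne_zero
  have h2 : (kl.1.factorial : k) ≠ 0 := by exact_mod_cast kl.1.factorial_ne_zero
  have h3 : (kl.2.factorial : k) ≠ 0 := by exact_mod_cast kl.2.factorial_ne_zero
  field_simp

omit hp [NormedAlgebra ℚ_[p] k] [CompleteSpace k] in
theorem pexp_zero : pexp (0 : k) = 1 := by
  unfold pexp
  rw [tsum_eq_single 0]
  · simp
  · intro n hn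
    rw [zero_pow hn, mul_zero]

variable (p) in
include p in
theorem norm_natCast_mul_le (m : ℕ) (x : k) : ‖(m : k) * x‖ ≤ ‖x‖ := by
  rw [norm_mul]
  calc ‖(m : k)‖ * ‖x‖ ≤ 1 * ‖x‖ :=
        mul_le_mul_of_nonneg_right (norm_natCast_le_one p m) (norm_nonneg _)
    _ = ‖x‖ := one_mul _

variable (p) in
include p in
theorem pexp_nat_mul {x : k} (hx : ‖x‖ ≤ ((p : ℝ)⁻¹) ^ 2) (m : ℕ) :
    pexp ((m : k) * x) = pexp x ^ m := by
  induction m with
  | zero => rw [Nat.cast_zero, zero_mul, pexp_zero, pow_zero]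
  | succ m ih =>
    rw [Nat.cast_succ, add_mul, one_mul,
      pexp_add p ((norm_natCast_mul_le p m x).trans hx) hx, ih, pow_succ]

variable (p) in
include p in
theorem pexp_ne_zero {x : k} (hx : ‖x‖ ≤ ((p : ℝ)⁻¹) ^ 2) : pexp x ≠ 0 := by
  intro h
  have h1 := pexp_add p hx (y := -x) (by rwa [norm_neg])
  rw [add_neg_cancel, pexp_zero, h, zero_mul] at h1
  exact one_ne_zero h1

variable [IsUltrametricDist k]

variable (p) in
include p in
theorem norm_pexp_sub_le {x : k} (hx : ‖x‖ ≤ ((p : ℝ)⁻¹) ^ 2) :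
    ‖pexp x - 1 - x‖ ≤ (p * ‖x‖) ^ 2 := by
  have hs := (summable_norm_term p hx).of_norm
  have h1 : pexp x - 1 - x = ∑' n : ℕ, (((n + 2).factorial : k))⁻¹ * x ^ (n + 2) := by
    have := hs.sum_add_tsum_nat_add 2
    unfold pexp
    rw [← this, Finset.sum_range_succ, Finset.sum_range_one]
    simp only [Nat.factorial_zero, Nat.cast_one, inv_one, pow_zero, mul_one, Nat.factorial_one,
      pow_one, one_mul]
    ring
  rw [h1]
  refine IsUltrametricDist.norm_tsum_le_of_forall_le_of_nonneg (by positivity) (fun n ↦ ?_)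
  refine (norm_term_le p x (n + 2)).trans ?_
  rw [pow_add]
  have h2 : (p * ‖x‖) ^ n ≤ 1 := pow_le_one₀ (by positivity)
    ((p_mul_norm_le p hx).trans (p_inv_lt_one p).le)
  calc (p * ‖x‖) ^ n * (p * ‖x‖) ^ 2 ≤ 1 * (p * ‖x‖) ^ 2 :=
        mul_le_mul_of_nonneg_right h2 (by positivity)
    _ = _ := one_mul _

variable (p) in
include p in
theorem norm_pexp_sub_one_le {x : k} (hx : ‖x‖ ≤ ((p : ℝ)⁻¹) ^ 2) :
    ‖pexp x - 1‖ ≤ ‖x‖ := by
  have hp0 : (0 : ℝ) < p := by exact_mod_cast hp.out.pos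
  have h1 : pexp x - 1 = (pexp x - 1 - x) + x := by ring
  rw [h1]
  refine (norm_add_le_max' _ _).trans (max_le ?_ le_rfl)
  refine (norm_pexp_sub_le p hx).trans ?_
  have : (p * ‖x‖) ^ 2 = ((p : ℝ) ^ 2 * ‖x‖) * ‖x‖ := by ring
  rw [this]
  have h2 : (p : ℝ) ^ 2 * ‖x‖ ≤ 1 := by
    calc (p : ℝ) ^ 2 * ‖x‖ ≤ p ^ 2 * ((p : ℝ)⁻¹) ^ 2 := mul_le_mul_of_nonneg_left hx (by positivity)
      _ = 1 := by field_simp
  calc ((p : ℝ) ^ 2 * ‖x‖) * ‖x‖ ≤ 1 * ‖x‖ := mul_le_mul_of_nonneg_right h2 (norm_nonneg _)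
    _ = _ := one_mul _

omit [CompleteSpace k] in
/-- First order estimate for the logarithm. -/
theorem norm_log_sub_le (L : IwasawaLog p k) (u : kˣ) (hu : ‖(u : k) - 1‖ ≤ 1 / 4) :
    ‖L.toFun u - ((u : k) - 1)‖ ≤ 2 * ‖(u : k) - 1‖ ^ 2 := by
  have h1 := L.norm_sub_le u (hu.trans (by norm_num))
  have h2 := norm_two_ge p (k := k)
  have h2pos : 0 < ‖(2 : k)‖ := by linarith
  have h20 : (2 : k) ≠ 0 := norm_pos_iff.mp h2pos
  have hu1 : ‖(u : k)‖ = 1 := by
    have : (u : k) = 1 + (u - 1) := by ring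
    rw [this, norm_add_eq_of_lt, norm_one]
    rw [norm_one]; linarith
  have hne : (u : k) ≠ 0 := Units.ne_zero u
  have h3 : L.toFun u - ((u : k) - 1) =
      (L.toFun u - ((u : k) - ((u⁻¹ : kˣ) : k)) / 2) + -(((u : k) - 1) ^ 2 / (2 * u)) := by
    rw [Units.val_inv_eq_inv_val]
    field_simp
    ring
  rw [h3]
  refine (norm_add_le_max' _ _).trans (max_le ?_ ?_)
  · refine h1.trans ?_
    have h4 : ‖(u : k) - 1‖ ^ 3 = ‖(u : k) - 1‖ * ‖(u : k) - 1‖ ^ 2 := by ring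
    rw [h4]
    have h5 : 0 ≤ ‖(u : k) - 1‖ ^ 2 := by positivity
    nlinarith
  · rw [norm_neg, norm_div, norm_pow, norm_mul, hu1, mul_one, div_le_iff₀ h2pos]
    have h5 : 0 ≤ ‖(u : k) - 1‖ ^ 2 := by positivity
    nlinarith

omit [CompleteSpace k] in
theorem norm_log_le (L : IwasawaLog p k) (u : kˣ) (hu : ‖(u : k) - 1‖ ≤ 1 / 4) :
    ‖L.toFun u‖ ≤ ‖(u : k) - 1‖ := by
  have h1 : L.toFun u = (L.toFun u - ((u : k) - 1)) + ((u : k) - 1) := by ring
  rw [h1]
  refine (norm_add_le_max' _ _).trans (max_le ?_ le_rfl)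
  refine (norm_log_sub_le L u hu).trans ?_
  nlinarith [norm_nonneg ((u : k) - 1)]

omit [CompleteSpace k] [IsUltrametricDist k] in
theorem log_one (L : IwasawaLog p k) : L.toFun 1 = 0 := by
  have := L.map_mul 1 1
  rw [one_mul] at this
  simpa using this

omit [CompleteSpace k] [IsUltrametricDist k] in
theorem log_pow (L : IwasawaLog p k) (u : kˣ) (m : ℕ) : L.toFun (u ^ m) = m * L.toFun u := by
  induction m with
  | zero => rw [pow_zero, log_one, Nat.cast_zero, zero_mul]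
  | succ m ih => rw [pow_succ, L.map_mul, ih]; push_cast; ring

omit [CompleteSpace k] [IsUltrametricDist k] in
theorem log_inv (L : IwasawaLog p k) (u : kˣ) : L.toFun u⁻¹ = - L.toFun u := by
  have := L.map_mul u u⁻¹
  rw [mul_inv_cancel, log_one] at this
  exact (neg_eq_of_add_eq_zero_right this.symm).symm

omit [CompleteSpace k] [IsUltrametricDist k] in
theorem log_zpow (L : IwasawaLog p k) (u : kˣ) (m : ℤ) : L.toFun (u ^ m) = m * L.toFun u := by
  cases m with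
  | ofNat m => rw [Int.ofNat_eq_natCast, zpow_natCast, log_pow]; simp
  | negSucc m =>
    rw [zpow_negSucc, log_inv, log_pow]
    push_cast; ring

omit [CompleteSpace k] [IsUltrametricDist k] in
theorem log_prod (L : IwasawaLog p k) {ι : Type*} (s : Finset ι) (u : ι → kˣ) :
    L.toFun (∏ i ∈ s, u i) = ∑ i ∈ s, L.toFun (u i) := by
  classical
  induction s using Finset.induction_on with
  | empty => rw [Finset.prod_empty, Finset.sum_empty, log_one]
  | insert a s ha ih => rw [Finset.prod_insert ha, Finset.sum_insert ha, L.map_mul, ih]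

/-- `log (exp x) = x`. -/
theorem log_pexp (L : IwasawaLog p k) {x : k} (hx : ‖x‖ ≤ ((p : ℝ)⁻¹) ^ 2) (u : kˣ)
    (hu : (u : k) = pexp x) : L.toFun u = x := by
  have hp0 : (0 : ℝ) < p := by exact_mod_cast hp.out.pos
  have hx4 : ‖x‖ ≤ 1 / 4 := by
    refine hx.trans ?_
    have := p_inv_le_half p
    nlinarith [p_inv_nonneg (p := p)]
  -- estimate for all powers of `p`
  have key : ∀ m : ℕ, ‖(p : k) ^ m * (L.toFun u - x)‖ ≤
      (2 + (p : ℝ) ^ 2) * ‖(p : k) ^ m * x‖ ^ 2 := by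
    intro m
    have hcast : (p : k) ^ m = ((p ^ m : ℕ) : k) := by push_cast; rfl
    have hmx : ‖(p : k) ^ m * x‖ ≤ ((p : ℝ)⁻¹) ^ 2 := by
      rw [hcast]; exact (norm_natCast_mul_le p _ x).trans hx
    have hmx4 : ‖(p : k) ^ m * x‖ ≤ 1 / 4 := by
      rw [hcast]; exact (norm_natCast_mul_le p _ x).trans hx4
    have hue : ((u ^ (p ^ m) : kˣ) : k) = pexp ((p : k) ^ m * x) := by
      rw [Units.val_pow_eq_pow_val, hu, hcast, pexp_nat_mul p hx]
    have h1 : ‖((u ^ (p ^ m) : kˣ) : k) - 1‖ ≤ ‖(p : k) ^ m * x‖ := by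
      rw [hue]; exact norm_pexp_sub_one_le p hmx
    have h2 := norm_log_sub_le L (u ^ (p ^ m)) (h1.trans hmx4)
    have h3 : (p : k) ^ m * (L.toFun u - x) = (L.toFun (u ^ (p ^ m)) -
        (((u ^ (p ^ m) : kˣ) : k) - 1)) +
        (((u ^ (p ^ m) : kˣ) : k) - 1 - (p : k) ^ m * x) := by
      rw [log_pow]; push_cast; ring
    rw [h3]
    refine (norm_add_le_max' _ _).trans (max_le ?_ ?_)
    · refine h2.trans ?_
      have h4 : ‖((u ^ (p ^ m) : kˣ) : k) - 1‖ ^ 2 ≤ ‖(p : k) ^ m * x‖ ^ 2 :=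
        pow_le_pow_left₀ (norm_nonneg _) h1 2
      have h5 : 0 ≤ (p : ℝ) ^ 2 * ‖(p : k) ^ m * x‖ ^ 2 := by positivity
      nlinarith
    · rw [hue]
      refine (norm_pexp_sub_le p hmx).trans ?_
      rw [mul_pow]
      have h5 : 0 ≤ ‖(p : k) ^ m * x‖ ^ 2 := by positivity
      nlinarith
  by_contra hne
  have hpos : 0 < ‖L.toFun u - x‖ := norm_pos_iff.mpr (sub_ne_zero.mpr hne)
  have hpn : ‖(p : k)‖ = (p : ℝ)⁻¹ := by
    rw [norm_natCast_eq p, Padic.norm_p]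
  set C : ℝ := (2 + (p : ℝ) ^ 2) * ‖x‖ ^ 2 with hC
  have hC0 : 0 ≤ C := by positivity
  have key2 : ∀ m : ℕ, ‖L.toFun u - x‖ ≤ C * ((p : ℝ)⁻¹) ^ m := by
    intro m
    have h1 := key m
    rw [norm_mul, norm_mul, norm_pow, hpn] at h1
    have h2 : 0 < ((p : ℝ)⁻¹) ^ m := by positivity
    have h3 : (2 + (p : ℝ) ^ 2) * (((p : ℝ)⁻¹) ^ m * ‖x‖) ^ 2 =
        ((p : ℝ)⁻¹) ^ m * (C * ((p : ℝ)⁻¹) ^ m) := by rw [hC]; ring
    rw [h3] at h1
    exact le_of_mul_le_mul_left h1 h2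
  have htend : Filter.Tendsto (fun m : ℕ ↦ C * ((p : ℝ)⁻¹) ^ m) Filter.atTop (nhds (C * 0)) :=
    (tendsto_pow_atTop_nhds_zero_of_lt_one p_inv_nonneg (p_inv_lt_one p)).const_mul C
  rw [mul_zero] at htend
  have := ge_of_tendsto' htend key2
  linarith

/-- `exp (log u) = u`. -/
theorem pexp_log (L : IwasawaLog p k) (u : kˣ) (hu : ‖(u : k) - 1‖ ≤ ((p : ℝ)⁻¹) ^ 2) :
    pexp (L.toFun u) = u := by
  have hq4 : ((p : ℝ)⁻¹) ^ 2 ≤ 1 / 4 := by
    have := p_inv_le_half p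
    nlinarith [p_inv_nonneg (p := p)]
  have hL : ‖L.toFun u‖ ≤ ((p : ℝ)⁻¹) ^ 2 := (norm_log_le L u (hu.trans hq4)).trans hu
  set e : kˣ := Units.mk0 _ (pexp_ne_zero p hL) with he
  have he' : (e : k) = pexp (L.toFun u) := rfl
  have h1 := log_pexp L hL e he'
  have h2 : L.toFun (e * u⁻¹) = 0 := by rw [L.map_mul, log_inv, h1, add_neg_cancel]
  have he1 : ‖(e : k) - 1‖ ≤ 1 / 4 := by
    rw [he']; exact (norm_pexp_sub_one_le p hL).trans (hL.trans hq4)
  have hu1 : ‖(u : k)‖ = 1 := by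
    have : (u : k) = 1 + (u - 1) := by ring
    rw [this, norm_add_eq_of_lt, norm_one]
    rw [norm_one]; linarith
  have h3 : ‖((e * u⁻¹ : kˣ) : k) - 1‖ ≤ 1 / 4 := by
    have h4 : ((e * u⁻¹ : kˣ) : k) - 1 = (((e : k) - 1) + -((u : k) - 1)) / u := by
      rw [Units.val_mul, Units.val_inv_eq_inv_val]
      have := Units.ne_zero u
      field_simp
      ring
    rw [h4, norm_div, hu1, div_one]
    refine (norm_add_le_max' _ _).trans (max_le he1 ?_)
    rw [norm_neg]; exact hu.trans hq4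
  by_contra hne
  refine log_ne_zero L (e * u⁻¹) ?_ h3 h2
  intro h5
  apply hne
  rw [← he']
  have h6 : (e : k) * ((u⁻¹ : kˣ) : k) = 1 := by rw [← Units.val_mul]; exact h5
  rw [Units.val_inv_eq_inv_val] at h6
  have h7 := Units.ne_zero u
  field_simp at h6
  exact h6

end Pool.Agent.Helper51.SixExp
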