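import Pool.Agent.Helper51.SixExp.Schwarz
import Pool.Agent.Helper51.SixExp.PExp
import Pool.Agent.Helper51.SixExp.Numeric

/-!
# The `p`-adic six exponentials theorem: the transcendence argument
-/

set_option linter.unusedSectionVars false

namespace Pool.Agent.Helper51.SixExp

open Pool.Agent.Helper51.SigLeo NumberField Module

variable (p : ℕ) [hp : Fact p.Prime] {k : Type*} [NormedField k] [NormedAlgebra ℚ_[p] k]
  [IsUltrametricDist k]

section number

variable {L : Type*} [Field L] [NumberField L]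

theorem absNorm_le_house (β : 𝓞 L) :
    ((Ideal.absNorm (Ideal.span {β}) : ℕ) : ℝ) ≤ house (β : L) ^ finrank ℚ L := by
  have hσ : ∃ σ : L →+* ℂ, True := ⟨(inferInstance : Nonempty (L →+* ℂ)).some, trivial⟩
  obtain ⟨σ, -⟩ := hσ
  have h1 := norm_norm_le_norm_mul_house_pow (β : L) σ
  have h2 : ((Ideal.absNorm (Ideal.span {β}) : ℕ) : ℝ) = ‖Algebra.norm ℚ (β : L)‖ := by
    rw [Ideal.absNorm_span_singleton, ← Algebra.coe_norm_int, Nat.cast_natAbs, Int.cast_abs,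
      ← Rat.norm_cast_real, Real.norm_eq_abs, Rat.cast_intCast]
  rw [h2]
  refine h1.trans ?_
  have h3 : house (β : L) ^ finrank ℚ L = house (β : L) * house (β : L) ^ (finrank ℚ L - 1) := by
    rw [← pow_succ']
    congr 1
    have : 0 < finrank ℚ L := finrank_pos
    omega
  rw [h3]
  exact mul_le_mul_of_nonneg_right (norm_embedding_le_house _ _)
    (pow_nonneg (house_nonneg _) _)

include p in
/-- Liouville's inequality. -/
theorem liouville (ι : L →+* k) {β : 𝓞 L} (hβ : β ≠ 0) :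
    1 ≤ ‖ι (β : L)‖ * house (β : L) ^ finrank ℚ L := by
  set m : ℕ := Ideal.absNorm (Ideal.span {β}) with hm
  have hm0 : m ≠ 0 := by
    rw [hm, Ne, Ideal.absNorm_eq_zero_iff, Ideal.span_singleton_eq_bot]
    exact hβ
  have hmem : ((m : ℕ) : 𝓞 L) ∈ Ideal.span {β} := Ideal.absNorm_mem _
  obtain ⟨γ, hγ⟩ := Ideal.mem_span_singleton.mp hmem
  have h1 : (m : k) = ι (β : L) * ι (γ : L) := by
    have : ((m : ℕ) : L) = (β : L) * (γ : L) := by
      have := congrArg (algebraMap (𝓞 L) L) hγ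
      simpa using this
    rw [← map_mul, ← this, map_natCast]
  have h2 : ‖(m : k)‖ ≤ ‖ι (β : L)‖ := by
    rw [h1, norm_mul]
    calc ‖ι (β : L)‖ * ‖ι (γ : L)‖ ≤ ‖ι (β : L)‖ * 1 :=
          mul_le_mul_of_nonneg_left (norm_map_le_one p ι (RingOfIntegers.isIntegral_coe γ))
            (norm_nonneg _)
      _ = _ := mul_one _
  have h3 := one_div_le_norm_natCast p (k := k) m hm0
  have h4 : ((m : ℕ) : ℝ) ≤ house (β : L) ^ finrank ℚ L := absNorm_le_house β
  have hmpos : (0 : ℝ) < m := by exact_mod_cast Nat.pos_of_ne_zero hm0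
  calc (1 : ℝ) = (1 / (m : ℝ)) * m := by field_simp
    _ ≤ ‖ι (β : L)‖ * house (β : L) ^ finrank ℚ L :=
        mul_le_mul (h3.trans h2) h4 hmpos.le (norm_nonneg _)

variable (L) in
theorem siegel0 : ∃ c : ℝ, ∀ (I J : Type) [Fintype I] [Fintype J] (n : ℕ), 0 < n →
    Fintype.card I = n → Fintype.card J = 2 * n → ∀ a : Matrix I J (𝓞 L), a ≠ 0 →
      ∀ A : ℝ, (∀ i j, house (a i j : L) ≤ A) → ∃ ξ : J → 𝓞 L, ξ ≠ 0 ∧ a.mulVec ξ = 0 ∧
        ∀ j, house (ξ j : L) ≤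
          c * ((c * ((2 * n : ℕ) : ℝ) * A) ^ ((n : ℝ) / (((2 * n : ℕ) : ℝ) - n))) := by
  classical
  constructor
  intro I J _ _ n hn hI hJ a ha A hA
  obtain ⟨ξ, h1, h2, h3⟩ := NumberField.house.exists_ne_zero_int_vec_house_le L a ha hn
    (by omega : n < 2 * n) hJ hA hI
  exact ⟨ξ, h1, h2, h3⟩

variable (L) in
/-- Siegel's lemma for number fields, with twice as many unknowns as equations. -/
theorem siegel : ∃ c : ℝ, 1 ≤ c ∧ ∀ (I J : Type) [Fintype I] [Fintype J] (n : ℕ), 0 < n →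
    Fintype.card I = n → Fintype.card J = 2 * n → ∀ a : Matrix I J (𝓞 L), a ≠ 0 →
      ∀ A : ℝ, (∀ i j, house (a i j : L) ≤ A) → ∃ ξ : J → 𝓞 L, ξ ≠ 0 ∧ a.mulVec ξ = 0 ∧
        ∀ j, house (ξ j : L) ≤ c * (c * ((2 * n : ℕ) : ℝ) * A) := by
  obtain ⟨c, hc⟩ := siegel0 L
  refine ⟨max 1 |c|, le_max_left _ _, ?_⟩
  intro I J _ _ n hn hI hJ a ha A hA
  obtain ⟨ξ, h1, h2, h3⟩ := hc I J n hn hI hJ a ha A hA
  refine ⟨ξ, h1, h2, fun j ↦ (h3 j).trans ?_⟩
  have e : ((n : ℝ) / (((2 * n : ℕ) : ℝ) - n)) = 1 := by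
    have : (n : ℝ) ≠ 0 := by exact_mod_cast hn.ne'
    push_cast
    field_simp
    ring
  rw [e, Real.rpow_one]
  have hA0 : 0 ≤ A := by
    have hI' : Nonempty I := Fintype.card_pos_iff.mp (by omega)
    have hJ' : Nonempty J := Fintype.card_pos_iff.mp (by omega)
    obtain ⟨i⟩ := hI'
    obtain ⟨j⟩ := hJ'
    exact (house_nonneg _).trans (hA i j)
  have h4 : c * (c * ((2 * n : ℕ) : ℝ) * A) = |c| * (|c| * ((2 * n : ℕ) : ℝ) * A) := by
    have : |c| * |c| = c * c := abs_mul_abs_self c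
    linear_combination (-((2 * n : ℕ) : ℝ) * A) * this
  rw [h4]
  have h5 : |c| ≤ max 1 |c| := le_max_right _ _
  have h6 : 0 ≤ |c| := abs_nonneg c
  have h7 : (0 : ℝ) ≤ ((2 * n : ℕ) : ℝ) := Nat.cast_nonneg _
  gcongr


/-- The monomial `∏ j, α₀ⱼ^(a mⱼ) α₁ⱼ^(b mⱼ)`. -/
noncomputable def mon (α : Fin 2 → Fin 3 → 𝓞 L) (a b : ℕ) (m : Fin 3 → ℕ) : 𝓞 L :=
  ∏ j, (α 0 j ^ (a * m j) * α 1 j ^ (b * m j))

theorem house_prod_le' {ι : Type*} (s : Finset ι) (f : ι → L) :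
    house (∏ i ∈ s, f i) ≤ ∏ i ∈ s, house (f i) := by
  simpa [house, map_prod] using Finset.norm_prod_le s (fun i ↦ canonicalEmbedding L (f i))

theorem house_mon_le {α : Fin 2 → Fin 3 → 𝓞 L} {A : ℝ} (hA : 1 ≤ A)
    (hα : ∀ i j, house (α i j : L) ≤ A) {a b N S : ℕ} {m : Fin 3 → ℕ} (ha : a ≤ N) (hb : b ≤ N)
    (hm : ∀ j, m j ≤ S) : house (mon α a b m : L) ≤ A ^ (6 * N * S) := by
  have hA0 : 0 ≤ A := by linarith
  have h1 : ∀ j : Fin 3, house ((α 0 j ^ (a * m j) * α 1 j ^ (b * m j) : 𝓞 L) : L) ≤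
      A ^ (2 * N * S) := by
    intro j
    have h2 : ((α 0 j ^ (a * m j) * α 1 j ^ (b * m j) : 𝓞 L) : L) =
        (α 0 j : L) ^ (a * m j) * (α 1 j : L) ^ (b * m j) := by push_cast; rfl
    rw [h2]
    calc house ((α 0 j : L) ^ (a * m j) * (α 1 j : L) ^ (b * m j))
        ≤ house ((α 0 j : L) ^ (a * m j)) * house ((α 1 j : L) ^ (b * m j)) := house_mul_le _ _
      _ ≤ house (α 0 j : L) ^ (a * m j) * house (α 1 j : L) ^ (b * m j) :=
          mul_le_mul (house_pow_le _ _) (house_pow_le _ _) (house_nonneg _)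
            (pow_nonneg (house_nonneg _) _)
      _ ≤ A ^ (a * m j) * A ^ (b * m j) :=
          mul_le_mul (pow_le_pow_left₀ (house_nonneg _) (hα _ _) _)
            (pow_le_pow_left₀ (house_nonneg _) (hα _ _) _) (pow_nonneg (house_nonneg _) _)
            (pow_nonneg hA0 _)
      _ = A ^ (a * m j + b * m j) := (pow_add _ _ _).symm
      _ ≤ A ^ (2 * N * S) := by
          apply pow_le_pow_right₀ hA
          have h3 : a * m j ≤ N * S := Nat.mul_le_mul ha (hm j)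
          have h4 : b * m j ≤ N * S := Nat.mul_le_mul hb (hm j)
          have h5 : 2 * N * S = N * S + N * S := by ring
          omega
  have h6 : ((mon α a b m : 𝓞 L) : L) =
      ∏ j, ((α 0 j ^ (a * m j) * α 1 j ^ (b * m j) : 𝓞 L) : L) := by
    unfold mon
    exact map_prod (algebraMap (𝓞 L) L) _ _
  rw [h6]
  calc _ ≤ ∏ j : Fin 3, house ((α 0 j ^ (a * m j) * α 1 j ^ (b * m j) : 𝓞 L) : L) :=
        house_prod_le' _ _
    _ ≤ ∏ _j : Fin 3, A ^ (2 * N * S) :=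
        Finset.prod_le_prod (fun _ _ ↦ house_nonneg _) (fun j _ ↦ h1 j)
    _ = A ^ (6 * N * S) := by
        rw [Finset.prod_const, Finset.card_univ, Fintype.card_fin, ← pow_mul]
        congr 1
        ring

end number

section analytic

variable [CompleteSpace k]

include p in
theorem pexp_sum {ι : Type*} (s : Finset ι) (f : ι → k)
    (hf : ∀ i ∈ s, ‖f i‖ ≤ ((p : ℝ)⁻¹) ^ 2) : pexp (∑ i ∈ s, f i) = ∏ i ∈ s, pexp (f i) := by
  classical
  induction s using Finset.induction_on with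
  | empty => rw [Finset.sum_empty, Finset.prod_empty, pexp_zero]
  | insert a s ha ih =>
    rw [Finset.sum_insert ha, Finset.prod_insert ha,
      pexp_add p (hf a (Finset.mem_insert_self _ _))
        (IsUltrametricDist.norm_sum_le_of_forall_le_of_nonneg (by positivity)
          (fun i hi ↦ hf i (Finset.mem_insert_of_mem hi))),
      ih (fun i hi ↦ hf i (Finset.mem_insert_of_mem hi))]

/-- The coefficients of the auxiliary function `∑ c_j exp(w_j z)`. -/
noncomputable def coeffs {J : Type*} [Fintype J] (c w : J → k) (n : ℕ) : k :=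
  ∑ j, c j * (((n.factorial : k))⁻¹ * w j ^ n)

include p in
theorem norm_coeffs_le {J : Type*} [Fintype J] {c w : J → k} (hc : ∀ j, ‖c j‖ ≤ 1)
    (hw : ∀ j, ‖w j‖ ≤ ((p : ℝ)⁻¹) ^ 2) (n : ℕ) : ‖coeffs c w n‖ ≤ 1 * ((p : ℝ)⁻¹) ^ n := by
  rw [one_mul]
  refine IsUltrametricDist.norm_sum_le_of_forall_le_of_nonneg (by positivity) (fun j _ ↦ ?_)
  rw [norm_mul]
  calc ‖c j‖ * ‖((n.factorial : k))⁻¹ * w j ^ n‖ ≤ 1 * ‖((n.factorial : k))⁻¹ * w j ^ n‖ :=
        mul_le_mul_of_nonneg_right (hc j) (norm_nonneg _)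
    _ = ‖((n.factorial : k))⁻¹ * w j ^ n‖ := one_mul _
    _ ≤ (p * ‖w j‖) ^ n := norm_term_le p _ _
    _ ≤ ((p : ℝ)⁻¹) ^ n := pow_le_pow_left₀ (by positivity) (p_mul_norm_le p (hw j)) n

include p in
theorem tsum_coeffs {J : Type*} [Fintype J] {c w : J → k}
    (hw : ∀ j, ‖w j‖ ≤ ((p : ℝ)⁻¹) ^ 2) {z : k} (hz : ‖z‖ ≤ 1) :
    ∑' n, coeffs c w n * z ^ n = ∑ j, c j * pexp (w j * z) := by
  have hwz : ∀ j, ‖w j * z‖ ≤ ((p : ℝ)⁻¹) ^ 2 := by
    intro j
    rw [norm_mul]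
    calc ‖w j‖ * ‖z‖ ≤ ‖w j‖ * 1 := mul_le_mul_of_nonneg_left hz (norm_nonneg _)
      _ ≤ _ := by rw [mul_one]; exact hw j
  have h1 : ∀ n, coeffs c w n * z ^ n =
      ∑ j, c j * (((n.factorial : k))⁻¹ * (w j * z) ^ n) := by
    intro n
    unfold coeffs
    rw [Finset.sum_mul]
    refine Finset.sum_congr rfl (fun j _ ↦ ?_)
    rw [mul_pow]; ring
  simp_rw [h1]
  rw [Summable.tsum_finsetSum (fun j _ ↦ ((summable_norm_term p (hwz j)).of_norm).mul_left (c j))]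
  refine Finset.sum_congr rfl (fun j _ ↦ ?_)
  rw [tsum_mul_left]
  rfl

omit [NormedAlgebra ℚ_[p] k] [IsUltrametricDist k] [CompleteSpace k] hp in
/-- Distinct exponentials are linearly independent. -/
theorem eq_zero_of_coeffs {J : Type*} [Fintype J] [CharZero k] {c w : J → k}
    (hw : Function.Injective w) (h : ∀ n, coeffs c w n = 0) : ∀ j, c j = 0 := by
  have hli : LinearIndependent k (fun j : J ↦ ((powersHom k (w j) : Multiplicative ℕ →* k) :
      Multiplicative ℕ → k)) := by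
    refine (linearIndependent_monoidHom (Multiplicative ℕ) k).comp
      (fun j : J ↦ (powersHom k (w j) : Multiplicative ℕ →* k)) ?_
    intro i j hij
    exact hw ((powersHom k).injective hij)
  refine (Fintype.linearIndependent_iff.mp hli) c ?_
  funext n
  have h1 := h n.toAdd
  unfold coeffs at h1
  have hfac : ((n.toAdd.factorial : ℕ) : k) ≠ 0 := by exact_mod_cast n.toAdd.factorial_ne_zero
  have h2 : ∑ j, c j * (((n.toAdd.factorial : k))⁻¹ * w j ^ n.toAdd) =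
      ((n.toAdd.factorial : k))⁻¹ * ∑ j, c j * w j ^ n.toAdd := by
    rw [Finset.mul_sum]
    refine Finset.sum_congr rfl (fun j _ ↦ ?_)
    ring
  rw [h2] at h1
  have h3 := (mul_eq_zero.mp h1).resolve_left (inv_ne_zero hfac)
  simpa [Finset.sum_apply, powersHom_apply] using h3

end analytic

section main

variable [CompleteSpace k] {L : Type*} [Field L] [NumberField L]

/-- The point `∑ j, mⱼ yⱼ`. -/
noncomputable def pt (y : Fin 3 → k) (m : Fin 3 → ℕ) : k := ∑ j, (m j : k) * y j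

include p in
theorem norm_pt_le {y : Fin 3 → k} (hy : ∀ j, ‖y j‖ ≤ 1) (m : Fin 3 → ℕ) : ‖pt y m‖ ≤ 1 :=
  IsUltrametricDist.norm_sum_le_of_forall_le_of_nonneg zero_le_one
    (fun j _ ↦ (norm_natCast_mul_le p (m j) (y j)).trans (hy j))

include p in
theorem pexp_pt (ι : L →+* k) {α : Fin 2 → Fin 3 → 𝓞 L} {x : Fin 2 → k} {y : Fin 3 → k}
    (hx : ∀ i, ‖x i‖ ≤ ((p : ℝ)⁻¹) ^ 2) (hy : ∀ j, ‖y j‖ ≤ 1)
    (hexp : ∀ i j, pexp (x i * y j) = ι (α i j : L)) (a b : ℕ) (m : Fin 3 → ℕ) :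
    pexp (((a : k) * x 0 + (b : k) * x 1) * pt y m) = ι (mon α a b m : L) := by
  have hxy : ∀ i j, ‖x i * y j‖ ≤ ((p : ℝ)⁻¹) ^ 2 := by
    intro i j
    rw [norm_mul]
    calc ‖x i‖ * ‖y j‖ ≤ ‖x i‖ * 1 := mul_le_mul_of_nonneg_left (hy j) (norm_nonneg _)
      _ ≤ _ := by rw [mul_one]; exact hx i
  have h1 : ((a : k) * x 0 + (b : k) * x 1) * pt y m =
      ∑ j, (((a * m j : ℕ) : k) * (x 0 * y j) + ((b * m j : ℕ) : k) * (x 1 * y j)) := by
    unfold pt
    rw [Finset.mul_sum]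
    refine Finset.sum_congr rfl (fun j _ ↦ ?_)
    push_cast; ring
  have h2 : ∀ (i : Fin 2) (c : ℕ) (j : Fin 3), ‖(c : k) * (x i * y j)‖ ≤ ((p : ℝ)⁻¹) ^ 2 :=
    fun i c j ↦ (norm_natCast_mul_le p c _).trans (hxy i j)
  rw [h1, pexp_sum p _ _ (fun j _ ↦ (norm_add_le_max' _ _).trans (max_le (h2 0 _ j) (h2 1 _ j)))]
  have h3 : (mon α a b m : L) =
      ∏ j, ((α 0 j : L) ^ (a * m j) * (α 1 j : L) ^ (b * m j)) := by
    unfold mon
    refine (map_prod (algebraMap (𝓞 L) L) _ _).trans ?_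
    refine Finset.prod_congr rfl (fun j _ ↦ ?_)
    simp
  rw [h3, map_prod]
  refine Finset.prod_congr rfl (fun j _ ↦ ?_)
  rw [pexp_add p (h2 0 _ j) (h2 1 _ j), pexp_nat_mul p (hxy 0 j), pexp_nat_mul p (hxy 1 j),
    hexp, hexp, map_mul, map_pow, map_pow]

include p in
/-- **The `p`-adic six exponentials theorem** (for algebraic integers). -/
theorem core (ι : L →+* k) (α : Fin 2 → Fin 3 → 𝓞 L) (x : Fin 2 → k) (y : Fin 3 → k)
    (hx : ∀ i, ‖x i‖ ≤ ((p : ℝ)⁻¹) ^ 2) (hy : ∀ j, ‖y j‖ ≤ 1)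
    (hexp : ∀ i j, pexp (x i * y j) = ι (α i j : L))
    (hxi : ∀ m : Fin 2 → ℤ, ∑ i, (m i : k) * x i = 0 → m = 0)
    (hyi : ∀ m : Fin 3 → ℤ, ∑ j, (m j : k) * y j = 0 → m = 0) : False := by
  classical
  have hchar : CharZero k := charZero_of_padic p (k := k)
  -- a bound for the houses
  obtain ⟨A, hA1, hA⟩ : ∃ A : ℝ, 1 ≤ A ∧ ∀ i j, house (α i j : L) ≤ A := by
    refine ⟨1 + ∑ i, ∑ j, house (α i j : L), ?_, fun i j ↦ ?_⟩
    · have : 0 ≤ ∑ i, ∑ j, house (α i j : L) :=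
        Finset.sum_nonneg (fun _ _ ↦ Finset.sum_nonneg (fun _ _ ↦ house_nonneg _))
      linarith
    · have h1 : house (α i j : L) ≤ ∑ j, house (α i j : L) :=
        Finset.single_le_sum (f := fun j ↦ house (α i j : L)) (fun _ _ ↦ house_nonneg _)
          (Finset.mem_univ j)
      have h2 : ∑ j, house (α i j : L) ≤ ∑ i, ∑ j, house (α i j : L) :=
        Finset.single_le_sum (f := fun i ↦ ∑ j, house (α i j : L))
          (fun _ _ ↦ Finset.sum_nonneg (fun _ _ ↦ house_nonneg _)) (Finset.mem_univ i)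
      linarith
  have hA0 : 0 ≤ A := by linarith
  obtain ⟨c₁, hc₁, hsiegel⟩ := siegel L
  obtain ⟨t, ht0, ht⟩ := exists_parameter hc₁ hA1 (finrank ℚ L)
  set N : ℕ := 4 * t ^ 3 with hN
  set M : ℕ := 2 * t ^ 2 with hM
  have hN0 : 0 < N := by positivity
  have hM0 : 0 < M := by positivity
  -- Siegel's lemma
  obtain ⟨ξ, hξ0, hξ, hξh⟩ : ∃ ξ : Fin N × Fin N → 𝓞 L, ξ ≠ 0 ∧
      (∀ m : Fin 3 → ℕ, (∀ j, m j < M) → ∑ ab, mon α ab.1 ab.2 m * ξ ab = 0) ∧
      ∀ ab, house (ξ ab : L) ≤ c₁ * (c₁ * (16 * (t : ℝ) ^ 6) * A ^ (48 * t ^ 5)) := by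
    set a : Matrix (Fin 3 → Fin M) (Fin N × Fin N) (𝓞 L) :=
      fun m ab ↦ mon α ab.1 ab.2 (fun j ↦ m j) with ha
    have ha0 : a ≠ 0 := by
      intro h
      have h1 := congrFun (congrFun h (fun _ ↦ ⟨0, hM0⟩)) (⟨0, hN0⟩, ⟨0, hN0⟩)
      have h2 : mon α 0 0 (fun _ ↦ 0) = (0 : 𝓞 L) := h1
      unfold mon at h2
      simp at h2
    obtain ⟨ξ, h1, h2, h3⟩ := hsiegel (Fin 3 → Fin M) (Fin N × Fin N) (M ^ 3) (by positivity)
      (by rw [Fintype.card_fun, Fintype.card_fin, Fintype.card_fin])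
      (by rw [Fintype.card_prod, Fintype.card_fin, hN, hM]; ring) a ha0 (A ^ (6 * N * M))
      (fun m ab ↦ house_mon_le hA1 hA ab.1.2.le ab.2.2.le (fun j ↦ (m j).2.le))
    refine ⟨ξ, h1, fun m hm ↦ ?_, fun ab ↦ ?_⟩
    · exact congrFun h2 (fun j ↦ ⟨m j, hm j⟩)
    · have h4 := h3 ab
      have h5 : ((2 * M ^ 3 : ℕ) : ℝ) = 16 * (t : ℝ) ^ 6 := by rw [hM]; push_cast; ring
      have h6 : 6 * N * M = 48 * t ^ 5 := by rw [hN, hM]; ring
      rw [h5, h6] at h4
      exact h4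
  -- the auxiliary function
  set c : Fin N × Fin N → k := fun ab ↦ ι (ξ ab : L) with hc
  set w : Fin N × Fin N → k := fun ab ↦ ((ab.1 : ℕ) : k) * x 0 + ((ab.2 : ℕ) : k) * x 1 with hw
  have hcn : ∀ ab, ‖c ab‖ ≤ 1 := fun ab ↦ norm_map_le_one p ι (RingOfIntegers.isIntegral_coe _)
  have hwn : ∀ ab, ‖w ab‖ ≤ ((p : ℝ)⁻¹) ^ 2 := fun ab ↦
    (norm_add_le_max' _ _).trans (max_le ((norm_natCast_mul_le p _ _).trans (hx 0))
      ((norm_natCast_mul_le p _ _).trans (hx 1)))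
  set β : (Fin 3 → ℕ) → 𝓞 L := fun m ↦ ∑ ab, mon α ab.1 ab.2 m * ξ ab with hβ
  have hval : ∀ m : Fin 3 → ℕ, ∑' n, coeffs c w n * pt y m ^ n = ι (β m : L) := by
    intro m
    rw [tsum_coeffs p hwn (norm_pt_le p hy m)]
    have h1 : (β m : L) = ∑ ab, (mon α ab.1 ab.2 m : L) * (ξ ab : L) := by
      rw [hβ]
      refine (map_sum (algebraMap (𝓞 L) L) _ _).trans ?_
      refine Finset.sum_congr rfl (fun ab _ ↦ ?_)
      simp
    rw [h1, map_sum]
    refine Finset.sum_congr rfl (fun ab _ ↦ ?_)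
    rw [pexp_pt p ι hx hy hexp, map_mul, mul_comm]
  have hptinj : Function.Injective (pt y) := by
    intro m m' h
    have h1 := hyi (fun j ↦ (m j : ℤ) - (m' j : ℤ)) (by
      unfold pt at h
      have h2 : ∑ j, (((m j : ℤ) - (m' j : ℤ) : ℤ) : k) * y j =
          ∑ j, (m j : k) * y j - ∑ j, (m' j : k) * y j := by
        rw [← Finset.sum_sub_distrib]
        refine Finset.sum_congr rfl (fun j _ ↦ ?_)
        push_cast; ring
      rw [h2, h, sub_self])
    funext j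
    have h3 : (m j : ℤ) - (m' j : ℤ) = 0 := congrFun h1 j
    omega
  have hcoef : ∀ n, ‖coeffs c w n‖ ≤ 1 * ((p : ℝ)⁻¹) ^ n := norm_coeffs_le p hcn hwn
  -- zeros give small coefficients
  have hsmall : ∀ S : ℕ, (∀ m : Fin 3 → ℕ, (∀ j, m j < S) → β m = 0) →
      ∀ n, ‖coeffs c w n‖ ≤ ((p : ℝ)⁻¹) ^ S ^ 3 := by
    intro S hS n
    set Z : Finset k := (Fintype.piFinset (fun _ : Fin 3 ↦ Finset.range S)).image (pt y) with hZ
    have hcard : Z.card = S ^ 3 := by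
      rw [hZ, Finset.card_image_of_injective _ hptinj, Fintype.card_piFinset]
      simp
    have h1 := schwarz (p_inv_nonneg (p := p)) (p_inv_lt_one p) Z ?_ 1 zero_le_one
      (coeffs c w) hcoef ?_ n
    · rwa [hcard, one_mul] at h1
    · intro z hz
      obtain ⟨m, -, rfl⟩ := Finset.mem_image.mp hz
      exact norm_pt_le p hy m
    · intro z hz
      obtain ⟨m, hm, rfl⟩ := Finset.mem_image.mp hz
      have hm' : ∀ j, m j < S := fun j ↦ Finset.mem_range.mp (Fintype.mem_piFinset.mp hm j)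
      rw [hval m, hS m hm']
      simp
  -- extrapolation
  have hall : ∀ S : ℕ, M ≤ S → ∀ m : Fin 3 → ℕ, (∀ j, m j < S) → β m = 0 := by
    intro S hS
    induction S, hS using Nat.le_induction with
    | base => exact fun m hm ↦ hξ m hm
    | succ S hS ih =>
      intro m hm
      by_contra hne
      have h1 := liouville p ι hne
      have h2 : ‖ι (β m : L)‖ ≤ ((p : ℝ)⁻¹) ^ S ^ 3 := by
        rw [← hval m]
        exact norm_tsum_le (by positivity) (hsmall S ih) (norm_pt_le p hy m)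
      have h3 : house (β m : L) ≤ (16 * (t : ℝ) ^ 6) *
          (c₁ * (c₁ * (16 * (t : ℝ) ^ 6) * A ^ (48 * t ^ 5))) * A ^ (24 * t ^ 3 * S) := by
        have e1 : (β m : L) = ∑ ab, (mon α ab.1 ab.2 m : L) * (ξ ab : L) := by
          rw [hβ]
          refine (map_sum (algebraMap (𝓞 L) L) _ _).trans ?_
          refine Finset.sum_congr rfl (fun ab _ ↦ ?_)
          simp
        rw [e1]
        refine (house_sum_le_sum_house _ _).trans ?_
        have e2 : ∀ ab ∈ (Finset.univ : Finset (Fin N × Fin N)),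
            house ((mon α ab.1 ab.2 m : L) * (ξ ab : L)) ≤
            A ^ (24 * t ^ 3 * S) * (c₁ * (c₁ * (16 * (t : ℝ) ^ 6) * A ^ (48 * t ^ 5))) := by
          intro ab _
          have e3 : 6 * N * S = 24 * t ^ 3 * S := by rw [hN]; ring
          refine (house_mul_le _ _).trans ?_
          refine mul_le_mul ?_ (hξh ab) (house_nonneg _) (pow_nonneg hA0 _)
          rw [← e3]
          exact house_mon_le hA1 hA ab.1.2.le ab.2.2.le (fun j ↦ Nat.lt_succ_iff.mp (hm j))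
        refine (Finset.sum_le_sum e2).trans (le_of_eq ?_)
        rw [Finset.sum_const, Finset.card_univ, Fintype.card_prod, Fintype.card_fin, nsmul_eq_mul,
          hN]
        push_cast
        ring
      have h4 := ht S hS
      have h5 : house (β m : L) ^ finrank ℚ L < 2 ^ S ^ 3 :=
        lt_of_le_of_lt (pow_le_pow_left₀ (house_nonneg _) h3 _) h4
      have hp2 : (2 : ℝ) ≤ p := by exact_mod_cast hp.out.two_le
      have h6 : house (β m : L) ^ finrank ℚ L < (p : ℝ) ^ S ^ 3 :=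
        lt_of_lt_of_le h5 (pow_le_pow_left₀ zero_le_two hp2 _)
      have hpp : (0 : ℝ) < (p : ℝ) ^ S ^ 3 := by
        have : (0 : ℝ) < p := by linarith
        positivity
      have h7 : ‖ι (β m : L)‖ * house (β m : L) ^ finrank ℚ L <
          ((p : ℝ)⁻¹) ^ S ^ 3 * (p : ℝ) ^ S ^ 3 := by
        calc ‖ι (β m : L)‖ * house (β m : L) ^ finrank ℚ L
            ≤ ((p : ℝ)⁻¹) ^ S ^ 3 * house (β m : L) ^ finrank ℚ L :=
              mul_le_mul_of_nonneg_right h2 (pow_nonneg (house_nonneg _) _)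
          _ < ((p : ℝ)⁻¹) ^ S ^ 3 * (p : ℝ) ^ S ^ 3 := by
              apply mul_lt_mul_of_pos_left h6
              have : (0 : ℝ) < p := by linarith
              positivity
      have h8 : ((p : ℝ)⁻¹) ^ S ^ 3 * (p : ℝ) ^ S ^ 3 = 1 := by
        rw [inv_pow]
        exact inv_mul_cancel₀ hpp.ne'
      rw [h8] at h7
      linarith
  -- all the coefficients vanish
  have hzero : ∀ n, coeffs c w n = 0 := by
    intro n
    by_contra hne
    have hpos : 0 < ‖coeffs c w n‖ := norm_pos_iff.mpr hne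
    obtain ⟨T, hT⟩ := exists_pow_lt_of_lt_one hpos (p_inv_lt_one p)
    have h1 := hsmall (max M T) (hall (max M T) (le_max_left _ _)) n
    have h2 : ((p : ℝ)⁻¹) ^ (max M T) ^ 3 ≤ ((p : ℝ)⁻¹) ^ T := by
      apply pow_le_pow_of_le_one p_inv_nonneg (p_inv_lt_one p).le
      calc T ≤ max M T := le_max_right _ _
        _ ≤ (max M T) ^ 3 := Nat.le_self_pow (by norm_num) _
    linarith
  have hwinj : Function.Injective w := by
    intro ab ab' h
    have h1 := hxi (fun i ↦ if i = 0 then ((ab.1 : ℕ) : ℤ) - ((ab'.1 : ℕ) : ℤ)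
      else ((ab.2 : ℕ) : ℤ) - ((ab'.2 : ℕ) : ℤ)) (by
      rw [Fin.sum_univ_two]
      simp only [if_true, Fin.one_eq_zero_iff, if_false, OfNat.ofNat_ne_one]
      push_cast
      simp only [hw] at h
      linear_combination h)
    have h2 := congrFun h1 0
    have h3 := congrFun h1 1
    simp only [if_true, Pi.zero_apply, Fin.one_eq_zero_iff, if_false, OfNat.ofNat_ne_one] at h2 h3
    ext
    · omega
    · omega
  have hfin := eq_zero_of_coeffs hwinj hzero
  apply hξ0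
  funext ab
  have h1 := hfin ab
  rw [hc] at h1
  have h2 : (ξ ab : L) = 0 := (map_eq_zero ι).mp h1
  exact RingOfIntegers.coe_eq_zero_iff.mp h2

end main

end Pool.Agent.Helper51.SixExp
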