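import Pool.Agent.Helper51.SixExp.Main

/-!
# The `p`-adic six exponentials theorem for algebraic units in a field of characteristic zero
-/

set_option linter.unusedSectionVars false

namespace Pool.Agent.Helper51.SixExp

open Pool.Agent.Helper51.SigLeo NumberField Module

variable {Ω : Type*} [Field Ω] [CharZero Ω]

/-- An element of `Ωˣ` which is an algebraic unit. -/
def IsUnitAlg (x : Ωˣ) : Prop := IsIntegral ℤ (x : Ω) ∧ IsIntegral ℤ ((x⁻¹ : Ωˣ) : Ω)

theorem IsUnitAlg.inv {x : Ωˣ} (h : IsUnitAlg x) : IsUnitAlg x⁻¹ := ⟨h.2, by rw [inv_inv]; exact h.1⟩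

theorem IsUnitAlg.mul {x y : Ωˣ} (hx : IsUnitAlg x) (hy : IsUnitAlg y) : IsUnitAlg (x * y) := by
  refine ⟨?_, ?_⟩
  · rw [Units.val_mul]; exact hx.1.mul hy.1
  · rw [mul_inv, Units.val_mul]; exact hx.2.mul hy.2

theorem IsUnitAlg.one : IsUnitAlg (1 : Ωˣ) := by
  refine ⟨?_, ?_⟩
  · rw [Units.val_one]; exact isIntegral_one
  · rw [inv_one, Units.val_one]; exact isIntegral_one

theorem IsUnitAlg.pow {x : Ωˣ} (hx : IsUnitAlg x) (n : ℕ) : IsUnitAlg (x ^ n) := by
  induction n with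
  | zero => rw [pow_zero]; exact IsUnitAlg.one
  | succ n ih => rw [pow_succ]; exact ih.mul hx

theorem IsUnitAlg.zpow {x : Ωˣ} (hx : IsUnitAlg x) (n : ℤ) : IsUnitAlg (x ^ n) := by
  obtain ⟨m, rfl | rfl⟩ := n.eq_nat_or_neg
  · rw [zpow_natCast]; exact hx.pow m
  · rw [zpow_neg, zpow_natCast]; exact (hx.pow m).inv

theorem IsUnitAlg.prod {ι : Type*} (s : Finset ι) {x : ι → Ωˣ} (hx : ∀ i ∈ s, IsUnitAlg (x i)) :
    IsUnitAlg (∏ i ∈ s, x i) := by
  classical
  induction s using Finset.induction_on with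
  | empty => rw [Finset.prod_empty]; exact IsUnitAlg.one
  | insert i s hi ih =>
    rw [Finset.prod_insert hi]
    exact (hx i (Finset.mem_insert_self i s)).mul
      (ih fun j hj ↦ hx j (Finset.mem_insert_of_mem hj))

/-- Finitely many algebraic units come from a number field. -/
theorem exists_numberField {α : Type*} [Finite α] (x : α → Ωˣ) (hx : ∀ a, IsUnitAlg (x a)) :
    ∃ (L : IntermediateField ℚ Ω) (_ : NumberField L) (v : α → (𝓞 L)ˣ),
      ∀ a, ((v a : L) : Ω) = x a := by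
  classical
  let L : IntermediateField ℚ Ω := IntermediateField.adjoin ℚ (Set.range fun a ↦ (x a : Ω))
  have hfin : FiniteDimensional ℚ L := by
    refine IntermediateField.finiteDimensional_adjoin (K := ℚ) (S := Set.range fun a ↦ (x a : Ω)) ?_
    rintro y ⟨a, rfl⟩
    exact (hx a).1.tower_top
  have hNF : NumberField L := { to_charZero := inferInstance, to_finiteDimensional := hfin }
  have hmem : ∀ a, (x a : Ω) ∈ L := fun a ↦
    IntermediateField.subset_adjoin ℚ _ ⟨a, rfl⟩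
  have hmem' : ∀ a, (((x a)⁻¹ : Ωˣ) : Ω) ∈ L := fun a ↦ by
    rw [Units.val_inv_eq_inv_val]
    exact L.inv_mem (hmem a)
  have hint : ∀ y : L, IsIntegral ℤ (y : Ω) → IsIntegral ℤ y := fun y hy ↦ by
    have := hy
    rwa [← IntermediateField.algebraMap_apply,
      isIntegral_algebraMap_iff (algebraMap L Ω).injective] at this
  refine ⟨L, hNF, fun a ↦ mkUnit (⟨x a, hmem a⟩ : L) ⟨((x a)⁻¹ : Ωˣ), hmem' a⟩
    (hint _ (hx a).1) (hint _ (hx a).2) ?_, ?_⟩
  · apply Subtype.ext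
    show (x a : Ω) * (((x a)⁻¹ : Ωˣ) : Ω) = 1
    rw [← Units.val_mul, mul_inv_cancel, Units.val_one]
  · intro a
    rfl

variable (p : ℕ) [hp : Fact p.Prime] {k : Type*} [NormedField k] [NormedAlgebra ℚ_[p] k]
  [IsUltrametricDist k]

/-- If the logarithm of an algebraic unit vanishes, it is a root of unity. -/
theorem torsion_of_log_eq_zero (ι : Ω →+* k) (Λ : IwasawaLog p k) (x : Ωˣ) (hx : IsUnitAlg x)
    (h : Λ.toFun (Units.map (ι : Ω →* k) x) = 0) : ∃ N : ℕ, 0 < N ∧ x ^ N = 1 := by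
  have hchar : CharZero k := charZero_of_padic p (k := k)
  obtain ⟨L, hL, v, hv⟩ := exists_numberField (fun _ : Unit ↦ x) fun _ ↦ hx
  obtain ⟨N, hN, hNu⟩ := exists_pow_norm_le p (ι.comp (algebraMap L Ω))
  refine ⟨N, hN, ?_⟩
  have h1 : ((Units.map (ι : Ω →* k) (x ^ N) : kˣ) : k) =
      (ι.comp (algebraMap L Ω)) (((v ()) ^ N : (𝓞 L)ˣ) : L) := by
    rw [Units.coe_map, Units.val_pow_eq_pow_val, ← hv ()]
    simp
  have h2 := hNu (v ())
  rw [← h1] at h2
  have hq4 : ((p : ℝ)⁻¹) ^ 2 ≤ 1 / 4 := by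
    have := p_inv_le_half p
    nlinarith [p_inv_nonneg (p := p)]
  by_contra hne
  have h3 : ((Units.map (ι : Ω →* k) (x ^ N) : kˣ) : k) ≠ 1 := by
    intro h3
    apply hne
    apply Units.ext
    apply ι.injective
    rw [Units.val_one, map_one]
    exact h3
  refine SigLeo.log_ne_zero Λ _ h3 (h2.trans hq4) ?_
  rw [map_pow, log_pow, h, mul_zero]

variable [CompleteSpace k]

/-- The `p`-adic six exponentials theorem for algebraic units. -/
theorem sixExp_units (ι : Ω →+* k) (Λ : IwasawaLog p k) (x : Fin 2 → Fin 3 → Ωˣ)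
    (hx : ∀ i j, IsUnitAlg (x i j))
    (hrk : ∀ j j', Λ.toFun (Units.map (ι : Ω →* k) (x 0 j)) *
        Λ.toFun (Units.map (ι : Ω →* k) (x 1 j')) =
      Λ.toFun (Units.map (ι : Ω →* k) (x 0 j')) * Λ.toFun (Units.map (ι : Ω →* k) (x 1 j))) :
    (∃ m : Fin 2 → ℤ, m ≠ 0 ∧ ∀ j, ∃ N : ℕ, 0 < N ∧ (∏ i, x i j ^ m i) ^ N = 1) ∨
    (∃ n : Fin 3 → ℤ, n ≠ 0 ∧ ∀ i, ∃ N : ℕ, 0 < N ∧ (∏ j, x i j ^ n j) ^ N = 1) := by
  obtain ⟨L, hL, v, hv⟩ := exists_numberField (fun a : Fin 2 × Fin 3 ↦ x a.1 a.2)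
    fun a ↦ hx a.1 a.2
  have hlog : ∀ i j, logU Λ (ι.comp (algebraMap L Ω)) (v (i, j)) =
      Λ.toFun (Units.map (ι : Ω →* k) (x i j)) := by
    intro i j
    unfold logU
    congr 1
    apply Units.ext
    show ι ((v (i, j) : L) : Ω) = ι (x i j)
    rw [hv (i, j)]
  rcases sixExp_number p (ι.comp (algebraMap L Ω)) Λ (fun i j ↦ v (i, j)) (by
    intro j j'
    simp only [hlog]
    exact hrk j j') with ⟨m, hm0, hm⟩ | ⟨n, hn0, hn⟩
  · left
    refine ⟨m, hm0, fun j ↦ ?_⟩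
    apply torsion_of_log_eq_zero p ι Λ _ (IsUnitAlg.prod _ fun i _ ↦ (hx i j).zpow _)
    rw [map_prod, log_prod]
    have := hm j
    simp only [hlog] at this
    rw [← this]
    refine Finset.sum_congr rfl fun i _ ↦ ?_
    rw [map_zpow, log_zpow]
  · right
    refine ⟨n, hn0, fun i ↦ ?_⟩
    apply torsion_of_log_eq_zero p ι Λ _ (IsUnitAlg.prod _ fun j _ ↦ (hx i j).zpow _)
    rw [map_prod, log_prod]
    have := hn i
    simp only [hlog] at this
    rw [← this]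
    refine Finset.sum_congr rfl fun j _ ↦ ?_
    rw [map_zpow, log_zpow]

end Pool.Agent.Helper51.SixExp
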