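import Pool.Agent.Helper51.SixExp.CM
import Pool.Agent.Helper51.SixExp.UnitsAlg

/-!
# At most one complementary pair of CM types fails the `Σ`-Leopoldt conjecture
-/

set_option linter.unusedSectionVars false

namespace Pool.Agent.Helper51.SixExp

open Pool.Agent.Helper51.SigLeo NumberField Module

section

variable {H Ω : Type*} [Field H] [NumberField H] [Field Ω] [CharZero Ω]

/-- The image of a unit of `H` under an embedding in `Ω`. -/
noncomputable def img (σ : H →+* Ω) (u : (𝓞 H)ˣ) : Ωˣ :=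
  Units.map (σ.comp (algebraMap (𝓞 H) H) : 𝓞 H →* Ω) u

theorem img_coe (σ : H →+* Ω) (u : (𝓞 H)ˣ) : (img σ u : Ω) = σ (u : H) := rfl

theorem img_isUnitAlg (σ : H →+* Ω) (u : (𝓞 H)ˣ) : IsUnitAlg (img σ u) := by
  have key : ∀ v : (𝓞 H)ˣ, IsIntegral ℤ (img σ v : Ω) := fun v ↦ by
    rw [img_coe]
    exact (RingOfIntegers.isIntegral_coe (v : 𝓞 H)).map (σ.toIntAlgHom)
  refine ⟨key u, ?_⟩
  have : (img σ u)⁻¹ = img σ u⁻¹ := by
    unfold img; rw [map_inv]
  rw [this]
  exact key _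

theorem log_img {p : ℕ} {k : Type*} [NormedField k] (L : IwasawaLog p k) (ιp : Ω →+* k)
    (σ : H →+* Ω) (u : (𝓞 H)ˣ) : L.toFun (Units.map (ιp : Ω →* k) (img σ u)) =
      logUnits L (ιp.comp σ) (Additive.ofMul u) := by
  rw [logUnits_apply]
  congr 1

theorem norm_eq_one_of_pow {x : Ωˣ} {N : ℕ} (hN : 0 < N) (h : x ^ N = 1) (ι : Ω →+* ℂ) :
    Real.log ‖ι x‖ = 0 := by
  have h1 : ‖ι x‖ ^ N = 1 := by
    rw [← norm_pow, ← map_pow, ← Units.val_pow_eq_pow_val, h, Units.val_one, map_one, norm_one]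
  have h2 : ‖ι x‖ = 1 := (pow_eq_one_iff_of_nonneg (norm_nonneg _) hN.ne').mp h1
  rw [h2, Real.log_one]

end

section

variable {F K H Ω : Type*} [Field F] [NumberField F] [IsTotallyReal F] [Field K] [NumberField K]
  [IsTotallyComplex K] [Algebra F K] [Field H] [NumberField H] [Algebra K H]
  [Field Ω] [CharZero Ω]

/-- There is a unit fixed by `τ` with nonzero archimedean logarithm. -/
theorem exists_eta (hH : finrank K H = 2) (τ : H ≃ₐ[K] H) (hτ : τ ≠ 1) (σ₁ σ₂ : H →+* ℂ)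
    (h12 : (σ₁.comp (algebraMap K H)).comp (algebraMap F K) ≠
      (σ₂.comp (algebraMap K H)).comp (algebraMap F K)) :
    ∃ η : (𝓞 H)ˣ, τ (η : H) = η ∧ Real.log ‖σ₁ (η : H)‖ ≠ 0 := by
  classical
  have hττ : ∀ z, τ (τ z) = z := fun z ↦ by
    have := AlgEquiv.congr_fun (tau_mul_tau hH τ hτ) z
    simpa using this
  by_contra hcon
  push Not at hcon
  set w₁ := InfinitePlace.mk σ₁ with hw₁
  set w₁' := InfinitePlace.mk (σ₁.comp (τ : H →+* H)) with hw₁'
  have hmult : ∀ w : InfinitePlace H, (0 : ℝ) < w.mult := fun w ↦ by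
    exact_mod_cast InfinitePlace.mult_pos
  have hne2 : w₁' ≠ InfinitePlace.mk σ₂ := by
    apply mk_ne_of_restrict_ne (F := F) (K := K)
    intro h
    apply h12
    rw [← h]
    ext y
    show σ₁ (algebraMap K H (algebraMap F K y)) = σ₁ (τ (algebraMap K H (algebraMap F K y)))
    rw [AlgEquiv.commutes]
  have hne1 : w₁ ≠ InfinitePlace.mk σ₂ := mk_ne_of_restrict_ne _ _ h12
  have := log_relation_const (fun w ↦ (w.mult : ℝ)⁻¹ * ((if w = w₁ then 1 else 0) +
    (if w = w₁' then 1 else 0))) (fun u ↦ by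
      have h7 : ∀ w : InfinitePlace H, (w.mult : ℝ)⁻¹ * ((if w = w₁ then 1 else 0) +
          (if w = w₁' then 1 else 0)) * (w.mult * Real.log (w (u : H))) =
          (if w = w₁ then Real.log (w (u : H)) else 0) +
          (if w = w₁' then Real.log (w (u : H)) else 0) := by
        intro w
        have hw := (hmult w).ne'
        have key : ∀ v, (if w = v then Real.log (w (u : H)) else 0) =
            (if w = v then (1 : ℝ) else 0) * Real.log (w (u : H)) := by
          intro v; split_ifs <;> simp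
        rw [key, key]
        generalize (if w = w₁ then (1 : ℝ) else 0) = t₁
        generalize (if w = w₁' then (1 : ℝ) else 0) = t₂
        field_simp
      simp only [h7, Finset.sum_add_distrib, Finset.sum_ite_eq', Finset.mem_univ, if_true]
      have hu0 : (u : H) ≠ 0 := Units.coe_ne_zero u
      have hτu : ((Units.map (RingOfIntegers.mapRingHom (τ : H →+* H) : 𝓞 H →* 𝓞 H) u :
        (𝓞 H)ˣ) : H) = τ (u : H) := rfl
      have h8 := hcon (u * Units.map (RingOfIntegers.mapRingHom (τ : H →+* H) : 𝓞 H →* 𝓞 H) u)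
        (by rw [Units.coe_mul, hτu, map_mul, hττ, mul_comm])
      rw [Units.coe_mul, hτu, map_mul, norm_mul, Real.log_mul (by simp) (by simp)] at h8
      rw [hw₁, hw₁', InfinitePlace.apply, InfinitePlace.apply]
      exact h8) w₁ (InfinitePlace.mk σ₂)
  simp only [hne1.symm, hne2.symm, if_true, if_false, add_zero, mul_zero] at this
  have hp := inv_pos.mpr (hmult w₁)
  rcases mul_eq_zero.mp this with h | h
  · exact hp.ne' h
  · split_ifs at h <;> norm_num at h

/-- If the conclusion fails, the determinant of two relative units vanishes. -/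
theorem det_eq_zero_of_not_injective (hd : finrank ℚ F = 2) (hKF : finrank F K = 2)
    (hH : finrank K H = 2) (p : ℕ) [Fact p.Prime] (k : Type*) [NormedField k]
    [NormedAlgebra ℚ_[p] k] [IsUltrametricDist k] (ιinf : Ω →+* ℂ) (ιp : Ω →+* k)
    (S : Set (K →+* ℂ)) (χ : (H ≃ₐ[K] H) →* kˣ) (L : IwasawaLog p k)
    (hχ : Function.Injective χ)
    (hfail : ¬ InjectiveOn (finrank K H) χ unitsHom (logSigma ιinf ιp S L))
    (τ : H ≃ₐ[K] H) (hτ : τ ≠ 1) (σ₁ σ₂ : H →+* Ω)
    (h₁ : ιinf.comp (σ₁.comp (algebraMap K H)) ∈ S)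
    (h₂ : ιinf.comp (σ₂.comp (algebraMap K H)) ∈ S)
    (h12 : (σ₁.comp (algebraMap K H)).comp (algebraMap F K) ≠
      (σ₂.comp (algebraMap K H)).comp (algebraMap F K))
    (u₁ u₂ : (𝓞 H)ˣ) (hu₁ : (u₁ : H) * τ (u₁ : H) = 1) (hu₂ : (u₂ : H) * τ (u₂ : H) = 1) :
    logUnits L (ιp.comp σ₁) (Additive.ofMul u₁) * logUnits L (ιp.comp σ₂) (Additive.ofMul u₂) -
      logUnits L (ιp.comp σ₂) (Additive.ofMul u₁) * logUnits L (ιp.comp σ₁) (Additive.ofMul u₂) =
        0 := by
  have hchar : CharZero k := charZero_of_padic p (k := k)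
  have hTC : IsTotallyComplex H := isTotallyComplex_of_algebra K H
  have h8 : finrank ℚ H = 8 := by
    rw [← finrank_mul_finrank ℚ K H, ← finrank_mul_finrank ℚ F K, hd, hKF, hH]
  by_contra hdet
  apply hfail
  have h12' : ((ιinf.comp σ₁).comp (algebraMap K H)).comp (algebraMap F K) ≠
      ((ιinf.comp σ₂).comp (algebraMap K H)).comp (algebraMap F K) := by
    intro h
    apply h12
    ext y
    apply ιinf.injective
    exact RingHom.congr_fun h y
  obtain ⟨η, hη, hηlog⟩ := exists_eta (F := F) hH τ hτ (ιinf.comp σ₁) (ιinf.comp σ₂) h12'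
  refine SigLeo.core hH (rank_eq_three H h8) τ hτ χ hχ (logSigma ιinf ιp S L)
    (logUnits L (ιp.comp σ₁)) (logUnits L (ιp.comp σ₂))
    ⟨σ₁, h₁, rfl⟩ ⟨σ₂, h₂, rfl⟩ η u₁ u₂ hη hu₁ hu₂ ?_ hdet
  intro h0
  obtain ⟨N, hN, h1⟩ := torsion_of_log_eq_zero p ιp L (img σ₁ η) (img_isUnitAlg σ₁ η) (by
    rw [log_img]; exact h0)
  exact hηlog (norm_eq_one_of_pow hN h1 ιinf)

/-- Archimedean part: if `m₀`, `m₁` are exponents such that both archimedean logarithms of
`u₁ ^ m₀ * u₂ ^ m₁` vanish, then they are zero. -/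
theorem two_by_two {a b c d m₀ m₁ : ℝ} (hdet : a * d - b * c ≠ 0)
    (h1 : m₀ * a + m₁ * c = 0) (h2 : m₀ * b + m₁ * d = 0) : m₀ = 0 ∧ m₁ = 0 := by
  constructor
  · have : m₀ * (a * d - b * c) = 0 := by linear_combination d * h1 - c * h2
    exact (mul_eq_zero.mp this).resolve_right hdet
  · have : m₁ * (a * d - b * c) = 0 := by linear_combination a * h2 - b * h1
    exact (mul_eq_zero.mp this).resolve_right hdet

theorem log_norm_zpow (ι : Ω →+* ℂ) (x : Ωˣ) (m : ℤ) :
    Real.log ‖ι ((x ^ m : Ωˣ) : Ω)‖ = m * Real.log ‖ι (x : Ω)‖ := by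
  rw [Units.val_zpow_eq_zpow_val, map_zpow₀, norm_zpow, Real.log_zpow]

theorem log_norm_mul (ι : Ω →+* ℂ) (x y : Ωˣ) :
    Real.log ‖ι ((x * y : Ωˣ) : Ω)‖ = Real.log ‖ι (x : Ω)‖ + Real.log ‖ι (y : Ω)‖ := by
  rw [Units.val_mul, map_mul, norm_mul, Real.log_mul (by simp) (by simp)]

/-- **At most one complementary pair of CM types fails.** -/
theorem half [IsAlgClosed Ω] (hd : finrank ℚ F = 2) (hKF : finrank F K = 2)
    (hH : finrank K H = 2) (hCM : ¬ IsCMField H) (p : ℕ) [Fact p.Prime] (k : Type*)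
    [NormedField k] [NormedAlgebra ℚ_[p] k] [IsUltrametricDist k] [CompleteSpace k]
    (ιinf : Ω →+* ℂ) (ιp : Ω →+* k) (S₁ S₂ : Set (K →+* ℂ)) (hS₁ : IsCMType S₁)
    (hS₂ : IsCMType S₂) (hne : S₁ ≠ S₂) (hne' : S₂ ≠ S₁ᶜ) (χ : (H ≃ₐ[K] H) →* kˣ)
    (hχ : Function.Injective χ) (L : IwasawaLog p k) :
    InjectiveOn (finrank K H) χ unitsHom (logSigma ιinf ιp S₁ L) ∨
      InjectiveOn (finrank K H) χ unitsHom (logSigma ιinf ιp S₂ L) := by
  have hchar : CharZero k := charZero_of_padic p (k := k)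
  obtain ⟨τ, hτ⟩ := exists_gal hH
  have hττ := tau_mul_tau hH τ hτ
  by_contra hcon
  push Not at hcon
  obtain ⟨hf1, hf2⟩ := hcon
  -- the embeddings
  obtain ⟨φ, hφ1, hφ2⟩ : ∃ φ, φ ∈ S₁ ∧ ComplexEmbedding.conjugate φ ∈ S₂ := by
    by_contra hall
    push Not at hall
    apply hne
    ext φ
    constructor
    · intro h1
      exact (hS₂ φ).mpr (hall φ h1)
    · intro h2
      by_contra h1
      have h3 : ComplexEmbedding.conjugate φ ∈ S₁ := by
        by_contra h4
        exact h1 ((hS₁ φ).mpr h4)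
      have h5 := hall _ h3
      rw [ComplexEmbedding.involutive_conjugate] at h5
      exact h5 h2
  obtain ⟨ψ, hψ1, hψ2⟩ : ∃ ψ, ψ ∈ S₁ ∧ ψ ∈ S₂ := by
    by_contra hall
    push Not at hall
    apply hne'
    ext ψ
    rw [Set.mem_compl_iff]
    constructor
    · intro h2 h1
      exact hall ψ h1 h2
    · intro h1
      have h3 : ComplexEmbedding.conjugate ψ ∈ S₁ := by
        by_contra h4
        exact h1 ((hS₁ ψ).mpr h4)
      exact (hS₂ ψ).mpr (hall _ h3)
  have hφψ : φ.comp (algebraMap F K) ≠ ψ.comp (algebraMap F K) := by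
    intro h
    rcases eq_or_eq_conjugate hKF φ ψ h with h1 | h1
    · rw [h1] at hψ2
      exact (hS₂ φ).mp hψ2 hφ2
    · rw [h1] at hψ1
      exact (hS₁ φ).mp hφ1 hψ1
  obtain ⟨κ₁, hκ₁⟩ := exists_lift_embedding ιinf φ
  obtain ⟨κ₂, hκ₂⟩ := exists_lift_embedding ιinf ψ
  have hfd : FiniteDimensional K H := FiniteDimensional.of_finrank_pos (by omega)
  obtain ⟨σ₁, hσ₁⟩ := exists_extend_embedding (H := H) κ₁
  obtain ⟨σ₂, hσ₂⟩ := exists_extend_embedding (H := H) κ₂
  obtain ⟨σ₁', hσ₁'⟩ := exists_lift_embedding ιinf (ComplexEmbedding.conjugate (ιinf.comp σ₁))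
  have hr1 : ιinf.comp (σ₁.comp (algebraMap K H)) = φ := by rw [hσ₁, hκ₁]
  have hr2 : ιinf.comp (σ₂.comp (algebraMap K H)) = ψ := by rw [hσ₂, hκ₂]
  have hr1' : ιinf.comp (σ₁'.comp (algebraMap K H)) = ComplexEmbedding.conjugate φ := by
    rw [← RingHom.comp_assoc, hσ₁', ← hr1, ← RingHom.comp_assoc,
      ComplexEmbedding.conjugate_comp]
  have hF12 : (σ₁.comp (algebraMap K H)).comp (algebraMap F K) ≠
      (σ₂.comp (algebraMap K H)).comp (algebraMap F K) := by
    intro h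
    apply hφψ
    rw [← hr1, ← hr2]
    exact congrArg (fun f ↦ ιinf.comp f) h
  have hF12' : (σ₁'.comp (algebraMap K H)).comp (algebraMap F K) ≠
      (σ₂.comp (algebraMap K H)).comp (algebraMap F K) := by
    intro h
    apply hφψ
    have h3 : (ιinf.comp (σ₁'.comp (algebraMap K H))).comp (algebraMap F K) =
        (ιinf.comp (σ₂.comp (algebraMap K H))).comp (algebraMap F K) :=
      congrArg (fun f ↦ ιinf.comp f) h
    rw [hr1', hr2, ComplexEmbedding.conjugate_comp, conjugate_real] at h3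
    exact h3
  have hC12 : ((ιinf.comp σ₁).comp (algebraMap K H)).comp (algebraMap F K) ≠
      ((ιinf.comp σ₂).comp (algebraMap K H)).comp (algebraMap F K) := by
    intro h
    apply hφψ
    rw [← hr1, ← hr2]
    exact h
  have hτres : ∀ σ : H →+* ℂ,
      ((σ.comp (τ : H →+* H)).comp (algebraMap K H)).comp (algebraMap F K) =
        (σ.comp (algebraMap K H)).comp (algebraMap F K) := by
    intro σ
    ext y
    show σ (τ (algebraMap K H (algebraMap F K y))) = σ (algebraMap K H (algebraMap F K y))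
    rw [AlgEquiv.commutes]
  -- the relative units
  obtain ⟨u₁, u₂, hu₁, hu₂, hdet⟩ := exists_arch_det τ hττ (ιinf.comp σ₁) (ιinf.comp σ₂)
    (mk_ne_comp τ hτ _) (mk_ne_comp τ hτ _) (mk_ne_of_restrict_ne _ _ hC12)
    (mk_ne_of_restrict_ne (F := F) (K := K) _ _ (by rw [hτres]; exact hC12))
    (mk_ne_of_restrict_ne (F := F) (K := K) _ _ (by rw [hτres]; exact hC12))
    (mk_ne_of_restrict_ne (F := F) (K := K) _ _ (by rw [hτres, hτres]; exact hC12))
  -- the vanishing determinants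
  have hd1 := det_eq_zero_of_not_injective (F := F) hd hKF hH p k ιinf ιp S₁ χ L hχ hf1 τ hτ
    σ₁ σ₂ (by rw [hr1]; exact hφ1) (by rw [hr2]; exact hψ1) hF12 u₁ u₂ hu₁ hu₂
  have hd2 := det_eq_zero_of_not_injective (F := F) hd hKF hH p k ιinf ιp S₂ χ L hχ hf2 τ hτ
    σ₁' σ₂ (by rw [hr1']; exact hφ2) (by rw [hr2]; exact hψ2) hF12' u₁ u₂ hu₁ hu₂
  have hlogne : ∀ (σ : H →+* Ω) (u : (𝓞 H)ˣ), logUnits L (ιp.comp σ) (Additive.ofMul u) = 0 →
      ∃ N : ℕ, 0 < N ∧ u ^ N = 1 := by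
    intro σ u h
    obtain ⟨N, hN, h1⟩ := torsion_of_log_eq_zero p ιp L (img σ u) (img_isUnitAlg σ u) (by
      rw [log_img]; exact h)
    refine ⟨N, hN, ?_⟩
    have h2 : img σ (u ^ N) = 1 := by rw [← h1]; unfold img; rw [map_pow]
    have h3 : σ ((u ^ N : (𝓞 H)ˣ) : H) = 1 := by rw [← img_coe, h2, Units.val_one]
    apply Units.coe_injective
    apply σ.injective
    rw [h3]
    exact (map_one σ).symm
  have hA2 : logUnits L (ιp.comp σ₂) (Additive.ofMul u₁) ≠ 0 := by
    intro h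
    obtain ⟨N, hN, h1⟩ := hlogne σ₂ u₁ h
    have h2 : ∀ σ : H →+* Ω, Real.log ‖(ιinf.comp σ) (u₁ : H)‖ = 0 := by
      intro σ
      apply norm_eq_one_of_pow hN (x := img σ u₁) (ι := ιinf)
      unfold img
      rw [← map_pow, h1, map_one]
    apply hdet
    rw [h2, h2]; ring
  -- six exponentials
  have hrank01 : logUnits L (ιp.comp σ₁) (Additive.ofMul u₁) *
      logUnits L (ιp.comp σ₁') (Additive.ofMul u₂) =
      logUnits L (ιp.comp σ₁') (Additive.ofMul u₁) *
        logUnits L (ιp.comp σ₁) (Additive.ofMul u₂) := by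
    apply mul_left_cancel₀ hA2
    linear_combination (logUnits L (ιp.comp σ₁') (Additive.ofMul u₁)) * hd1 -
      (logUnits L (ιp.comp σ₁) (Additive.ofMul u₁)) * hd2
  rcases sixExp_units p ιp L (fun i j ↦ img (![σ₁, σ₁', σ₂] j) (![u₁, u₂] i))
    (fun i j ↦ img_isUnitAlg _ _) (by
      intro j j'
      simp only [log_img]
      fin_cases j <;> fin_cases j' <;>
        simp only [Fin.zero_eta, Fin.mk_one, Fin.reduceFinMk, Fin.isValue, Matrix.cons_val_zero,
          Matrix.cons_val_one, Matrix.cons_val]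
      · linear_combination hrank01
      · linear_combination hd1
      · linear_combination -hrank01
      · linear_combination hd2
      · linear_combination -hd1
      · linear_combination -hd2) with ⟨m, hm0, hm⟩ | ⟨n, hn0, hn⟩
  · apply hm0
    have key : ∀ (j : Fin 3), (m 0 : ℝ) * Real.log ‖(ιinf.comp (![σ₁, σ₁', σ₂] j)) (u₁ : H)‖ +
        (m 1 : ℝ) * Real.log ‖(ιinf.comp (![σ₁, σ₁', σ₂] j)) (u₂ : H)‖ = 0 := by
      intro j
      obtain ⟨N, hN, h1⟩ := hm j
      have h2 := norm_eq_one_of_pow hN h1 ιinf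
      rw [Fin.prod_univ_two, log_norm_mul, log_norm_zpow, log_norm_zpow] at h2
      exact h2
    obtain ⟨h1, h2⟩ := two_by_two hdet (key 0) (key 2)
    ext i
    fin_cases i
    · exact_mod_cast h1
    · exact_mod_cast h2
  · have hconj : ∀ u : (𝓞 H)ˣ, Real.log ‖ιinf (img σ₁' u : Ω)‖ =
        Real.log ‖ιinf (img σ₁ u : Ω)‖ := by
      intro u
      have h1 : ιinf (img σ₁' u : Ω) = star (ιinf (img σ₁ u : Ω)) :=
        RingHom.congr_fun hσ₁' (u : H)
      rw [h1, norm_star]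
    have key : ∀ (i : Fin 2), ((n 0 : ℝ) + n 1) *
        Real.log ‖(ιinf.comp σ₁) ((![u₁, u₂] i : (𝓞 H)ˣ) : H)‖ +
        (n 2 : ℝ) * Real.log ‖(ιinf.comp σ₂) ((![u₁, u₂] i : (𝓞 H)ˣ) : H)‖ = 0 := by
      intro i
      obtain ⟨N, hN, h1⟩ := hn i
      have h2 := norm_eq_one_of_pow hN h1 ιinf
      rw [Fin.prod_univ_three, log_norm_mul, log_norm_mul, log_norm_zpow, log_norm_zpow,
        log_norm_zpow] at h2
      simp only [Matrix.cons_val_zero, Matrix.cons_val_one, Matrix.cons_val] at h2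
      rw [hconj] at h2
      have h3 : ∀ (σ : H →+* Ω) (u : (𝓞 H)ˣ), (ιinf.comp σ) (u : H) = ιinf (img σ u : Ω) :=
        fun σ u ↦ rfl
      rw [h3, h3]
      linear_combination h2
    obtain ⟨h1, h2⟩ := two_by_two (a := Real.log ‖(ιinf.comp σ₁) (u₁ : H)‖)
      (b := Real.log ‖(ιinf.comp σ₁) (u₂ : H)‖) (c := Real.log ‖(ιinf.comp σ₂) (u₁ : H)‖)
      (d := Real.log ‖(ιinf.comp σ₂) (u₂ : H)‖) (m₀ := (n 0 : ℝ) + n 1) (m₁ := (n 2 : ℝ))
      (by intro h; apply hdet; linear_combination h) (key 0) (key 1)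
    have hn2 : n 2 = 0 := by exact_mod_cast h2
    have hn1 : n 1 = -n 0 := by
      have : n 0 + n 1 = 0 := by exact_mod_cast h1
      omega
    have hn0' : n 0 ≠ 0 := by
      intro h
      apply hn0
      ext i
      fin_cases i
      · exact h
      · rw [show ((⟨1, by omega⟩ : Fin 3)) = 1 from rfl, hn1, h]; rfl
      · exact hn2
    -- a unit which is real under `σ₁`
    have hreal : ∀ i : Fin 2, ∃ M : ℕ, 0 < M ∧
        star ((ιinf.comp σ₁) (((![u₁, u₂] i) ^ M : (𝓞 H)ˣ) : H)) =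
          (ιinf.comp σ₁) (((![u₁, u₂] i) ^ M : (𝓞 H)ˣ) : H) := by
      intro i
      obtain ⟨N, hN, h1⟩ := hn i
      rw [Fin.prod_univ_three] at h1
      simp only [Matrix.cons_val_zero, Matrix.cons_val_one, Matrix.cons_val] at h1
      rw [hn1, hn2, zpow_zero, mul_one, zpow_neg, ← div_eq_mul_inv, ← div_zpow,
        ← zpow_natCast, ← zpow_mul] at h1
      have h2 : (img σ₁ (![u₁, u₂] i) / img σ₁' (![u₁, u₂] i)) ^ (n 0 * N).natAbs = 1 := by
        rcases Int.natAbs_eq (n 0 * N) with h3 | h3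
        · rw [← zpow_natCast, ← h3]; exact h1
        · rw [← zpow_natCast]
          have h4 : (((n 0 * N).natAbs : ℕ) : ℤ) = -(n 0 * N) := by omega
          rw [h4, zpow_neg, h1, inv_one]
      refine ⟨(n 0 * N).natAbs, ?_, ?_⟩
      · apply Int.natAbs_pos.mpr
        have : (N : ℤ) ≠ 0 := by exact_mod_cast hN.ne'
        exact mul_ne_zero hn0' this
      · rw [div_pow, div_eq_one] at h2
        have h5 : img σ₁ ((![u₁, u₂] i) ^ (n 0 * N).natAbs) =
            img σ₁' ((![u₁, u₂] i) ^ (n 0 * N).natAbs) := by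
          unfold img at h2 ⊢
          rw [map_pow, map_pow]; exact h2
        have h6 := congrArg (fun z : Ωˣ ↦ ιinf (z : Ω)) h5
        have h7 : ιinf (img σ₁' ((![u₁, u₂] i) ^ (n 0 * N).natAbs) : Ω) =
            star ((ιinf.comp σ₁) (((![u₁, u₂] i) ^ (n 0 * N).natAbs : (𝓞 H)ˣ) : H)) :=
          RingHom.congr_fun hσ₁' _
        rw [← h7]
        exact h6.symm
    -- choose the unit which is not of absolute value `1` at the second place
    obtain ⟨i, hi⟩ : ∃ i : Fin 2, Real.log ‖(ιinf.comp σ₂) ((![u₁, u₂] i : (𝓞 H)ˣ) : H)‖ ≠ 0 := by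
      by_contra hall
      push Not at hall
      have e0 := hall 0
      have e1 := hall 1
      simp only [Matrix.cons_val_zero, Matrix.cons_val_one] at e0 e1
      apply hdet
      rw [e0, e1]; ring
    obtain ⟨M, hM, hMreal⟩ := hreal i
    apply hCM
    have hui : ((![u₁, u₂] i : (𝓞 H)ˣ) : H) * τ ((![u₁, u₂] i : (𝓞 H)ˣ) : H) = 1 := by
      fin_cases i
      · exact hu₁
      · exact hu₂
    refine isCMField_of_unit (F := F) (K := K) hd hKF hH τ hτ (ιinf.comp σ₁) (ιinf.comp σ₂) hC12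
      (((![u₁, u₂] i) ^ M : (𝓞 H)ˣ) : H) ?_ hMreal ?_
    · rw [Units.coe_pow, map_pow, ← mul_pow, hui, one_pow]
    · intro h
      rw [Units.coe_pow, map_pow, norm_pow] at h
      have h2 := (pow_eq_one_iff_of_nonneg (norm_nonneg _) hM.ne').mp h
      apply hi
      rw [h2, Real.log_one]

end

end Pool.Agent.Helper51.SixExp
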