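import Pool.Agent.Helper51.SixExp.AtMostOne

/-!
# A fixed quadratic extension of mixed signature: at most one CM field fails (subfields of `F̄`)
-/

set_option linter.unusedSectionVars false

namespace Pool.Agent.Helper51.SixExp

open Pool.Agent.Helper51.SigLeo NumberField Module

variable {F : Type*} [Field F] [NumberField F] [IsTotallyReal F]

theorem numberField_of_finrank {Ω : Type*} [Field Ω] [Algebra F Ω] (K : IntermediateField F Ω)
    (h : finrank F K = 2) : NumberField K := by
  have : FiniteDimensional F K := FiniteDimensional.of_finrank_pos (by omega)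
  exact NumberField.of_module_finite F K

theorem exists_real_of_not {E : Type*} [Field E] [NumberField E] (h : ¬ IsTotallyComplex E) :
    ∃ ψ : E →+* ℂ, ComplexEmbedding.conjugate ψ = ψ := by
  by_contra hcon
  push Not at hcon
  apply h
  refine ⟨fun v ↦ ?_⟩
  rw [← InfinitePlace.not_isReal_iff_isComplex]
  intro hv
  exact hcon _ (InfinitePlace.isReal_iff.mp hv)

theorem exists_complex_of_not {E : Type*} [Field E] [NumberField E] (h : ¬ IsTotallyReal E) :
    ∃ ψ : E →+* ℂ, ComplexEmbedding.conjugate ψ ≠ ψ := by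
  by_contra hcon
  push Not at hcon
  apply h
  refine ⟨fun v ↦ ?_⟩
  rw [InfinitePlace.isReal_iff]
  exact hcon _

section

variable {Ω : Type*} [Field Ω] [Algebra F Ω] (E K : IntermediateField F Ω)

/-- The compositum `KE` as an extension of `K`. -/
noncomputable def incl : E →+* IntermediateField.adjoin K (E : Set Ω) where
  toFun e := ⟨(e : Ω), IntermediateField.subset_adjoin K _ e.2⟩
  map_one' := rfl
  map_mul' _ _ := rfl
  map_zero' := rfl
  map_add' _ _ := rfl

theorem incl_coe (e : E) : ((incl E K e : IntermediateField.adjoin K (E : Set Ω)) : Ω) = e := rfl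

theorem finrank_compositum (hE : finrank F E = 2) (hK : finrank F K = 2) (hne : E ≠ K) :
    finrank K (IntermediateField.adjoin K (E : Set Ω)) = 2 := by
  have : FiniteDimensional F K := FiniteDimensional.of_finrank_pos (by omega)
  have : FiniteDimensional F E := FiniteDimensional.of_finrank_pos (by omega)
  obtain ⟨ε, D, hε, hε2⟩ := exists_sqrt hE
  have hεK : (ε : Ω) ∉ (algebraMap K Ω).range := by
    rintro ⟨y, hy⟩
    apply hne
    apply IntermediateField.eq_of_le_of_finrank_eq
    · intro x hx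
      obtain ⟨a, b, hab⟩ := exists_coords hE hε (⟨x, hx⟩ : E)
      have h1 : x = algebraMap F Ω a + algebraMap F Ω b * (ε : Ω) :=
        congrArg (fun z : E ↦ (z : Ω)) hab
      rw [h1, ← hy]
      exact K.add_mem (K.algebraMap_mem a) (K.mul_mem (K.algebraMap_mem b) y.2)
    · rw [hE, hK]
  have hadj : IntermediateField.adjoin K (E : Set Ω) = IntermediateField.adjoin K {(ε : Ω)} := by
    apply le_antisymm
    · rw [IntermediateField.adjoin_le_iff]
      intro x hx
      obtain ⟨a, b, hab⟩ := exists_coords hE hε (⟨x, hx⟩ : E)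
      have h1 : x = algebraMap F Ω a + algebraMap F Ω b * (ε : Ω) :=
        congrArg (fun z : E ↦ (z : Ω)) hab
      rw [h1]
      have h2 : ∀ c : F, algebraMap F Ω c ∈ IntermediateField.adjoin K {(ε : Ω)} := fun c ↦ by
        have := (IntermediateField.adjoin K {(ε : Ω)}).algebraMap_mem (algebraMap F K c)
        rwa [← IsScalarTower.algebraMap_apply F K Ω c] at this
      exact add_mem (h2 a) (mul_mem (h2 b)
        (IntermediateField.subset_adjoin K _ (Set.mem_singleton _)))
    · rw [IntermediateField.adjoin_le_iff]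
      rintro x rfl
      exact IntermediateField.subset_adjoin K _ ε.2
  rw [hadj]
  refine finrank_adjoin_sqrt (d := algebraMap F K D) ?_ hεK
  rw [← IsScalarTower.algebraMap_apply F K Ω D]
  exact congrArg (fun z : E ↦ (z : Ω)) hε2

end

/-- Two different quadratic extensions have only the squares of the base in common. -/
theorem dist_of_ne {Ω : Type*} [Field Ω] [Algebra F Ω] {K₁ K₂ : IntermediateField F Ω}
    (hK₁ : finrank F K₁ = 2) (hK₂ : finrank F K₂ = 2) (hne : K₁ ≠ K₂) (d : F)
    (h₁ : ∃ y : K₁, y ^ 2 = algebraMap F K₁ d) (h₂ : ∃ y : K₂, y ^ 2 = algebraMap F K₂ d) :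
    ∃ z : F, z ^ 2 = d := by
  obtain ⟨y₁, hy₁⟩ := h₁
  obtain ⟨y₂, hy₂⟩ := h₂
  by_contra hcon
  push Not at hcon
  have hF₁ : y₁ ∉ (algebraMap F K₁).range := by
    rintro ⟨a, rfl⟩
    apply hcon a
    rw [← map_pow] at hy₁
    exact (algebraMap F K₁).injective hy₁
  have : FiniteDimensional F K₁ := FiniteDimensional.of_finrank_pos (by omega)
  have : FiniteDimensional F K₂ := FiniteDimensional.of_finrank_pos (by omega)
  have hsq : (y₁ : Ω) ^ 2 = (y₂ : Ω) ^ 2 := by
    have e1 : (y₁ : Ω) ^ 2 = algebraMap F Ω d := congrArg (fun z : K₁ ↦ (z : Ω)) hy₁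
    have e2 : (y₂ : Ω) ^ 2 = algebraMap F Ω d := congrArg (fun z : K₂ ↦ (z : Ω)) hy₂
    rw [e1, e2]
  have hmem : (y₁ : Ω) ∈ K₂ := by
    rcases sq_eq_sq_iff_eq_or_eq_neg.mp hsq with h | h
    · rw [h]; exact y₂.2
    · rw [h]; exact K₂.neg_mem y₂.2
  apply hne
  apply IntermediateField.eq_of_le_of_finrank_eq
  · intro x hx
    obtain ⟨a, b, hab⟩ := exists_coords hK₁ hF₁ (⟨x, hx⟩ : K₁)
    have h1 : x = algebraMap F Ω a + algebraMap F Ω b * (y₁ : Ω) :=
      congrArg (fun z : K₁ ↦ (z : Ω)) hab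
    rw [h1]
    exact K₂.add_mem (K₂.algebraMap_mem a) (K₂.mul_mem (K₂.algebraMap_mem b) hmem)
  · rw [hK₁, hK₂]

/-- **At most one CM field fails**, in a fixed algebraic closure. -/
theorem subsingleton_fail (hd : finrank ℚ F = 2) {Ω : Type*} [Field Ω] [CharZero Ω]
    [IsAlgClosed Ω] [Algebra F Ω]
    (E : IntermediateField F Ω) (hE : finrank F E = 2) (hr : ¬ IsTotallyReal E)
    (hc : ¬ IsTotallyComplex E) (p : ℕ) [Fact p.Prime] (k : Type*) [NormedField k]
    [NormedAlgebra ℚ_[p] k] [IsUltrametricDist k] [CompleteSpace k] [IsAlgClosed k] :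
    {K : IntermediateField F Ω | finrank F K = 2 ∧ IsTotallyComplex K ∧
      ¬ SigmaLeopoldt K (IntermediateField.adjoin K (E : Set Ω)) Ω p k}.Subsingleton := by
  rintro K₁ ⟨hK₁, hTC₁, hf₁⟩ K₂ ⟨hK₂, hTC₂, hf₂⟩
  by_contra hne
  have hNFE : NumberField E := numberField_of_finrank E hE
  have hNF₁ : NumberField K₁ := numberField_of_finrank K₁ hK₁
  have hNF₂ : NumberField K₂ := numberField_of_finrank K₂ hK₂
  have hne₁ : E ≠ K₁ := by
    rintro rfl
    exact hc hTC₁
  have hne₂ : E ≠ K₂ := by
    rintro rfl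
    exact hc hTC₂
  have hH₁ := finrank_compositum E K₁ hE hK₁ hne₁
  have hH₂ := finrank_compositum E K₂ hE hK₂ hne₂
  have hfd₁ : FiniteDimensional K₁ (IntermediateField.adjoin K₁ (E : Set Ω)) :=
    FiniteDimensional.of_finrank_pos (by omega)
  have hfd₂ : FiniteDimensional K₂ (IntermediateField.adjoin K₂ (E : Set Ω)) :=
    FiniteDimensional.of_finrank_pos (by omega)
  have hNFH₁ : NumberField (IntermediateField.adjoin K₁ (E : Set Ω)) :=
    NumberField.of_module_finite K₁ _
  have hNFH₂ : NumberField (IntermediateField.adjoin K₂ (E : Set Ω)) :=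
    NumberField.of_module_finite K₂ _
  rcases atMostOne (F := F) (E := E) (K₁ := K₁) (K₂ := K₂)
    (H₁ := IntermediateField.adjoin K₁ (E : Set Ω))
    (H₂ := IntermediateField.adjoin K₂ (E : Set Ω)) (Ω := Ω) hd hE (exists_real_of_not hc)
    (exists_complex_of_not hr) hK₁ hK₂ hH₁ hH₂ (dist_of_ne hK₁ hK₂ hne) (incl E K₁) (incl E K₂)
    (fun a ↦ rfl) (fun a ↦ rfl) p k with h | h
  · exact hf₁ h
  · exact hf₂ h

end Pool.Agent.Helper51.SixExp
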