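import Pool.Agent.Helper51.SixExp.Arch
import Pool.Agent.Helper51.SigLeo.Quad
import Pool.Agent.Helper51.SigLeo.Bridge

/-!
# Embeddings of relative quadratic extensions, and a criterion for CM fields
-/

set_option linter.unusedSectionVars false

namespace Pool.Agent.Helper51.SixExp

open Pool.Agent.Helper51.SigLeo NumberField Module

section

variable {F K : Type*} [Field F] [Field K] [Algebra F K]

theorem ringHom_ext_quad {A : Type*} [Field A] (hKF : finrank F K = 2) {θ : K}
    (hθ : θ ∉ (algebraMap F K).range) {f g : K →+* A}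
    (h1 : f.comp (algebraMap F K) = g.comp (algebraMap F K)) (h2 : f θ = g θ) : f = g := by
  ext y
  obtain ⟨a, b, rfl⟩ := exists_coords hKF hθ y
  have h3 : ∀ x : F, f (algebraMap F K x) = g (algebraMap F K x) := fun x ↦
    RingHom.congr_fun h1 x
  rw [map_add, map_mul, map_add, map_mul, h3, h3, h2]

theorem conjugate_real [NumberField F] [IsTotallyReal F] (s : F →+* ℂ) :
    ComplexEmbedding.conjugate s = s :=
  ComplexEmbedding.isReal_iff.mp (IsTotallyReal.complexEmbedding_isReal s)

theorem conjugate_ne [NumberField K] [IsTotallyComplex K] (φ : K →+* ℂ) :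
    ComplexEmbedding.conjugate φ ≠ φ := fun h ↦
  IsTotallyComplex.complexEmbedding_not_isReal φ (ComplexEmbedding.isReal_iff.mpr h)

theorem conjugate_theta [NumberField F] [IsTotallyReal F] [NumberField K] [IsTotallyComplex K]
    (hKF : finrank F K = 2) {θ : K} {d : F} (hθ : θ ∉ (algebraMap F K).range)
    (hθ2 : θ ^ 2 = algebraMap F K d) (φ : K →+* ℂ) :
    ComplexEmbedding.conjugate φ θ = -φ θ := by
  have hres : (ComplexEmbedding.conjugate φ).comp (algebraMap F K) =
      φ.comp (algebraMap F K) := by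
    rw [ComplexEmbedding.conjugate_comp, conjugate_real]
  have h1 : (ComplexEmbedding.conjugate φ θ) ^ 2 = (φ θ) ^ 2 := by
    rw [← map_pow, ← map_pow, hθ2]
    exact RingHom.congr_fun hres d
  rcases sq_eq_sq_iff_eq_or_eq_neg.mp h1 with h | h
  · exact absurd (ringHom_ext_quad hKF hθ hres h) (conjugate_ne φ)
  · exact h

/-- Two embeddings of `K` with the same restriction to `F` are equal or conjugate. -/
theorem eq_or_eq_conjugate [NumberField F] [IsTotallyReal F] [NumberField K]
    [IsTotallyComplex K] (hKF : finrank F K = 2) (φ ψ : K →+* ℂ)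
    (h : φ.comp (algebraMap F K) = ψ.comp (algebraMap F K)) :
    ψ = φ ∨ ψ = ComplexEmbedding.conjugate φ := by
  obtain ⟨θ, d, hθ, hθ2⟩ := exists_sqrt hKF
  have h1 : (ψ θ) ^ 2 = (φ θ) ^ 2 := by
    rw [← map_pow, ← map_pow, hθ2]
    exact (RingHom.congr_fun h d).symm
  rcases sq_eq_sq_iff_eq_or_eq_neg.mp h1 with h2 | h2
  · exact Or.inl (ringHom_ext_quad hKF hθ h.symm h2)
  · right
    refine ringHom_ext_quad hKF hθ ?_ ?_
    · rw [ComplexEmbedding.conjugate_comp, conjugate_real, h]
    · rw [h2, conjugate_theta hKF hθ hθ2]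

/-- A real element of `K` is in `F`. -/
theorem mem_base_of_real [NumberField F] [IsTotallyReal F] [NumberField K]
    [IsTotallyComplex K] (hKF : finrank F K = 2) (φ : K →+* ℂ) (t : K)
    (h : ComplexEmbedding.conjugate φ t = φ t) : ∃ a : F, t = algebraMap F K a := by
  obtain ⟨θ, d, hθ, hθ2⟩ := exists_sqrt hKF
  obtain ⟨a, b, rfl⟩ := exists_coords hKF hθ t
  refine ⟨a, ?_⟩
  have hres : ∀ x : F, ComplexEmbedding.conjugate φ (algebraMap F K x) =
      φ (algebraMap F K x) := fun x ↦ by
    have h3 : (ComplexEmbedding.conjugate φ).comp (algebraMap F K) =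
        φ.comp (algebraMap F K) := by
      rw [ComplexEmbedding.conjugate_comp, conjugate_real]
    exact RingHom.congr_fun h3 x
  rw [map_add, map_mul, map_add, map_mul, hres, hres, conjugate_theta hKF hθ hθ2] at h
  have h2 : φ (algebraMap F K b * θ) = 0 := by
    rw [map_mul]; linear_combination (-1 / 2 : ℂ) * h
  have h3 := (map_eq_zero φ).mp h2
  rw [h3, add_zero]

end

section

variable {F K H : Type*} [Field F] [NumberField F] [IsTotallyReal F] [Field K] [NumberField K]
  [IsTotallyComplex K] [Algebra F K] [Field H] [NumberField H] [Algebra K H]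

theorem mk_ne_of_restrict_ne (σ σ' : H →+* ℂ)
    (h : (σ.comp (algebraMap K H)).comp (algebraMap F K) ≠
      (σ'.comp (algebraMap K H)).comp (algebraMap F K)) :
    InfinitePlace.mk σ ≠ InfinitePlace.mk σ' := by
  intro heq
  rcases InfinitePlace.mk_eq_iff.mp heq with h1 | h1
  · exact h (by rw [h1])
  · apply h
    rw [← h1, ComplexEmbedding.conjugate_comp, ComplexEmbedding.conjugate_comp, conjugate_real]

theorem mk_ne_comp (τ : H ≃ₐ[K] H) (hτ : τ ≠ 1) (σ : H →+* ℂ) :
    InfinitePlace.mk σ ≠ InfinitePlace.mk (σ.comp (τ : H →+* H)) := by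
  intro heq
  rcases InfinitePlace.mk_eq_iff.mp heq with h1 | h1
  · apply hτ
    ext y
    apply σ.injective
    exact (RingHom.congr_fun h1 y).symm
  · apply conjugate_ne (σ.comp (algebraMap K H))
    rw [← ComplexEmbedding.conjugate_comp, h1]
    ext y
    show σ (τ (algebraMap K H y)) = σ (algebraMap K H y)
    rw [AlgEquiv.commutes]

/-- **Criterion for CM fields**: `H/K` quadratic, `K/F` quadratic totally complex over totally
real; if there is a totally real element of `H` outside `K`, then `H` is CM. -/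
theorem isCMField_of_real (hKF : finrank F K = 2) (hH : finrank K H = 2) (v : H)
    (hv : ∀ φ : H →+* ℂ, star (φ v) = φ v) (hvK : v ∉ (algebraMap K H).range) :
    IsCMField H := by
  have hTC : IsTotallyComplex H := isTotallyComplex_of_algebra K H
  set M := maximalRealSubfield H with hM
  have hmemM : ∀ x : H, x ∈ M ↔ ∀ φ : H →+* ℂ, star (φ x) = φ x := fun x ↦ Iff.rfl
  have hvM : v ∈ M := (hmemM v).mpr hv
  have hFM : ∀ a : F, algebraMap K H (algebraMap F K a) ∈ M := by
    intro a
    rw [hmemM]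
    intro φ
    have := RingHom.congr_fun (conjugate_real ((φ.comp (algebraMap K H)).comp (algebraMap F K))) a
    exact this
  obtain ⟨θ, hθ⟩ := exists_not_mem hKF
  have hspan : Submodule.span M (Set.range ![(1 : H), algebraMap K H θ]) = ⊤ := by
    rw [eq_top_iff]
    rintro x -
    obtain ⟨y, z, rfl⟩ := exists_coords hH hvK x
    obtain ⟨a, b, rfl⟩ := exists_coords hKF hθ y
    obtain ⟨c, d, rfl⟩ := exists_coords hKF hθ z
    have h1 : (1 : H) ∈ Submodule.span M (Set.range ![(1 : H), algebraMap K H θ]) :=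
      Submodule.subset_span ⟨0, rfl⟩
    have h2 : algebraMap K H θ ∈ Submodule.span M (Set.range ![(1 : H), algebraMap K H θ]) :=
      Submodule.subset_span ⟨1, rfl⟩
    have h3 := Submodule.smul_mem _ (⟨_, M.add_mem (hFM a) (M.mul_mem (hFM c) hvM)⟩ : M) h1
    have h4 := Submodule.smul_mem _ (⟨_, M.add_mem (hFM b) (M.mul_mem (hFM d) hvM)⟩ : M) h2
    have h5 := Submodule.add_mem _ h3 h4
    convert h5 using 1
    simp only [Subfield.smul_def, smul_eq_mul, map_add, map_mul]
    ring
  have hfd : FiniteDimensional M H := ⟨⟨(Set.finite_range _).toFinset, by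
    rw [Set.Finite.coe_toFinset]; exact hspan⟩⟩
  have hle : finrank M H ≤ 2 := by
    have := finrank_le_of_span_eq_top hspan
    simpa using this
  have hpos : 0 < finrank M H := finrank_pos
  have hne : finrank M H ≠ 1 := by
    intro h1
    obtain ⟨φ⟩ : Nonempty (H →+* ℂ) := inferInstance
    have hbij := Algebra.finrank_eq_one_iff_bijective_algebraMap.mp h1
    apply conjugate_ne φ
    ext x
    obtain ⟨⟨y, hy⟩, rfl⟩ := hbij.2 x
    exact (hmemM y).mp hy φ
  exact { to_isTotallyComplex := hTC, is_quadratic := ⟨by rw [← hM]; omega⟩ }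

/-- A quadratic number field has at most two complex embeddings. -/
theorem eq_or_eq_of_quadratic (hd : finrank ℚ F = 2) {s₁ s₂ : F →+* ℂ} (h : s₁ ≠ s₂)
    (s : F →+* ℂ) : s = s₁ ∨ s = s₂ := by
  classical
  have h1 : ({s₁, s₂} : Finset (F →+* ℂ)) = Finset.univ := by
    apply Finset.eq_univ_of_card
    rw [Finset.card_pair h, NumberField.Embeddings.card, hd]
  have h2 := Finset.mem_univ s
  rw [← h1] at h2
  simpa using h2

/-- The key step: a relative unit which is real at one place of `F` and not of absolute value `1`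
at the other one forces `H` to be a CM field. -/
theorem isCMField_of_unit (hd : finrank ℚ F = 2) (hKF : finrank F K = 2) (hH : finrank K H = 2)
    (τ : H ≃ₐ[K] H) (hτ : τ ≠ 1) (σ₁ σ₂ : H →+* ℂ)
    (h12 : (σ₁.comp (algebraMap K H)).comp (algebraMap F K) ≠
      (σ₂.comp (algebraMap K H)).comp (algebraMap F K)) (v : H) (hv : v * τ v = 1)
    (hv1 : star (σ₁ v) = σ₁ v) (hv2 : ‖σ₂ v‖ ≠ 1) : IsCMField H := by
  have hττ : ∀ z, τ (τ z) = z := fun z ↦ by
    have := AlgEquiv.congr_fun (tau_mul_tau hH τ hτ) z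
    simpa using this
  have hv0 : v ≠ 0 := left_ne_zero_of_mul_eq_one hv
  have hτv : τ v = v⁻¹ := eq_inv_of_mul_eq_one_right hv
  -- the trace is in `K`
  obtain ⟨w, e, hw, hw2⟩ := exists_sqrt hH
  have hτw := gal_apply_sqrt hH hw2 hw τ hτ
  obtain ⟨t, ht⟩ : ∃ t : K, v + τ v = algebraMap K H t := by
    obtain ⟨x, y, hxy⟩ := exists_coords hH hw v
    refine ⟨2 * x, ?_⟩
    rw [hxy, map_add, map_mul, AlgEquiv.commutes, AlgEquiv.commutes, hτw, map_mul, map_ofNat]
    ring
  -- the trace is real
  obtain ⟨a, rfl⟩ := mem_base_of_real (F := F) hKF (σ₁.comp (algebraMap K H)) t (by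
    show star (σ₁ (algebraMap K H t)) = σ₁ (algebraMap K H t)
    rw [← ht, hτv, map_add, map_inv₀, star_add, star_inv₀, hv1])
  have hroot : ∀ φ : H →+* ℂ, (φ v) ^ 2 -
      ((φ.comp (algebraMap K H)).comp (algebraMap F K)) a * φ v + 1 = 0 := by
    intro φ
    show (φ v) ^ 2 - φ (algebraMap K H (algebraMap F K a)) * φ v + 1 = 0
    rw [← ht, map_add, hτv, map_inv₀]
    have : φ v ≠ 0 := by simpa using hv0
    field_simp
    ring
  -- two roots
  have htwo : ∀ (z z' c : ℂ), z ≠ 0 → z ^ 2 - c * z + 1 = 0 → z' ^ 2 - c * z' + 1 = 0 →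
      z' = z ∨ z' = z⁻¹ := by
    intro z z' c hz h1 h2
    have h3 : (z' - z) * (z' - z⁻¹) = 0 := by
      have h4 : c = z + z⁻¹ := by
        field_simp
        linear_combination -h1
      rw [h4] at h2
      have : z⁻¹ * z = 1 := inv_mul_cancel₀ hz
      linear_combination h2 + this
    rcases mul_eq_zero.mp h3 with h | h
    · exact Or.inl (sub_eq_zero.mp h)
    · exact Or.inr (sub_eq_zero.mp h)
  have hσv : ∀ φ : H →+* ℂ, φ v ≠ 0 := fun φ ↦ by simpa using hv0
  -- `σ₂ v` is real
  have hreal2 : star (σ₂ v) = σ₂ v := by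
    have h1 := hroot σ₂
    have h2 : (star (σ₂ v)) ^ 2 -
        ((σ₂.comp (algebraMap K H)).comp (algebraMap F K)) a * star (σ₂ v) + 1 = 0 := by
      have h3 : star (((σ₂.comp (algebraMap K H)).comp (algebraMap F K)) a) =
          ((σ₂.comp (algebraMap K H)).comp (algebraMap F K)) a :=
        RingHom.congr_fun (conjugate_real ((σ₂.comp (algebraMap K H)).comp (algebraMap F K))) a
      have h4 := congrArg star h1
      rw [star_add, star_sub, star_pow, star_mul', h3, star_one, star_zero] at h4
      exact h4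
    rcases htwo _ _ _ (hσv σ₂) h1 h2 with h | h
    · exact h
    · exfalso
      apply hv2
      have h3 : ‖σ₂ v‖ = ‖σ₂ v‖⁻¹ := by
        have := congrArg norm h
        rwa [norm_star, norm_inv] at this
      have h4 : ‖σ₂ v‖ * ‖σ₂ v‖ = 1 := by
        have h5 : ‖σ₂ v‖ ≠ 0 := norm_ne_zero_iff.mpr (hσv σ₂)
        nth_rewrite 2 [h3]
        exact mul_inv_cancel₀ h5
      nlinarith [norm_nonneg (σ₂ v)]
  refine isCMField_of_real (F := F) hKF hH v ?_ ?_
  · intro φ
    have hcases : ∀ σ : H →+* ℂ, (φ.comp (algebraMap K H)).comp (algebraMap F K) =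
        (σ.comp (algebraMap K H)).comp (algebraMap F K) → star (σ v) = σ v →
        star (φ v) = φ v := by
      intro σ hres hσ
      have h1 := hroot φ
      rw [hres] at h1
      rcases htwo _ _ _ (hσv σ) (hroot σ) h1 with h | h
      · rw [h, hσ]
      · rw [h, star_inv₀, hσ]
    rcases eq_or_eq_of_quadratic hd h12 ((φ.comp (algebraMap K H)).comp (algebraMap F K)) with h | h
    · exact hcases σ₁ h hv1
    · exact hcases σ₂ h hreal2
  · rintro ⟨y, rfl⟩
    rw [AlgEquiv.commutes] at hv
    apply hv2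
    have h1 : σ₂ (algebraMap K H y) * σ₂ (algebraMap K H y) = 1 := by
      rw [← map_mul, hv, map_one]
    have h2 := congrArg norm h1
    rw [norm_mul, norm_one] at h2
    nlinarith [norm_nonneg (σ₂ (algebraMap K H y))]

end

end Pool.Agent.Helper51.SixExp
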