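import Pool.Agent.Helper51.SixExp.Half

/-!
# A fixed quadratic extension of mixed signature: at most one CM field fails
-/

set_option linter.unusedSectionVars false

namespace Pool.Agent.Helper51.SixExp

open Pool.Agent.Helper51.SigLeo NumberField Module

section unique

variable {Ω : Type*} [Field Ω] [CharZero Ω] (p : ℕ) [hp : Fact p.Prime] {k : Type*}
  [NormedField k] [NormedAlgebra ℚ_[p] k] [IsUltrametricDist k]

/-- Iwasawa's logarithm is unique on algebraic units. -/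
theorem log_unique (ι : Ω →+* k) (L₁ L₂ : IwasawaLog p k) (x : Ωˣ) (hx : IsUnitAlg x) :
    L₁.toFun (Units.map (ι : Ω →* k) x) = L₂.toFun (Units.map (ι : Ω →* k) x) := by
  have hchar : CharZero k := charZero_of_padic p (k := k)
  obtain ⟨L, hL, v, hv⟩ := exists_numberField (fun _ : Unit ↦ x) fun _ ↦ hx
  obtain ⟨N, hN, hNu⟩ := exists_pow_norm_le p (ι.comp (algebraMap L Ω))
  have h1 : ((Units.map (ι : Ω →* k) (x ^ N) : kˣ) : k) =
      (ι.comp (algebraMap L Ω)) (((v ()) ^ N : (𝓞 L)ˣ) : L) := by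
    rw [Units.coe_map, Units.val_pow_eq_pow_val, ← hv ()]
    simp
  have h2 := hNu (v ())
  rw [← h1] at h2
  have hq4 : ((p : ℝ)⁻¹) ^ 2 ≤ 1 / 4 := by
    have := p_inv_le_half p
    nlinarith [p_inv_nonneg (p := p)]
  have h3 : ‖((Units.map (ι : Ω →* k) (x ^ N) : kˣ) : k) - 1‖ < 1 := by linarith
  have h4 := (L₁.hasSum _ h3).unique (L₂.hasSum _ h3)
  rw [map_pow, log_pow, log_pow] at h4
  exact mul_left_cancel₀ (by exact_mod_cast hN.ne') h4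

end unique

section dep

variable {K H Ω : Type*} [Field K] [Field H] [NumberField H] [Algebra K H] [Field Ω] [CharZero Ω]
  {p : ℕ} {k : Type*} [NormedField k]

/-- All the determinants of relative units vanish. -/
def Dep (L : IwasawaLog p k) (ιp : Ω →+* k) (τ : H ≃ₐ[K] H) (σ₁ σ₂ : H →+* Ω) : Prop :=
  ∀ u₁ u₂ : (𝓞 H)ˣ, (u₁ : H) * τ (u₁ : H) = 1 → (u₂ : H) * τ (u₂ : H) = 1 →
    logUnits L (ιp.comp σ₁) (Additive.ofMul u₁) * logUnits L (ιp.comp σ₂) (Additive.ofMul u₂) -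
      logUnits L (ιp.comp σ₂) (Additive.ofMul u₁) * logUnits L (ιp.comp σ₁) (Additive.ofMul u₂) = 0

theorem Dep.symm {L : IwasawaLog p k} {ιp : Ω →+* k} {τ : H ≃ₐ[K] H} {σ₁ σ₂ : H →+* Ω}
    (h : Dep L ιp τ σ₁ σ₂) : Dep L ιp τ σ₂ σ₁ := by
  intro u₁ u₂ h₁ h₂
  have := h u₁ u₂ h₁ h₂
  linear_combination -this

theorem logUnits_comp (L : IwasawaLog p k) (ιp : Ω →+* k) (τ : H ≃ₐ[K] H)
    (σ : H →+* Ω) (u : (𝓞 H)ˣ) (hu : (u : H) * τ (u : H) = 1) :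
    logUnits L (ιp.comp (σ.comp (τ : H →+* H))) (Additive.ofMul u) =
      -logUnits L (ιp.comp σ) (Additive.ofMul u) := by
  have h1 : logUnits L (ιp.comp (σ.comp (τ : H →+* H))) (Additive.ofMul u) =
      logUnits L (ιp.comp σ) (Additive.ofMul u⁻¹) := by
    rw [logUnits_apply, logUnits_apply]
    congr 1
    apply Units.ext
    show ιp (σ (τ (u : H))) = ιp (σ ((u⁻¹ : (𝓞 H)ˣ) : H))
    rw [coe_units_inv, eq_inv_of_mul_eq_one_right hu]
  rw [h1, ofMul_inv, map_neg]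

theorem Dep.comp_left {L : IwasawaLog p k} {ιp : Ω →+* k} {τ : H ≃ₐ[K] H} {σ₁ σ₂ : H →+* Ω}
    (h : Dep L ιp τ σ₁ σ₂) : Dep L ιp τ (σ₁.comp (τ : H →+* H)) σ₂ := by
  intro u₁ u₂ h₁ h₂
  have := h u₁ u₂ h₁ h₂
  rw [logUnits_comp _ _ _ _ _ h₁, logUnits_comp _ _ _ _ _ h₂]
  linear_combination -this

theorem Dep.comp_right {L : IwasawaLog p k} {ιp : Ω →+* k} {τ : H ≃ₐ[K] H} {σ₁ σ₂ : H →+* Ω}
    (h : Dep L ιp τ σ₁ σ₂) : Dep L ιp τ σ₁ (σ₂.comp (τ : H →+* H)) :=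
  h.symm.comp_left.symm

/-- Failure of the conclusion gives a pair of embeddings with vanishing determinants. -/
theorem exists_dep {F : Type*} [Field F] [NumberField F] [IsTotallyReal F] [NumberField K]
    [IsTotallyComplex K] [Algebra F K] [IsAlgClosed Ω] [Fact p.Prime] [NormedAlgebra ℚ_[p] k]
    [IsUltrametricDist k] [IsAlgClosed k] (hd : finrank ℚ F = 2) (hKF : finrank F K = 2)
    (hH : finrank K H = 2) (hfail : ¬ SigmaLeopoldt K H Ω p k) (τ : H ≃ₐ[K] H) (hτ : τ ≠ 1) :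
    ∀ ιp : Ω →+* k, ∃ (L : IwasawaLog p k) (σ₁ σ₂ : H →+* Ω),
      ((σ₁.comp (algebraMap K H)).comp (algebraMap F K) ≠
        (σ₂.comp (algebraMap K H)).comp (algebraMap F K)) ∧ Dep L ιp τ σ₁ σ₂ := by
  have hchar : CharZero k := charZero_of_padic p (k := k)
  intro ιp
  unfold SigmaLeopoldt at hfail
  push Not at hfail
  obtain ⟨ιinf, ιp', S, χ, L, hS, hχ, hf⟩ := hfail
  obtain ⟨s₁, s₂, hs⟩ := exists_two_embeddings F ℂ hd
  obtain ⟨φ₁, hφ₁S, hφ₁⟩ := hS.exists_mem s₁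
  obtain ⟨φ₂, hφ₂S, hφ₂⟩ := hS.exists_mem s₂
  obtain ⟨κ₁, hκ₁⟩ := exists_lift_embedding ιinf φ₁
  obtain ⟨κ₂, hκ₂⟩ := exists_lift_embedding ιinf φ₂
  have hfd : FiniteDimensional K H := FiniteDimensional.of_finrank_pos (by omega)
  obtain ⟨σ₁, hσ₁⟩ := exists_extend_embedding (H := H) κ₁
  obtain ⟨σ₂, hσ₂⟩ := exists_extend_embedding (H := H) κ₂
  have hne : (σ₁.comp (algebraMap K H)).comp (algebraMap F K) ≠
      (σ₂.comp (algebraMap K H)).comp (algebraMap F K) := by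
    intro h
    apply hs
    rw [← hφ₁, ← hφ₂, ← hκ₁, ← hκ₂, ← hσ₁, ← hσ₂]
    exact congrArg (fun f ↦ ιinf.comp f) h
  obtain ⟨ρ₁, hρ₁⟩ := exists_lift_embedding ιp (ιp'.comp σ₁)
  obtain ⟨ρ₂, hρ₂⟩ := exists_lift_embedding ιp (ιp'.comp σ₂)
  refine ⟨L, ρ₁, ρ₂, ?_, ?_⟩
  · intro h
    apply hne
    have h3 : ((ιp.comp ρ₁).comp (algebraMap K H)).comp (algebraMap F K) =
        ((ιp.comp ρ₂).comp (algebraMap K H)).comp (algebraMap F K) :=
      congrArg (fun f ↦ ιp.comp f) h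
    rw [hρ₁, hρ₂] at h3
    ext y
    apply ιp'.injective
    exact RingHom.congr_fun h3 y
  · intro u₁ u₂ h₁ h₂
    rw [hρ₁, hρ₂]
    exact det_eq_zero_of_not_injective (F := F) hd hKF hH p k ιinf ιp' S χ L hχ hf τ hτ σ₁ σ₂
      (by rw [hσ₁, hκ₁]; exact hφ₁S) (by rw [hσ₂, hκ₂]; exact hφ₂S) hne u₁ u₂ h₁ h₂

end dep

end Pool.Agent.Helper51.SixExp
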