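import Pool.Agent.Helper51.SigLeo.Member

/-!
# Archimedean independence of the absolute values of relative units
-/

set_option linter.unusedSectionVars false

namespace Pool.Agent.Helper51.SixExp

open Pool.Agent.Helper51.SigLeo NumberField Module NumberField.Units

/-- A linear relation between the normalised logarithmic absolute values which holds for all
units has constant coefficients. -/
theorem log_relation_const {H : Type*} [Field H] [NumberField H] (c : InfinitePlace H → ℝ)
    (h : ∀ u : (𝓞 H)ˣ, ∑ w, c w * (w.mult * Real.log (w (u : H))) = 0) (w w' : InfinitePlace H) :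
    c w = c w' := by
  classical
  suffices h0 : ∀ w, c w = c dirichletUnitTheorem.w₀ by rw [h0 w, h0 w']
  intro w
  by_cases hw : w = dirichletUnitTheorem.w₀
  · rw [hw]
  let f : dirichletUnitTheorem.logSpace H →ₗ[ℝ] ℝ :=
    { toFun := fun x ↦ ∑ v : {v : InfinitePlace H // v ≠ dirichletUnitTheorem.w₀},
        (c v - c dirichletUnitTheorem.w₀) * x v
      map_add' := fun x y ↦ by
        rw [← Finset.sum_add_distrib]
        refine Finset.sum_congr rfl fun v _ ↦ ?_
        rw [Pi.add_apply]; ring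
      map_smul' := fun r x ↦ by
        rw [RingHom.id_apply, smul_eq_mul, Finset.mul_sum]
        refine Finset.sum_congr rfl fun v _ ↦ ?_
        rw [Pi.smul_apply, smul_eq_mul]; ring }
  have hf : f = 0 := by
    have hle : (⊤ : Submodule ℝ (dirichletUnitTheorem.logSpace H)) ≤ LinearMap.ker f := by
      rw [← dirichletUnitTheorem.unitLattice_span_eq_top H, Submodule.span_le]
      rintro x ⟨u, -, rfl⟩
      rw [SetLike.mem_coe, LinearMap.mem_ker]
      have hu : u = Additive.ofMul u.toMul := rfl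
      set u' : (𝓞 H)ˣ := u.toMul
      have h1 := h u'
      have h2 := Units.sum_mult_mul_log u'
      show ∑ v : {v : InfinitePlace H // v ≠ dirichletUnitTheorem.w₀},
        (c v - c dirichletUnitTheorem.w₀) * (logEmbedding H u) v = 0
      rw [hu]
      simp only [dirichletUnitTheorem.logEmbedding_component]
      have h3 : ∑ v : InfinitePlace H,
          (c v - c dirichletUnitTheorem.w₀) * (v.mult * Real.log (v (u' : H))) = 0 := by
        have h4 : ∀ v : InfinitePlace H, (c v - c dirichletUnitTheorem.w₀) *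
            (v.mult * Real.log (v (u' : H))) = c v * (v.mult * Real.log (v (u' : H))) -
              c dirichletUnitTheorem.w₀ * (v.mult * Real.log (v (u' : H))) := fun v ↦ by ring
        simp only [h4, Finset.sum_sub_distrib, h1, ← Finset.mul_sum, h2, mul_zero, sub_zero]
      rw [Fintype.sum_eq_add_sum_subtype_ne _ dirichletUnitTheorem.w₀, sub_self, zero_mul,
        zero_add] at h3
      exact h3
    ext x
    exact LinearMap.mem_ker.mp (hle Submodule.mem_top)
  have := LinearMap.congr_fun hf (Pi.single ⟨w, hw⟩ 1)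
  simp [f, Pi.single_apply] at this
  linarith

theorem relation_four {H : Type*} [Field H] [NumberField H] (w₁ w₁' w₂ w₂' : InfinitePlace H)
    (h1 : w₁ ≠ w₁') (h2 : w₂ ≠ w₂') (h3 : w₁ ≠ w₂) (h4 : w₁ ≠ w₂') (h5 : w₁' ≠ w₂)
    (h6 : w₁' ≠ w₂') (a b : ℝ)
    (h : ∀ u : (𝓞 H)ˣ, a * (Real.log (w₁ (u : H)) - Real.log (w₁' (u : H))) +
      b * (Real.log (w₂ (u : H)) - Real.log (w₂' (u : H))) = 0) : a = 0 ∧ b = 0 := by
  classical
  let c : InfinitePlace H → ℝ := fun w ↦ (w.mult : ℝ)⁻¹ *
    (a * ((if w = w₁ then 1 else 0) - (if w = w₁' then 1 else 0)) +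
      b * ((if w = w₂ then 1 else 0) - (if w = w₂' then 1 else 0)))
  have hmult : ∀ w : InfinitePlace H, (0 : ℝ) < w.mult := fun w ↦ by
    exact_mod_cast InfinitePlace.mult_pos
  have hc : ∀ u : (𝓞 H)ˣ, ∑ w, c w * (w.mult * Real.log (w (u : H))) = 0 := by
    intro u
    have h7 : ∀ w, c w * (w.mult * Real.log (w (u : H))) =
        a * ((if w = w₁ then Real.log (w (u : H)) else 0) -
          (if w = w₁' then Real.log (w (u : H)) else 0)) +
        b * ((if w = w₂ then Real.log (w (u : H)) else 0) -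
          (if w = w₂' then Real.log (w (u : H)) else 0)) := by
      intro w
      have hw := (hmult w).ne'
      have key : ∀ v, (if w = v then Real.log (w (u : H)) else 0) =
          (if w = v then (1 : ℝ) else 0) * Real.log (w (u : H)) := by
        intro v; split_ifs <;> simp
      rw [key, key, key, key]
      show (w.mult : ℝ)⁻¹ * _ * _ = _
      generalize (if w = w₁ then (1 : ℝ) else 0) = t₁
      generalize (if w = w₁' then (1 : ℝ) else 0) = t₂
      generalize (if w = w₂ then (1 : ℝ) else 0) = t₃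
      generalize (if w = w₂' then (1 : ℝ) else 0) = t₄
      field_simp
    simp only [h7, Finset.sum_add_distrib, ← Finset.mul_sum, Finset.sum_sub_distrib,
      Finset.sum_ite_eq', Finset.mem_univ, if_true]
    exact h u
  have e1 := log_relation_const c hc w₁ w₁'
  have e2 := log_relation_const c hc w₂ w₂'
  simp only [c, h1, h1.symm, h2, h2.symm, h3, h3.symm, h4, h4.symm, h5, h5.symm, h6, h6.symm,
    if_true, if_false] at e1 e2
  have p1 := inv_pos.mpr (hmult w₁)
  have p1' := inv_pos.mpr (hmult w₁')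
  have p2 := inv_pos.mpr (hmult w₂)
  have p2' := inv_pos.mpr (hmult w₂')
  constructor
  · have : ((w₁.mult : ℝ)⁻¹ + (w₁'.mult : ℝ)⁻¹) * a = 0 := by linear_combination e1
    rcases mul_eq_zero.mp this with h | h
    · linarith
    · exact h
  · have : ((w₂.mult : ℝ)⁻¹ + (w₂'.mult : ℝ)⁻¹) * b = 0 := by linear_combination e2
    rcases mul_eq_zero.mp this with h | h
    · linarith
    · exact h

theorem coe_units_inv {H : Type*} [Field H] (u : (𝓞 H)ˣ) : ((u⁻¹ : (𝓞 H)ˣ) : H) = (u : H)⁻¹ := by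
  apply eq_inv_of_mul_eq_one_left
  rw [← Units.coe_mul, inv_mul_cancel, Units.coe_one]

/-- Two units of relative norm `1` with independent archimedean logarithms. -/
theorem exists_arch_det {K H : Type*} [Field K] [Field H] [NumberField H] [Algebra K H]
    (τ : H ≃ₐ[K] H) (hττ : τ * τ = 1) (σ₁ σ₂ : H →+* ℂ)
    (h1 : InfinitePlace.mk σ₁ ≠ InfinitePlace.mk (σ₁.comp (τ : H →+* H)))
    (h2 : InfinitePlace.mk σ₂ ≠ InfinitePlace.mk (σ₂.comp (τ : H →+* H)))
    (h3 : InfinitePlace.mk σ₁ ≠ InfinitePlace.mk σ₂)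
    (h4 : InfinitePlace.mk σ₁ ≠ InfinitePlace.mk (σ₂.comp (τ : H →+* H)))
    (h5 : InfinitePlace.mk (σ₁.comp (τ : H →+* H)) ≠ InfinitePlace.mk σ₂)
    (h6 : InfinitePlace.mk (σ₁.comp (τ : H →+* H)) ≠
      InfinitePlace.mk (σ₂.comp (τ : H →+* H))) :
    ∃ u₁ u₂ : (𝓞 H)ˣ, (u₁ : H) * τ (u₁ : H) = 1 ∧ (u₂ : H) * τ (u₂ : H) = 1 ∧
      Real.log ‖σ₁ (u₁ : H)‖ * Real.log ‖σ₂ (u₂ : H)‖ -
        Real.log ‖σ₂ (u₁ : H)‖ * Real.log ‖σ₁ (u₂ : H)‖ ≠ 0 := by
  have hττ' : ∀ z, τ (τ z) = z := fun z ↦ by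
    have := AlgEquiv.congr_fun hττ z
    simpa using this
  -- the relative unit attached to a unit
  have hrel : ∀ u : (𝓞 H)ˣ, ∃ v : (𝓞 H)ˣ, (v : H) * τ (v : H) = 1 ∧
      ∀ σ : H →+* ℂ, Real.log ‖σ (v : H)‖ =
        Real.log ((InfinitePlace.mk σ) (u : H)) -
          Real.log ((InfinitePlace.mk (σ.comp (τ : H →+* H))) (u : H)) := by
    intro u
    have hu0 : (u : H) ≠ 0 := Units.coe_ne_zero u
    have hτu : ((Units.map (RingOfIntegers.mapRingHom (τ : H →+* H) : 𝓞 H →* 𝓞 H) u :
      (𝓞 H)ˣ) : H) = τ (u : H) := rfl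
    refine ⟨u * (Units.map (RingOfIntegers.mapRingHom (τ : H →+* H) : 𝓞 H →* 𝓞 H) u)⁻¹, ?_, ?_⟩
    · rw [Units.coe_mul, coe_units_inv, hτu, map_mul, map_inv₀, hττ']
      have hτu0 : τ (u : H) ≠ 0 := by simpa using hu0
      field_simp
    · intro σ
      rw [Units.coe_mul, coe_units_inv, hτu, map_mul, map_inv₀, norm_mul, norm_inv,
        Real.log_mul, Real.log_inv, InfinitePlace.apply, InfinitePlace.apply]
      · rfl
      · simpa using hu0
      · simpa using hu0
  by_contra hcon
  push Not at hcon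
  have hex : ∃ u : (𝓞 H)ˣ, Real.log ((InfinitePlace.mk σ₁) (u : H)) -
      Real.log ((InfinitePlace.mk (σ₁.comp (τ : H →+* H))) (u : H)) ≠ 0 := by
    by_contra hall
    push Not at hall
    have := (relation_four _ _ _ _ h1 h2 h3 h4 h5 h6 1 0 (fun u ↦ by
      rw [hall u]; ring)).1
    exact one_ne_zero this
  obtain ⟨u, hu⟩ := hex
  obtain ⟨v, hv, hvlog⟩ := hrel u
  rw [← hvlog] at hu
  apply hu
  have := (relation_four _ _ _ _ h1 h2 h3 h4 h5 h6 (-Real.log ‖σ₂ (v : H)‖)
    (Real.log ‖σ₁ (v : H)‖) (fun u' ↦ by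
      obtain ⟨v', hv', hvlog'⟩ := hrel u'
      rw [← hvlog', ← hvlog']
      have := hcon v v' hv hv'
      linear_combination this)).2
  exact this

end Pool.Agent.Helper51.SixExp
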