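import Pool.Agent.Helper51.SixExp.Mixed

/-!
# A fixed quadratic extension of mixed signature: at most one CM field fails
-/

set_option linter.unusedSectionVars false

namespace Pool.Agent.Helper51.SixExp

open Pool.Agent.Helper51.SigLeo NumberField Module

section general

variable {H Ω : Type*} [Field H] [NumberField H] [Field Ω] [CharZero Ω]

theorem img_mul (σ : H →+* Ω) (u v : (𝓞 H)ˣ) : img σ (u * v) = img σ u * img σ v := by
  unfold img; rw [map_mul]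

theorem img_zpow (σ : H →+* Ω) (u : (𝓞 H)ˣ) (n : ℤ) : img σ (u ^ n) = img σ u ^ n := by
  unfold img; rw [map_zpow]

theorem img_injective (σ : H →+* Ω) : Function.Injective (img σ) := by
  intro u v h
  apply Units.coe_injective
  apply σ.injective
  have := congrArg (fun z : Ωˣ ↦ (z : Ω)) h
  exact this

theorem img_one (σ : H →+* Ω) : img σ (1 : (𝓞 H)ˣ) = 1 := by
  unfold img; rw [map_one]

/-- If a power of `u` is trivial in one embedding, the absolute value is `1` in all of them. -/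
theorem log_eq_zero_of_zpow (σ σ' : H →+* Ω) (u : (𝓞 H)ˣ) {n : ℤ} (hn : n ≠ 0)
    (h : img σ u ^ n = 1) (ι : Ω →+* ℂ) : Real.log ‖ι (σ' (u : H))‖ = 0 := by
  have h1 : u ^ n = 1 := by
    apply img_injective σ
    rw [img_zpow, h, img_one]
  have h2 := log_norm_zpow ι (img σ' u) n
  rw [← img_zpow, h1, img_one, Units.val_one, map_one, norm_one, Real.log_one] at h2
  exact (mul_eq_zero.mp h2.symm).resolve_left (by exact_mod_cast hn)

end general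

section core

variable {F E K₁ H₁ K₂ H₂ Ω : Type*} [Field F] [NumberField F] [IsTotallyReal F] [Field E]
  [NumberField E] [Algebra F E] [Field K₁] [NumberField K₁] [IsTotallyComplex K₁] [Algebra F K₁]
  [Field H₁] [NumberField H₁] [Algebra K₁ H₁] [Field K₂] [NumberField K₂] [IsTotallyComplex K₂]
  [Algebra F K₂] [Field H₂] [NumberField H₂] [Algebra K₂ H₂] [Field Ω] [CharZero Ω]

/-- A relative unit which is not of absolute value `1` at the second place. -/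
theorem exists_second {K H : Type*} [Field K] [NumberField K] [IsTotallyComplex K] [Algebra F K]
    [Field H] [NumberField H] [Algebra K H] (hH : finrank K H = 2) (τ : H ≃ₐ[K] H) (hτ : τ ≠ 1)
    (σ₁ σ₂ : H →+* ℂ)
    (h12 : (σ₁.comp (algebraMap K H)).comp (algebraMap F K) ≠
      (σ₂.comp (algebraMap K H)).comp (algebraMap F K)) :
    ∃ w : (𝓞 H)ˣ, (w : H) * τ (w : H) = 1 ∧ Real.log ‖σ₂ (w : H)‖ ≠ 0 := by
  have hτres : ∀ σ : H →+* ℂ,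
      ((σ.comp (τ : H →+* H)).comp (algebraMap K H)).comp (algebraMap F K) =
        (σ.comp (algebraMap K H)).comp (algebraMap F K) := by
    intro σ
    ext y
    show σ (τ (algebraMap K H (algebraMap F K y))) = σ (algebraMap K H (algebraMap F K y))
    rw [AlgEquiv.commutes]
  obtain ⟨u₁, u₂, hu₁, hu₂, hdet⟩ := exists_arch_det τ (tau_mul_tau hH τ hτ) σ₁ σ₂
    (mk_ne_comp τ hτ _) (mk_ne_comp τ hτ _) (mk_ne_of_restrict_ne _ _ h12)
    (mk_ne_of_restrict_ne (F := F) (K := K) _ _ (by rw [hτres]; exact h12))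
    (mk_ne_of_restrict_ne (F := F) (K := K) _ _ (by rw [hτres]; exact h12))
    (mk_ne_of_restrict_ne (F := F) (K := K) _ _ (by rw [hτres, hτres]; exact h12))
  by_cases h : Real.log ‖σ₂ (u₁ : H)‖ = 0
  · refine ⟨u₂, hu₂, fun h' ↦ hdet ?_⟩
    rw [h, h']; ring
  · exact ⟨u₁, hu₁, h⟩

/-- The core of the argument, for aligned embeddings. -/
theorem atMostOne_core (hE : finrank F E = 2) (hK₁ : finrank F K₁ = 2) (hK₂ : finrank F K₂ = 2)
    (hH₁ : finrank K₁ H₁ = 2) (hH₂ : finrank K₂ H₂ = 2)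
    (hdist : ∀ d : F, (∃ y : K₁, y ^ 2 = algebraMap F K₁ d) →
      (∃ y : K₂, y ^ 2 = algebraMap F K₂ d) → ∃ z : F, z ^ 2 = d)
    {ε : E} {D : F} (hε : ε ∉ (algebraMap F E).range) (hε2 : ε ^ 2 = algebraMap F E D)
    (j₁ : E →+* H₁) (j₂ : E →+* H₂)
    (hj₁ : ∀ a, j₁ (algebraMap F E a) = algebraMap K₁ H₁ (algebraMap F K₁ a))
    (hj₂ : ∀ a, j₂ (algebraMap F E a) = algebraMap K₂ H₂ (algebraMap F K₂ a))
    (hjε₁ : j₁ ε ∉ (algebraMap K₁ H₁).range) (hjε₂ : j₂ ε ∉ (algebraMap K₂ H₂).range)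
    (p : ℕ) [Fact p.Prime] (k : Type*) [NormedField k] [NormedAlgebra ℚ_[p] k]
    [IsUltrametricDist k] [CompleteSpace k]
    (τ₁ : H₁ ≃ₐ[K₁] H₁) (hτ₁ : τ₁ ≠ 1) (τ₂ : H₂ ≃ₐ[K₂] H₂) (hτ₂ : τ₂ ≠ 1)
    (ι : Ω →+* ℂ) (ιp : Ω →+* k) (L : IwasawaLog p k) (σ₁ σ₂ : H₁ →+* Ω) (σ₁' σ₂' : H₂ →+* Ω)
    (hs₁ : ∀ e, σ₁ (j₁ e) = σ₁' (j₂ e)) (hs₂ : ∀ e, σ₂ (j₁ e) = σ₂' (j₂ e))
    (h12 : (σ₁.comp (algebraMap K₁ H₁)).comp (algebraMap F K₁) ≠
      (σ₂.comp (algebraMap K₁ H₁)).comp (algebraMap F K₁))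
    (hre : star (ι (σ₁ (j₁ ε))) = ι (σ₁ (j₁ ε)))
    (him : star (ι (σ₂ (j₁ ε))) = -ι (σ₂ (j₁ ε)))
    (hdep₁ : Dep L ιp τ₁ σ₁ σ₂) (hdep₂ : Dep L ιp τ₂ σ₁' σ₂') : False := by
  obtain ⟨τE, hτE⟩ := exists_gal hE
  have hF : ∀ a : F, ∀ σ : H₁ →+* Ω, σ (algebraMap K₁ H₁ (algebraMap F K₁ a)) =
      σ (j₁ (algebraMap F E a)) := fun a σ ↦ by rw [hj₁]
  have hF' : ∀ a : F, ∀ σ : H₂ →+* Ω, σ (algebraMap K₂ H₂ (algebraMap F K₂ a)) =
      σ (j₂ (algebraMap F E a)) := fun a σ ↦ by rw [hj₂]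
  have h12C : ((ι.comp σ₁).comp (algebraMap K₁ H₁)).comp (algebraMap F K₁) ≠
      ((ι.comp σ₂).comp (algebraMap K₁ H₁)).comp (algebraMap F K₁) := by
    intro h
    apply h12
    ext y
    apply ι.injective
    exact RingHom.congr_fun h y
  have h12C' : ((ι.comp σ₁').comp (algebraMap K₂ H₂)).comp (algebraMap F K₂) ≠
      ((ι.comp σ₂').comp (algebraMap K₂ H₂)).comp (algebraMap F K₂) := by
    intro h
    apply h12
    ext y
    apply ι.injective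
    have := RingHom.congr_fun h y
    show ι (σ₁ (algebraMap K₁ H₁ (algebraMap F K₁ y))) =
      ι (σ₂ (algebraMap K₁ H₁ (algebraMap F K₁ y)))
    rw [hF, hF, hs₁, hs₂, ← hF', ← hF']
    exact this
  have h12E : ((ι.comp σ₁).comp j₁).comp (algebraMap F E) ≠
      ((ι.comp σ₂).comp j₁).comp (algebraMap F E) := by
    intro h
    apply h12C
    ext y
    have := RingHom.congr_fun h y
    show ι (σ₁ (algebraMap K₁ H₁ (algebraMap F K₁ y))) =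
      ι (σ₂ (algebraMap K₁ H₁ (algebraMap F K₁ y)))
    rw [hF, hF]
    exact this
  have hrealE : ComplexEmbedding.conjugate ((ι.comp σ₁).comp j₁) = (ι.comp σ₁).comp j₁ := by
    refine ringHom_ext_quad hE hε ?_ hre
    rw [ComplexEmbedding.conjugate_comp, conjugate_real]
  -- the units
  obtain ⟨v, hv, hvlog⟩ := exists_rel_unit τE hτE (tau_mul_tau hE τE hτE)
    ((ι.comp σ₁).comp j₁) ((ι.comp σ₂).comp j₁) h12E hrealE
  obtain ⟨w₁, hw₁, hw₁log⟩ := exists_second (F := F) hH₁ τ₁ hτ₁ (ι.comp σ₁) (ι.comp σ₂) h12C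
  obtain ⟨w₂, hw₂, hw₂log⟩ := exists_second (F := F) hH₂ τ₂ hτ₂ (ι.comp σ₁') (ι.comp σ₂') h12C'
  set v₁ : (𝓞 H₁)ˣ := Units.map (RingOfIntegers.mapRingHom j₁ : 𝓞 E →* 𝓞 H₁) v with hv₁def
  set v₂ : (𝓞 H₂)ˣ := Units.map (RingOfIntegers.mapRingHom j₂ : 𝓞 E →* 𝓞 H₂) v with hv₂def
  have hv₁c : (v₁ : H₁) = j₁ (v : E) := rfl
  have hv₂c : (v₂ : H₂) = j₂ (v : E) := rfl
  have hjt₁ := j_tau hE hH₁ hε hε2 j₁ hj₁ hjε₁ τE hτE τ₁ hτ₁
  have hjt₂ := j_tau hE hH₂ hε hε2 j₂ hj₂ hjε₂ τE hτE τ₂ hτ₂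
  have hv₁ : (v₁ : H₁) * τ₁ (v₁ : H₁) = 1 := by
    rw [hv₁c, hjt₁, ← map_mul, hv, map_one]
  have hv₂ : (v₂ : H₂) * τ₂ (v₂ : H₂) = 1 := by
    rw [hv₂c, hjt₂, ← map_mul, hv, map_one]
  have himg₁ : img σ₁ v₁ = img σ₁' v₂ := by
    apply Units.ext
    rw [img_coe, img_coe, hv₁c, hv₂c, hs₁]
  have himg₂ : img σ₂ v₁ = img σ₂' v₂ := by
    apply Units.ext
    rw [img_coe, img_coe, hv₁c, hv₂c, hs₂]
  have hvlog1 : Real.log ‖ι (σ₁ (v₁ : H₁))‖ ≠ 0 := hvlog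
  -- elements of `E` of relative norm one have absolute value one at the second place
  have hnormE : ∀ e : E, e * τE e = 1 → ‖ι (σ₂ (j₁ e))‖ = 1 := fun e he ↦
    norm_eq_one_of_imag hE hε hε2 τE hτE ((ι.comp σ₂).comp j₁) him e he
  have hvlog2 : Real.log ‖ι (σ₂ (v₁ : H₁))‖ = 0 := by
    rw [hv₁c, hnormE _ hv, Real.log_one]
  -- the logarithm of `v` does not vanish
  have hA0 : L.toFun (Units.map (ιp : Ω →* k) (img σ₁ v₁)) ≠ 0 := by
    intro h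
    obtain ⟨N, hN, h1⟩ := torsion_of_log_eq_zero p ιp L (img σ₁ v₁) (img_isUnitAlg σ₁ v₁) h
    exact hvlog1 (norm_eq_one_of_pow hN h1 ι)
  have hd₁ := hdep₁ v₁ w₁ hv₁ hw₁
  have hd₂ := hdep₂ v₂ w₂ hv₂ hw₂
  rw [← log_img, ← log_img, ← log_img, ← log_img] at hd₁ hd₂
  rw [← himg₁, ← himg₂] at hd₂
  set A0 := L.toFun (Units.map (ιp : Ω →* k) (img σ₁ v₁)) with hA0def
  set B0 := L.toFun (Units.map (ιp : Ω →* k) (img σ₂ v₁)) with hB0def
  set A1 := L.toFun (Units.map (ιp : Ω →* k) (img σ₁ w₁)) with hA1def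
  set B1 := L.toFun (Units.map (ιp : Ω →* k) (img σ₂ w₁)) with hB1def
  set A2 := L.toFun (Units.map (ιp : Ω →* k) (img σ₁' w₂)) with hA2def
  set B2 := L.toFun (Units.map (ιp : Ω →* k) (img σ₂' w₂)) with hB2def
  have hd₃ : A1 * B2 = A2 * B1 := by
    apply mul_left_cancel₀ hA0
    linear_combination A1 * hd₂ - A2 * hd₁
  rcases sixExp_units p ιp L (![![img σ₁ v₁, img σ₁ w₁, img σ₁' w₂],
      ![img σ₂ v₁, img σ₂ w₁, img σ₂' w₂]])
    (fun i j ↦ by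
      fin_cases i <;> fin_cases j <;> exact img_isUnitAlg _ _) (by
      intro j j'
      fin_cases j <;> fin_cases j' <;>
        simp only [Fin.zero_eta, Fin.mk_one, Fin.reduceFinMk, Fin.isValue, Matrix.cons_val_zero,
          Matrix.cons_val_one, Matrix.cons_val]
      · show A0 * B1 = A1 * B0
        linear_combination hd₁
      · show A0 * B2 = A2 * B0
        linear_combination hd₂
      · show A1 * B0 = A0 * B1
        linear_combination -hd₁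
      · show A1 * B2 = A2 * B1
        exact hd₃
      · show A2 * B0 = A0 * B2
        linear_combination -hd₂
      · show A2 * B1 = A1 * B2
        exact hd₃.symm) with ⟨m, hm0, hm⟩ | ⟨n, hn0, hn⟩
  · obtain ⟨N, hN, h1⟩ := hm 0
    have hNz : (N : ℤ) ≠ 0 := by exact_mod_cast hN.ne'
    have h2 := norm_eq_one_of_pow hN h1 ι
    rw [Fin.prod_univ_two, log_norm_mul, log_norm_zpow, log_norm_zpow] at h2
    have h3 : (m 0 : ℝ) * Real.log ‖ι (σ₁ (v₁ : H₁))‖ +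
        (m 1 : ℝ) * Real.log ‖ι (σ₂ (v₁ : H₁))‖ = 0 := h2
    rw [hvlog2, mul_zero, add_zero] at h3
    have h4 : m 0 = 0 := by
      exact_mod_cast (mul_eq_zero.mp h3).resolve_right hvlog1
    have h5 : m 1 = 0 := by
      by_contra h5
      rw [Fin.prod_univ_two] at h1
      have h6 : (img σ₁ v₁ ^ m 0 * img σ₂ v₁ ^ m 1) ^ N = 1 := h1
      rw [h4, zpow_zero, one_mul, ← zpow_natCast, ← zpow_mul] at h6
      exact hvlog1 (log_eq_zero_of_zpow σ₂ σ₁ v₁ (mul_ne_zero h5 hNz) h6 ι)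
    apply hm0
    ext i
    fin_cases i
    · exact h4
    · exact h5
  · obtain ⟨N, hN, h1⟩ := hn 0
    have hNz : (N : ℤ) ≠ 0 := by exact_mod_cast hN.ne'
    rw [Fin.prod_univ_three] at h1
    have h2 : (img σ₁ v₁ ^ n 0 * img σ₁ w₁ ^ n 1 * img σ₁' w₂ ^ n 2) ^ N = 1 := h1
    rw [← zpow_natCast, mul_zpow, mul_zpow, ← zpow_mul, ← zpow_mul, ← zpow_mul] at h2
    -- the third exponent vanishes
    have hn2 : n 2 = 0 := by
      by_contra hn2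
      have hc : n 2 * N ≠ 0 := mul_ne_zero hn2 hNz
      have h3 : img σ₁ (v₁ ^ (-(n 0 * N)) * w₁ ^ (-(n 1 * N))) = img σ₁' (w₂ ^ (n 2 * N)) := by
        rw [img_mul, img_zpow, img_zpow, img_zpow, zpow_neg, zpow_neg, ← mul_inv]
        exact inv_eq_of_mul_eq_one_right h2
      have h4 : σ₁ ((v₁ ^ (-(n 0 * N)) * w₁ ^ (-(n 1 * N)) : (𝓞 H₁)ˣ) : H₁) =
          σ₁' ((w₂ ^ (n 2 * N) : (𝓞 H₂)ˣ) : H₂) := congrArg (fun z : Ωˣ ↦ (z : Ω)) h3
      obtain ⟨e, he⟩ := intersect hE hK₁ hK₂ hH₁ hH₂ hdist hε hε2 j₁ j₂ hj₁ hj₂ hjε₁ hjε₂ ι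
        σ₁ σ₂ σ₁' σ₂' hs₁ hs₂ hre him _ σ₁ σ₁' hs₁ _ h4
      have h5 : e * τE e = 1 := by
        apply j₂.injective
        rw [map_mul, ← hjt₂, ← he, map_one, Units.coe_zpow, map_zpow₀, ← mul_zpow, hw₂, one_zpow]
      have h6 := hnormE e h5
      rw [hs₂, ← he] at h6
      have h7 := log_norm_zpow ι (img σ₂' w₂) (n 2 * N)
      rw [← img_zpow, img_coe, h6, Real.log_one] at h7
      exact hw₂log ((mul_eq_zero.mp h7.symm).resolve_left (by exact_mod_cast hc))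
    rw [hn2, zero_mul, zpow_zero, mul_one] at h2
    have hn1 : n 1 = 0 := by
      by_contra hn1
      have hc : n 1 * N ≠ 0 := mul_ne_zero hn1 hNz
      have h3 : w₁ ^ (n 1 * N) = v₁ ^ (-(n 0 * N)) := by
        apply img_injective σ₁
        rw [img_zpow, img_zpow, zpow_neg]
        exact (inv_eq_of_mul_eq_one_right h2).symm
      have h7 := log_norm_zpow ι (img σ₂ w₁) (n 1 * N)
      have h8 := log_norm_zpow ι (img σ₂ v₁) (-(n 0 * N))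
      rw [← img_zpow, h3, img_zpow, h8, img_coe, hvlog2, mul_zero] at h7
      exact hw₁log ((mul_eq_zero.mp h7.symm).resolve_left (by exact_mod_cast hc))
    rw [hn1, zero_mul, zpow_zero, mul_one] at h2
    have hn0' : n 0 = 0 := by
      by_contra hn0'
      exact hvlog1 (log_eq_zero_of_zpow σ₁ σ₁ v₁ (mul_ne_zero hn0' hNz) h2 ι)
    apply hn0
    ext i
    fin_cases i
    · exact hn0'
    · exact hn1
    · exact hn2

end core

section final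

/-- A quadratic number field has at most two embeddings. -/
theorem eq_or_eq_quad {F A : Type*} [Field F] [NumberField F] [Field A] [CharZero A]
    [IsAlgClosed A] (hd : finrank ℚ F = 2) {s₁ s₂ : F →+* A} (h : s₁ ≠ s₂) (s : F →+* A) :
    s = s₁ ∨ s = s₂ := by
  classical
  have h1 : ({s₁, s₂} : Finset (F →+* A)) = Finset.univ := by
    apply Finset.eq_univ_of_card
    rw [Finset.card_pair h, NumberField.Embeddings.card, hd]
  have h2 := Finset.mem_univ s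
  rw [← h1] at h2
  simpa using h2

theorem Dep.change {K H Ω : Type*} [Field K] [Field H] [NumberField H] [Algebra K H] [Field Ω]
    [CharZero Ω] {p : ℕ} [Fact p.Prime] {k : Type*} [NormedField k] [NormedAlgebra ℚ_[p] k]
    [IsUltrametricDist k] {L : IwasawaLog p k} (L' : IwasawaLog p k) {ιp : Ω →+* k}
    {τ : H ≃ₐ[K] H} {σ₁ σ₂ : H →+* Ω} (h : Dep L ιp τ σ₁ σ₂) : Dep L' ιp τ σ₁ σ₂ := by
  intro u₁ u₂ h₁ h₂
  have := h u₁ u₂ h₁ h₂
  simp only [← log_img] at this ⊢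
  rw [log_unique p ιp L' L _ (img_isUnitAlg σ₁ u₁), log_unique p ιp L' L _ (img_isUnitAlg σ₂ u₂),
    log_unique p ιp L' L _ (img_isUnitAlg σ₂ u₁), log_unique p ιp L' L _ (img_isUnitAlg σ₁ u₂)]
  exact this

variable {F E K₁ H₁ K₂ H₂ Ω : Type*} [Field F] [NumberField F] [IsTotallyReal F] [Field E]
  [NumberField E] [Algebra F E] [Field K₁] [NumberField K₁] [IsTotallyComplex K₁] [Algebra F K₁]
  [Field H₁] [NumberField H₁] [Algebra K₁ H₁] [Field K₂] [NumberField K₂] [IsTotallyComplex K₂]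
  [Algebra F K₂] [Field H₂] [NumberField H₂] [Algebra K₂ H₂] [Field Ω] [CharZero Ω]

/-- Aligning an embedding of `H₂` with an embedding of `H₁` on `E`. -/
theorem align (hE : finrank F E = 2) (hH₂ : finrank K₂ H₂ = 2)
    {ε : E} {D : F} (hε : ε ∉ (algebraMap F E).range) (hε2 : ε ^ 2 = algebraMap F E D)
    (j₁ : E →+* H₁) (j₂ : E →+* H₂)
    (hj₂ : ∀ a, j₂ (algebraMap F E a) = algebraMap K₂ H₂ (algebraMap F K₂ a))
    (hjε₂ : j₂ ε ∉ (algebraMap K₂ H₂).range)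
    (τ₂ : H₂ ≃ₐ[K₂] H₂) (hτ₂ : τ₂ ≠ 1) (σ : H₁ →+* Ω) (σ' : H₂ →+* Ω)
    (h : ∀ a : F, σ (j₁ (algebraMap F E a)) = σ' (j₂ (algebraMap F E a))) :
    ∃ σ'' : H₂ →+* Ω, (σ'' = σ' ∨ σ'' = σ'.comp (τ₂ : H₂ →+* H₂)) ∧
      ∀ e, σ (j₁ e) = σ'' (j₂ e) := by
  have h1 : (σ' (j₂ ε)) ^ 2 = (σ (j₁ ε)) ^ 2 := by
    rw [← map_pow, ← map_pow, ← map_pow, ← map_pow, hε2, h]
  rcases sq_eq_sq_iff_eq_or_eq_neg.mp h1 with h2 | h2
  · refine ⟨σ', Or.inl rfl, ?_⟩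
    have h3 : σ.comp j₁ = σ'.comp j₂ :=
      ringHom_ext_quad hE hε (by ext a; exact h a) h2.symm
    exact fun e ↦ RingHom.congr_fun h3 e
  · refine ⟨σ'.comp (τ₂ : H₂ →+* H₂), Or.inr rfl, ?_⟩
    have h3 : σ.comp j₁ = (σ'.comp (τ₂ : H₂ →+* H₂)).comp j₂ := by
      refine ringHom_ext_quad hE hε ?_ ?_
      · ext a
        show σ (j₁ (algebraMap F E a)) = σ' (τ₂ (j₂ (algebraMap F E a)))
        rw [hj₂, AlgEquiv.commutes, ← hj₂, h]
      · show σ (j₁ ε) = σ' (τ₂ (j₂ ε))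
        have h4 : (j₂ ε) ^ 2 = algebraMap K₂ H₂ (algebraMap F K₂ D) := by
          rw [← map_pow, hε2, hj₂]
        rw [gal_apply_sqrt hH₂ h4 hjε₂ τ₂ hτ₂, map_neg, h2, neg_neg]
    exact fun e ↦ RingHom.congr_fun h3 e

/-- **At most one CM field fails.** -/
theorem atMostOne [IsAlgClosed Ω] (hd : finrank ℚ F = 2) (hE : finrank F E = 2)
    (hr : ∃ ψ : E →+* ℂ, ComplexEmbedding.conjugate ψ = ψ)
    (hc : ∃ ψ : E →+* ℂ, ComplexEmbedding.conjugate ψ ≠ ψ)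
    (hK₁ : finrank F K₁ = 2) (hK₂ : finrank F K₂ = 2)
    (hH₁ : finrank K₁ H₁ = 2) (hH₂ : finrank K₂ H₂ = 2)
    (hdist : ∀ d : F, (∃ y : K₁, y ^ 2 = algebraMap F K₁ d) →
      (∃ y : K₂, y ^ 2 = algebraMap F K₂ d) → ∃ z : F, z ^ 2 = d)
    (j₁ : E →+* H₁) (j₂ : E →+* H₂)
    (hj₁ : ∀ a, j₁ (algebraMap F E a) = algebraMap K₁ H₁ (algebraMap F K₁ a))
    (hj₂ : ∀ a, j₂ (algebraMap F E a) = algebraMap K₂ H₂ (algebraMap F K₂ a))
    (p : ℕ) [Fact p.Prime] (k : Type*) [NormedField k] [NormedAlgebra ℚ_[p] k]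
    [IsUltrametricDist k] [CompleteSpace k] [IsAlgClosed k] :
    SigmaLeopoldt K₁ H₁ Ω p k ∨ SigmaLeopoldt K₂ H₂ Ω p k := by
  have hchar : CharZero k := charZero_of_padic p (k := k)
  by_contra hcon
  push Not at hcon
  obtain ⟨hf₁, hf₂⟩ := hcon
  obtain ⟨τ₁, hτ₁⟩ := exists_gal hH₁
  obtain ⟨τ₂, hτ₂⟩ := exists_gal hH₂
  obtain ⟨ε, D, hε, hε2⟩ := exists_sqrt hE
  have hε0 : ε ≠ 0 := by
    rintro rfl
    exact hε ⟨0, map_zero _⟩
  obtain ⟨ι, ιp, -⟩ : ∃ (_ : Ω →+* ℂ) (_ : Ω →+* k), True := by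
    unfold SigmaLeopoldt at hf₁
    push Not at hf₁
    obtain ⟨ι, ιp, -⟩ := hf₁
    exact ⟨ι, ιp, trivial⟩
  obtain ⟨L, σ₁, σ₂, h12, hdep₁⟩ := exists_dep (F := F) hd hK₁ hH₁ hf₁ τ₁ hτ₁ ιp
  obtain ⟨L', σ₁', σ₂', h12', hdep₂'⟩ := exists_dep (F := F) hd hK₂ hH₂ hf₂ τ₂ hτ₂ ιp
  have hdep₂ := hdep₂'.change L
  -- the aligned case with known signature
  have key0 : ∀ (σ₁ σ₂ : H₁ →+* Ω) (σ₁' σ₂' : H₂ →+* Ω),
      (σ₁.comp (algebraMap K₁ H₁)).comp (algebraMap F K₁) ≠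
        (σ₂.comp (algebraMap K₁ H₁)).comp (algebraMap F K₁) →
      (∀ a : F, σ₁ (j₁ (algebraMap F E a)) = σ₁' (j₂ (algebraMap F E a))) →
      (∀ a : F, σ₂ (j₁ (algebraMap F E a)) = σ₂' (j₂ (algebraMap F E a))) →
      star (ι (σ₁ (j₁ ε))) = ι (σ₁ (j₁ ε)) → star (ι (σ₂ (j₁ ε))) = -ι (σ₂ (j₁ ε)) →
      Dep L ιp τ₁ σ₁ σ₂ → Dep L ιp τ₂ σ₁' σ₂' → False := by
    intro σ₁ σ₂ σ₁' σ₂' h12 ha₁ ha₂ hre him hdep₁ hdep₂
    have hjε₁ : j₁ ε ∉ (algebraMap K₁ H₁).range :=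
      j_not_mem hK₁ hε hε2 j₁ hj₁ (ι.comp σ₁) hre
    have hre' : star ((ι.comp σ₁') (j₂ ε)) = (ι.comp σ₁') (j₂ ε) := by
      have h1 : (σ₁' (j₂ ε)) ^ 2 = (σ₁ (j₁ ε)) ^ 2 := by
        rw [← map_pow, ← map_pow, ← map_pow, ← map_pow, hε2, ha₁]
      rcases sq_eq_sq_iff_eq_or_eq_neg.mp h1 with h2 | h2
      · show star (ι (σ₁' (j₂ ε))) = ι (σ₁' (j₂ ε))
        rw [h2]; exact hre
      · show star (ι (σ₁' (j₂ ε))) = ι (σ₁' (j₂ ε))
        rw [h2, map_neg, star_neg, hre]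
    have hjε₂ : j₂ ε ∉ (algebraMap K₂ H₂).range :=
      j_not_mem hK₂ hε hε2 j₂ hj₂ (ι.comp σ₁') hre'
    obtain ⟨ρ₁, hρ₁, hρ₁e⟩ := align hE hH₂ hε hε2 j₁ j₂ hj₂ hjε₂ τ₂ hτ₂ σ₁ σ₁' ha₁
    obtain ⟨ρ₂, hρ₂, hρ₂e⟩ := align hE hH₂ hε hε2 j₁ j₂ hj₂ hjε₂ τ₂ hτ₂ σ₂ σ₂' ha₂
    have hdep₃ : Dep L ιp τ₂ ρ₁ σ₂' := by
      rcases hρ₁ with h | h
      · rw [h]; exact hdep₂
      · rw [h]; exact hdep₂.comp_left
    have hdep₄ : Dep L ιp τ₂ ρ₁ ρ₂ := by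
      rcases hρ₂ with h | h
      · rw [h]; exact hdep₃
      · rw [h]; exact hdep₃.comp_right
    exact atMostOne_core hE hK₁ hK₂ hH₁ hH₂ hdist hε hε2 j₁ j₂ hj₁ hj₂ hjε₁ hjε₂ p k τ₁ hτ₁ τ₂ hτ₂
      ι ιp L σ₁ σ₂ ρ₁ ρ₂ hρ₁e hρ₂e h12 hre him hdep₁ hdep₄
  -- the signature
  have hsig : ∀ ψ : E →+* ℂ, star (ψ ε) = ψ ε ∨ star (ψ ε) = -ψ ε := by
    intro ψ
    have h1 : (star (ψ ε)) ^ 2 = (ψ ε) ^ 2 := by
      rw [← star_pow, ← map_pow, hε2]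
      exact RingHom.congr_fun (conjugate_real (ψ.comp (algebraMap F E))) D
    exact sq_eq_sq_iff_eq_or_eq_neg.mp h1
  have htrans : ∀ ψ ψ' : E →+* ℂ, ψ.comp (algebraMap F E) = ψ'.comp (algebraMap F E) →
      ψ' ε = ψ ε ∨ ψ' ε = -ψ ε := by
    intro ψ ψ' h
    have h1 : (ψ' ε) ^ 2 = (ψ ε) ^ 2 := by
      rw [← map_pow, ← map_pow, hε2]
      exact (RingHom.congr_fun h D).symm
    exact sq_eq_sq_iff_eq_or_eq_neg.mp h1
  obtain ⟨ψ, hψ⟩ := hr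
  obtain ⟨ψ', hψ'⟩ := hc
  have hψre : star (ψ ε) = ψ ε := RingHom.congr_fun hψ ε
  have hψim : star (ψ' ε) = -ψ' ε := by
    rcases hsig ψ' with h | h
    · exfalso
      apply hψ'
      refine ringHom_ext_quad hE hε ?_ h
      rw [ComplexEmbedding.conjugate_comp, conjugate_real]
    · exact h
  have hzero : ∀ φ : E →+* ℂ, star (φ ε) = φ ε → star (φ ε) = -φ ε → False := by
    intro φ h1 h2
    rw [h1] at h2
    have h3 : φ ε = 0 := by linear_combination (1 / 2 : ℂ) * h2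
    exact hε0 ((map_eq_zero φ).mp h3)
  have htre : ∀ φ φ' : E →+* ℂ, φ.comp (algebraMap F E) = φ'.comp (algebraMap F E) →
      star (φ ε) = φ ε → star (φ' ε) = φ' ε := by
    intro φ φ' h h1
    rcases htrans φ φ' h with h2 | h2
    · rw [h2, h1]
    · rw [h2, star_neg, h1]
  have htim : ∀ φ φ' : E →+* ℂ, φ.comp (algebraMap F E) = φ'.comp (algebraMap F E) →
      star (φ ε) = -φ ε → star (φ' ε) = -φ' ε := by
    intro φ φ' h h1
    rcases htrans φ φ' h with h2 | h2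
    · rw [h2, h1]
    · rw [h2, star_neg, h1]
  -- the aligned case
  have key1 : ∀ (σ₁' σ₂' : H₂ →+* Ω),
      (∀ a : F, σ₁ (j₁ (algebraMap F E a)) = σ₁' (j₂ (algebraMap F E a))) →
      (∀ a : F, σ₂ (j₁ (algebraMap F E a)) = σ₂' (j₂ (algebraMap F E a))) →
      Dep L ιp τ₂ σ₁' σ₂' → False := by
    intro σ₁' σ₂' ha₁ ha₂ hdep₂
    set e₁ : E →+* ℂ := (ι.comp σ₁).comp j₁ with he₁
    set e₂ : E →+* ℂ := (ι.comp σ₂).comp j₁ with he₂
    have hne : e₁.comp (algebraMap F E) ≠ e₂.comp (algebraMap F E) := by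
      intro h
      apply h12
      ext y
      apply ι.injective
      show ι (σ₁ (algebraMap K₁ H₁ (algebraMap F K₁ y))) =
        ι (σ₂ (algebraMap K₁ H₁ (algebraMap F K₁ y)))
      rw [← hj₁]
      exact RingHom.congr_fun h y
    rcases eq_or_eq_quad hd hne (ψ.comp (algebraMap F E)) with h | h
    · rcases eq_or_eq_quad hd hne (ψ'.comp (algebraMap F E)) with h' | h'
      · exact hzero e₁ (htre ψ e₁ h hψre) (htim ψ' e₁ h' hψim)
      · exact key0 σ₁ σ₂ σ₁' σ₂' h12 ha₁ ha₂ (htre ψ e₁ h hψre) (htim ψ' e₂ h' hψim) hdep₁ hdep₂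
    · rcases eq_or_eq_quad hd hne (ψ'.comp (algebraMap F E)) with h' | h'
      · exact key0 σ₂ σ₁ σ₂' σ₁' h12.symm ha₂ ha₁ (htre ψ e₂ h hψre) (htim ψ' e₁ h' hψim)
          hdep₁.symm hdep₂.symm
      · exact hzero e₂ (htre ψ e₂ h hψre) (htim ψ' e₂ h' hψim)
  -- alignment over `F`
  have hcongr : ∀ (σ : H₁ →+* Ω) (σ' : H₂ →+* Ω),
      (σ'.comp (algebraMap K₂ H₂)).comp (algebraMap F K₂) =
        (σ.comp (algebraMap K₁ H₁)).comp (algebraMap F K₁) →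
      ∀ a : F, σ (j₁ (algebraMap F E a)) = σ' (j₂ (algebraMap F E a)) := by
    intro σ σ' h a
    rw [hj₁, hj₂]
    exact (RingHom.congr_fun h a).symm
  rcases eq_or_eq_quad hd h12 ((σ₁'.comp (algebraMap K₂ H₂)).comp (algebraMap F K₂)) with h | h
  · rcases eq_or_eq_quad hd h12 ((σ₂'.comp (algebraMap K₂ H₂)).comp (algebraMap F K₂)) with h' | h'
    · exact h12' (h.trans h'.symm)
    · exact key1 σ₁' σ₂' (hcongr _ _ h) (hcongr _ _ h') hdep₂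
  · rcases eq_or_eq_quad hd h12 ((σ₂'.comp (algebraMap K₂ H₂)).comp (algebraMap F K₂)) with h' | h'
    · exact key1 σ₂' σ₁' (hcongr _ _ h') (hcongr _ _ h) hdep₂.symm
    · exact h12' (h.trans h'.symm)

end final

end Pool.Agent.Helper51.SixExp
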