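import Pool.Agent.Helper51.SixExp.Core
import Pool.Agent.Helper51.SigLeo.Member

/-!
# The `p`-adic six exponentials theorem, in terms of Iwasawa logarithms of units
-/

set_option linter.unusedSectionVars false

namespace Pool.Agent.Helper51.SixExp

open Pool.Agent.Helper51.SigLeo NumberField Module

section number

variable {L : Type*} [Field L] [NumberField L]

theorem exists_pow_congr (q : ℕ) (hq : q ≠ 0) :
    ∃ N : ℕ, 0 < N ∧ ∀ v : (𝓞 L)ˣ, ∃ c : 𝓞 L, ((v ^ N : (𝓞 L)ˣ) : 𝓞 L) - 1 = c * q := by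
  have hfin : Finite (𝓞 L ⧸ Ideal.span {(q : 𝓞 L)}) :=
    Ideal.finiteQuotientOfFreeOfNeBot _ (by simpa using hq)
  refine ⟨Nat.card ((𝓞 L ⧸ Ideal.span {(q : 𝓞 L)})ˣ), Nat.card_pos, fun v ↦ ?_⟩
  have hmap : Units.map (Ideal.Quotient.mk (Ideal.span {(q : 𝓞 L)}) :
      𝓞 L →* 𝓞 L ⧸ Ideal.span {(q : 𝓞 L)})
      (v ^ Nat.card ((𝓞 L ⧸ Ideal.span {(q : 𝓞 L)})ˣ)) = 1 := by
    rw [map_pow]
    exact pow_card_eq_one'
  have hmem : ((v ^ Nat.card ((𝓞 L ⧸ Ideal.span {(q : 𝓞 L)})ˣ) : (𝓞 L)ˣ) : 𝓞 L) - 1 ∈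
      Ideal.span {(q : 𝓞 L)} := by
    rw [← Ideal.Quotient.eq_zero_iff_mem, map_sub, map_one, sub_eq_zero]
    exact congrArg Units.val hmap
  obtain ⟨β, hβ⟩ := Ideal.mem_span_singleton'.mp hmem
  exact ⟨β, hβ.symm⟩

end number

variable (p : ℕ) [hp : Fact p.Prime] {k : Type*} [NormedField k] [NormedAlgebra ℚ_[p] k]
  [IsUltrametricDist k]

include p in
theorem exists_pow_norm_le {L : Type*} [Field L] [NumberField L] (ι : L →+* k) :
    ∃ N : ℕ, 0 < N ∧ ∀ v : (𝓞 L)ˣ,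
      ‖ι ((v ^ N : (𝓞 L)ˣ) : L) - 1‖ ≤ ((p : ℝ)⁻¹) ^ 2 := by
  obtain ⟨N, hN, h⟩ := exists_pow_congr (L := L) (p ^ 2) (pow_ne_zero _ hp.out.ne_zero)
  refine ⟨N, hN, fun v ↦ ?_⟩
  obtain ⟨c, hc⟩ := h v
  have h1 : ((v ^ N : (𝓞 L)ˣ) : L) - 1 = (c : L) * (p : L) ^ 2 := by
    have := congrArg (algebraMap (𝓞 L) L) hc
    simpa using this
  have h2 : ι ((v ^ N : (𝓞 L)ˣ) : L) - 1 = ι (c : L) * (p : k) ^ 2 := by
    have := congrArg ι h1
    rw [map_sub, map_one, map_mul, map_pow, map_natCast] at this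
    exact this
  have hpn : ‖(p : k)‖ = (p : ℝ)⁻¹ := by
    rw [norm_natCast_eq p, Padic.norm_p]
  rw [h2, norm_mul, norm_pow, hpn]
  calc ‖ι (c : L)‖ * ((p : ℝ)⁻¹) ^ 2 ≤ 1 * ((p : ℝ)⁻¹) ^ 2 :=
        mul_le_mul_of_nonneg_right (norm_map_le_one p ι (RingOfIntegers.isIntegral_coe c))
          (by positivity)
    _ = _ := one_mul _

/-- The logarithm of the image of a unit. -/
noncomputable def logU {p : ℕ} {k : Type*} [NormedField k] {L : Type*} [Field L]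
    (Λ : IwasawaLog p k) (ι : L →+* k) (v : (𝓞 L)ˣ) : k :=
  Λ.toFun (Units.map (ι.comp (algebraMap (𝓞 L) L) : 𝓞 L →* k) v)

theorem logU_pow {p : ℕ} [Fact p.Prime] {k : Type*} [NormedField k] [NormedAlgebra ℚ_[p] k]
    {L : Type*} [Field L] (Λ : IwasawaLog p k) (ι : L →+* k) (v : (𝓞 L)ˣ) (N : ℕ) :
    logU Λ ι (v ^ N) = N * logU Λ ι v := by
  unfold logU
  rw [map_pow, log_pow]

variable [CompleteSpace k]

theorem sixExp_number {L : Type*} [Field L] [NumberField L] (ι : L →+* k)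
    (Λ : IwasawaLog p k) (u : Fin 2 → Fin 3 → (𝓞 L)ˣ)
    (hrk : ∀ j j', logU Λ ι (u 0 j) * logU Λ ι (u 1 j') =
      logU Λ ι (u 0 j') * logU Λ ι (u 1 j)) :
    (∃ m : Fin 2 → ℤ, m ≠ 0 ∧ ∀ j, ∑ i, (m i : k) * logU Λ ι (u i j) = 0) ∨
    (∃ n : Fin 3 → ℤ, n ≠ 0 ∧ ∀ i, ∑ j, (n j : k) * logU Λ ι (u i j) = 0) := by
  have hchar : CharZero k := charZero_of_padic p (k := k)
  obtain ⟨N, hN, hNu⟩ := exists_pow_norm_le p ι
  have hNk : (N : k) ≠ 0 := by exact_mod_cast hN.ne'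
  -- the logarithms of the `N`-th powers
  set ℓ : Fin 2 → Fin 3 → k := fun i j ↦ logU Λ ι (u i j ^ N) with hℓ
  have hℓN : ∀ i j, ℓ i j = N * logU Λ ι (u i j) := fun i j ↦ logU_pow Λ ι (u i j) N
  have hrk' : ∀ j j', ℓ 0 j * ℓ 1 j' = ℓ 0 j' * ℓ 1 j := by
    intro j j'
    rw [hℓN, hℓN, hℓN, hℓN]
    linear_combination (N : k) ^ 2 * hrk j j'
  have hq4 : ((p : ℝ)⁻¹) ^ 2 ≤ 1 / 4 := by
    have := p_inv_le_half p
    nlinarith [p_inv_nonneg (p := p)]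
  have hcoe : ∀ i j, ((Units.map (ι.comp (algebraMap (𝓞 L) L) : 𝓞 L →* k) (u i j ^ N) : kˣ) : k)
      = ι ((u i j ^ N : (𝓞 L)ˣ) : L) := fun i j ↦ rfl
  have hnorm : ∀ i j, ‖ℓ i j‖ ≤ ((p : ℝ)⁻¹) ^ 2 := by
    intro i j
    refine (norm_log_le Λ _ ?_).trans ?_
    · rw [hcoe]; exact (hNu _).trans hq4
    · rw [hcoe]; exact hNu _
  have hexp : ∀ i j, pexp (ℓ i j) = ι ((u i j ^ N : (𝓞 L)ˣ) : L) := by
    intro i j
    have := pexp_log Λ (Units.map (ι.comp (algebraMap (𝓞 L) L) : 𝓞 L →* k) (u i j ^ N))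
      (by rw [hcoe]; exact hNu _)
    rw [hcoe] at this
    exact this
  by_contra hcon
  push Not at hcon
  obtain ⟨hm, hn⟩ := hcon
  -- choose the column with the largest entry of the first row
  obtain ⟨j₀, -, hj₀⟩ := Finset.exists_max_image Finset.univ (fun j ↦ ‖ℓ 0 j‖)
    ⟨(0 : Fin 3), Finset.mem_univ _⟩
  have hℓ0 : ℓ 0 j₀ ≠ 0 := by
    intro h0
    obtain ⟨j, hj⟩ := hm (fun i ↦ if i = 0 then 1 else 0) (by
      intro h
      have := congrFun h 0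
      simp at this)
    apply hj
    rw [Fin.sum_univ_two]
    have h1 : ‖ℓ 0 j‖ ≤ 0 := by
      have := hj₀ j (Finset.mem_univ j)
      rwa [h0, norm_zero] at this
    have h2 : ℓ 0 j = 0 := norm_le_zero_iff.mp h1
    have h3 : logU Λ ι (u 0 j) = 0 := by
      have := hℓN 0 j
      rw [h2] at this
      exact (mul_eq_zero.mp this.symm).resolve_left hNk
    simp [h3]
  refine core p ι (fun i j ↦ ((u i j ^ N : (𝓞 L)ˣ) : 𝓞 L)) (fun i ↦ ℓ i j₀)
    (fun j ↦ ℓ 0 j / ℓ 0 j₀) (fun i ↦ hnorm i j₀) ?_ ?_ ?_ ?_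
  · intro j
    rw [norm_div]
    exact div_le_one_of_le₀ (hj₀ j (Finset.mem_univ j)) (norm_nonneg _)
  · intro i j
    rw [← hexp i j]
    congr 1
    have h1 : ∀ i : Fin 2, ℓ i j₀ * ℓ 0 j = ℓ i j * ℓ 0 j₀ := by
      intro i
      fin_cases i
      · exact mul_comm _ _
      · have := hrk' j j₀
        simp only [Fin.mk_one, Fin.isValue]
        linear_combination this
    rw [← mul_div_assoc, h1 i]
    field_simp
  · intro m hm0
    by_contra hmne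
    obtain ⟨j, hj⟩ := hm m hmne
    apply hj
    have h1 : ∀ i : Fin 2, ℓ i j = ℓ i j₀ * (ℓ 0 j / ℓ 0 j₀) := by
      intro i
      have h1 : ℓ i j₀ * ℓ 0 j = ℓ i j * ℓ 0 j₀ := by
        fin_cases i
        · exact mul_comm _ _
        · have := hrk' j j₀
          simp only [Fin.mk_one, Fin.isValue]
          linear_combination this
      field_simp
      linear_combination -h1
    have h2 : ∑ i, (m i : k) * ℓ i j = (∑ i, (m i : k) * ℓ i j₀) * (ℓ 0 j / ℓ 0 j₀) := by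
      rw [Finset.sum_mul]
      refine Finset.sum_congr rfl (fun i _ ↦ ?_)
      rw [h1 i]; ring
    rw [hm0, zero_mul] at h2
    have h3 : ∑ i, (m i : k) * ℓ i j = N * ∑ i, (m i : k) * logU Λ ι (u i j) := by
      rw [Finset.mul_sum]
      refine Finset.sum_congr rfl (fun i _ ↦ ?_)
      rw [hℓN]; ring
    rw [h3] at h2
    exact (mul_eq_zero.mp h2).resolve_left hNk
  · intro n hn0
    by_contra hnne
    obtain ⟨i, hi⟩ := hn n hnne
    apply hi
    have h1 : ∀ j, ℓ i j = ℓ i j₀ * (ℓ 0 j / ℓ 0 j₀) := by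
      intro j
      have h1 : ℓ i j₀ * ℓ 0 j = ℓ i j * ℓ 0 j₀ := by
        fin_cases i
        · exact mul_comm _ _
        · have := hrk' j j₀
          simp only [Fin.mk_one, Fin.isValue]
          linear_combination this
      field_simp
      linear_combination -h1
    have h2 : ∑ j, (n j : k) * ℓ i j = ℓ i j₀ * ∑ j, (n j : k) * (ℓ 0 j / ℓ 0 j₀) := by
      rw [Finset.mul_sum]
      refine Finset.sum_congr rfl (fun j _ ↦ ?_)
      rw [h1 j]; ring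
    rw [hn0, mul_zero] at h2
    have h3 : ∑ j, (n j : k) * ℓ i j = N * ∑ j, (n j : k) * logU Λ ι (u i j) := by
      rw [Finset.mul_sum]
      refine Finset.sum_congr rfl (fun j _ ↦ ?_)
      rw [hℓN]; ring
    rw [h3] at h2
    exact (mul_eq_zero.mp h2).resolve_left hNk

end Pool.Agent.Helper51.SixExp
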