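import Pool.Agent.Helper51.SixExp.Family

/-!
# Quadratic extensions of mixed signature
-/

set_option linter.unusedSectionVars false

namespace Pool.Agent.Helper51.SixExp

open Pool.Agent.Helper51.SigLeo NumberField Module

section mixed

variable {F E : Type*} [Field F] [NumberField F] [IsTotallyReal F] [Field E] [NumberField E]
  [Algebra F E]

/-- A relative unit of `E/F` which is not of absolute value `1` at a real place. -/
theorem exists_rel_unit (τ : E ≃ₐ[F] E) (hτ : τ ≠ 1)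
    (hττ : τ * τ = 1) (ψ₁ ψ₂ : E →+* ℂ)
    (h12 : ψ₁.comp (algebraMap F E) ≠ ψ₂.comp (algebraMap F E))
    (hreal : ComplexEmbedding.conjugate ψ₁ = ψ₁) :
    ∃ v : (𝓞 E)ˣ, (v : E) * τ (v : E) = 1 ∧ Real.log ‖ψ₁ (v : E)‖ ≠ 0 := by
  classical
  have hττ' : ∀ z, τ (τ z) = z := fun z ↦ by
    have := AlgEquiv.congr_fun hττ z
    simpa using this
  have hne : ∀ ψ ψ' : E →+* ℂ, ψ.comp (algebraMap F E) ≠ ψ'.comp (algebraMap F E) →
      InfinitePlace.mk ψ ≠ InfinitePlace.mk ψ' := by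
    intro ψ ψ' h heq
    rcases InfinitePlace.mk_eq_iff.mp heq with h1 | h1
    · exact h (by rw [h1])
    · apply h
      rw [← h1, ComplexEmbedding.conjugate_comp, conjugate_real]
  have hne1 : InfinitePlace.mk ψ₁ ≠ InfinitePlace.mk (ψ₁.comp (τ : E →+* E)) := by
    intro heq
    have h1 : ψ₁ = ψ₁.comp (τ : E →+* E) := by
      rcases InfinitePlace.mk_eq_iff.mp heq with h1 | h1
      · exact h1
      · rw [hreal] at h1; exact h1
    apply hτ
    ext y
    apply ψ₁.injective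
    exact (RingHom.congr_fun h1 y).symm
  have hne2 : InfinitePlace.mk ψ₁ ≠ InfinitePlace.mk ψ₂ := hne _ _ h12
  have hne3 : InfinitePlace.mk (ψ₁.comp (τ : E →+* E)) ≠ InfinitePlace.mk ψ₂ := by
    apply hne
    intro h
    apply h12
    rw [← h]
    ext y
    show ψ₁ (algebraMap F E y) = ψ₁ (τ (algebraMap F E y))
    rw [AlgEquiv.commutes]
  set w₁ := InfinitePlace.mk ψ₁ with hw₁
  set w₁' := InfinitePlace.mk (ψ₁.comp (τ : E →+* E)) with hw₁'
  have hmult : ∀ w : InfinitePlace E, (0 : ℝ) < w.mult := fun w ↦ by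
    exact_mod_cast InfinitePlace.mult_pos
  by_contra hcon
  push Not at hcon
  have := log_relation_const (fun w ↦ (w.mult : ℝ)⁻¹ * ((if w = w₁ then 1 else 0) -
    (if w = w₁' then 1 else 0))) (fun u ↦ by
      have h7 : ∀ w : InfinitePlace E, (w.mult : ℝ)⁻¹ * ((if w = w₁ then 1 else 0) -
          (if w = w₁' then 1 else 0)) * (w.mult * Real.log (w (u : E))) =
          (if w = w₁ then Real.log (w (u : E)) else 0) -
          (if w = w₁' then Real.log (w (u : E)) else 0) := by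
        intro w
        have hw := (hmult w).ne'
        have key : ∀ v, (if w = v then Real.log (w (u : E)) else 0) =
            (if w = v then (1 : ℝ) else 0) * Real.log (w (u : E)) := by
          intro v; split_ifs <;> simp
        rw [key, key]
        generalize (if w = w₁ then (1 : ℝ) else 0) = t₁
        generalize (if w = w₁' then (1 : ℝ) else 0) = t₂
        field_simp
      simp only [h7, Finset.sum_sub_distrib, Finset.sum_ite_eq', Finset.mem_univ, if_true]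
      have hu0 : (u : E) ≠ 0 := Units.coe_ne_zero u
      have hτu : ((Units.map (RingOfIntegers.mapRingHom (τ : E →+* E) : 𝓞 E →* 𝓞 E) u :
        (𝓞 E)ˣ) : E) = τ (u : E) := rfl
      have h8 := hcon (u * (Units.map (RingOfIntegers.mapRingHom (τ : E →+* E) :
        𝓞 E →* 𝓞 E) u)⁻¹) (by
          rw [Units.coe_mul, coe_units_inv, hτu, map_mul, map_inv₀, hττ']
          have hτu0 : τ (u : E) ≠ 0 := by simp
          field_simp)
      rw [Units.coe_mul, coe_units_inv, hτu, map_mul, map_inv₀, norm_mul, norm_inv,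
        Real.log_mul (by simp) (by simp), Real.log_inv] at h8
      rw [hw₁, hw₁', InfinitePlace.apply, InfinitePlace.apply]
      exact h8) w₁ (InfinitePlace.mk ψ₂)
  simp only [hne1, hne2.symm, hne3.symm, if_true, if_false, sub_zero, mul_zero] at this
  have hp := inv_pos.mpr (hmult w₁)
  linarith

/-- At a place of `F` where `E` is complex, relative units have absolute value `1`. -/
theorem norm_eq_one_of_imag (hE : finrank F E = 2) {ε : E} {D : F}
    (hε : ε ∉ (algebraMap F E).range) (hε2 : ε ^ 2 = algebraMap F E D) (τ : E ≃ₐ[F] E)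
    (hτ : τ ≠ 1) (ψ : E →+* ℂ) (him : ComplexEmbedding.conjugate ψ ε = -ψ ε) (e : E)
    (he : e * τ e = 1) : ‖ψ e‖ = 1 := by
  have h1 : ComplexEmbedding.conjugate ψ = ψ.comp (τ : E →+* E) := by
    refine ringHom_ext_quad hE hε ?_ ?_
    · rw [ComplexEmbedding.conjugate_comp, conjugate_real]
      ext y
      show ψ (algebraMap F E y) = ψ (τ (algebraMap F E y))
      rw [AlgEquiv.commutes]
    · show ComplexEmbedding.conjugate ψ ε = ψ (τ ε)
      rw [him, gal_apply_sqrt hE hε2 hε τ hτ, map_neg]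
  have h2 : star (ψ e) = ψ (τ e) := RingHom.congr_fun h1 e
  have h3 : ψ e * star (ψ e) = 1 := by rw [h2, ← map_mul, he, map_one]
  have h4 := congrArg norm h3
  rw [norm_mul, norm_star, norm_one] at h4
  nlinarith [norm_nonneg (ψ e)]

end mixed

section compat

variable {F E K H : Type*} [Field F] [NumberField F] [IsTotallyReal F] [Field E] [NumberField E]
  [Algebra F E] [Field K] [NumberField K] [IsTotallyComplex K] [Algebra F K] [Field H]
  [NumberField H] [Algebra K H]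

theorem j_not_mem (hKF : finrank F K = 2) {ε : E} {D : F}
    (hε : ε ∉ (algebraMap F E).range) (hε2 : ε ^ 2 = algebraMap F E D) (j : E →+* H)
    (hj : ∀ a, j (algebraMap F E a) = algebraMap K H (algebraMap F K a)) (ψ : H →+* ℂ)
    (hre : star (ψ (j ε)) = ψ (j ε)) : j ε ∉ (algebraMap K H).range := by
  rintro ⟨y, hy⟩
  have hy2 : y ^ 2 = algebraMap F K D := by
    apply (algebraMap K H).injective
    rw [map_pow, hy, ← map_pow, hε2, hj]
  have hyF : y ∉ (algebraMap F K).range := by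
    rintro ⟨a, rfl⟩
    apply hε
    refine ⟨a, ?_⟩
    apply j.injective
    rw [hj, hy]
  have h1 := conjugate_theta hKF hyF hy2 (ψ.comp (algebraMap K H))
  have h2 : ComplexEmbedding.conjugate (ψ.comp (algebraMap K H)) y =
      (ψ.comp (algebraMap K H)) y := by
    show star (ψ (algebraMap K H y)) = ψ (algebraMap K H y)
    rw [hy, hre]
  rw [h2] at h1
  have h3 : (ψ.comp (algebraMap K H)) y = 0 := by linear_combination (1 / 2 : ℂ) * h1
  have h4 := (map_eq_zero _).mp h3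
  apply hyF
  exact ⟨0, by rw [map_zero, h4]⟩

theorem j_tau (hE : finrank F E = 2) (hH : finrank K H = 2) {ε : E} {D : F}
    (hε : ε ∉ (algebraMap F E).range) (hε2 : ε ^ 2 = algebraMap F E D) (j : E →+* H)
    (hj : ∀ a, j (algebraMap F E a) = algebraMap K H (algebraMap F K a))
    (hjε : j ε ∉ (algebraMap K H).range) (τE : E ≃ₐ[F] E) (hτE : τE ≠ 1)
    (τ : H ≃ₐ[K] H) (hτ : τ ≠ 1) (e : E) : τ (j e) = j (τE e) := by
  have h1 : (τ : H →+* H).comp j = j.comp (τE : E →+* E) := by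
    refine ringHom_ext_quad hE hε ?_ ?_
    · ext a
      show τ (j (algebraMap F E a)) = j (τE (algebraMap F E a))
      rw [AlgEquiv.commutes, hj, AlgEquiv.commutes]
    · show τ (j ε) = j (τE ε)
      have h2 : (j ε) ^ 2 = algebraMap K H (algebraMap F K D) := by
        rw [← map_pow, hε2, hj]
      rw [gal_apply_sqrt hH h2 hjε τ hτ, gal_apply_sqrt hE hε2 hε τE hτE, map_neg]
  exact RingHom.congr_fun h1 e

end compat

section intersect

variable {F E K₁ H₁ K₂ H₂ Ω : Type*} [Field F] [NumberField F] [IsTotallyReal F] [Field E]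
  [NumberField E] [Algebra F E] [Field K₁] [NumberField K₁] [IsTotallyComplex K₁] [Algebra F K₁]
  [Field H₁] [NumberField H₁] [Algebra K₁ H₁] [Field K₂] [NumberField K₂] [IsTotallyComplex K₂]
  [Algebra F K₂] [Field H₂] [NumberField H₂] [Algebra K₂ H₂] [Field Ω] [CharZero Ω]

/-- The images of `H₁` and `H₂` meet in the image of `E`. -/
theorem intersect (hE : finrank F E = 2) (hK₁ : finrank F K₁ = 2) (hK₂ : finrank F K₂ = 2)
    (hH₁ : finrank K₁ H₁ = 2) (hH₂ : finrank K₂ H₂ = 2)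
    (hdist : ∀ d : F, (∃ y : K₁, y ^ 2 = algebraMap F K₁ d) →
      (∃ y : K₂, y ^ 2 = algebraMap F K₂ d) → ∃ z : F, z ^ 2 = d)
    {ε : E} {D : F} (hε : ε ∉ (algebraMap F E).range) (hε2 : ε ^ 2 = algebraMap F E D)
    (j₁ : E →+* H₁) (j₂ : E →+* H₂)
    (hj₁ : ∀ a, j₁ (algebraMap F E a) = algebraMap K₁ H₁ (algebraMap F K₁ a))
    (hj₂ : ∀ a, j₂ (algebraMap F E a) = algebraMap K₂ H₂ (algebraMap F K₂ a))
    (hjε₁ : j₁ ε ∉ (algebraMap K₁ H₁).range) (hjε₂ : j₂ ε ∉ (algebraMap K₂ H₂).range)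
    (ι : Ω →+* ℂ) (ρ₁ ρ₂ : H₁ →+* Ω) (ρ₁' ρ₂' : H₂ →+* Ω)
    (hρ₁ : ∀ e, ρ₁ (j₁ e) = ρ₁' (j₂ e)) (hρ₂ : ∀ e, ρ₂ (j₁ e) = ρ₂' (j₂ e))
    (hre : star (ι (ρ₁ (j₁ ε))) = ι (ρ₁ (j₁ ε)))
    (him : star (ι (ρ₂ (j₁ ε))) = -ι (ρ₂ (j₁ ε)))
    (z : H₂) (σ : H₁ →+* Ω) (σ' : H₂ →+* Ω) (hσ : ∀ e, σ (j₁ e) = σ' (j₂ e)) (y : H₁)
    (hyz : σ y = σ' z) : ∃ e : E, z = j₂ e := by
  obtain ⟨θ₁, d₁, hθ₁, hθ₁2⟩ := exists_sqrt hK₁
  obtain ⟨θ₂, d₂, hθ₂, hθ₂2⟩ := exists_sqrt hK₂
  -- decompose `z`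
  obtain ⟨A, B, rfl⟩ := exists_coords hH₂ hjε₂ z
  obtain ⟨a₁, a₂, rfl⟩ := exists_coords hK₂ hθ₂ A
  obtain ⟨b₁, b₂, rfl⟩ := exists_coords hK₂ hθ₂ B
  by_cases hb : a₂ = 0 ∧ b₂ = 0
  · refine ⟨algebraMap F E a₁ + algebraMap F E b₁ * ε, ?_⟩
    rw [hb.1, hb.2, map_zero, zero_mul, add_zero, add_zero, map_add, map_mul, hj₂, hj₂]
  exfalso
  set α : E := algebraMap F E a₁ + algebraMap F E b₁ * ε with hα
  set β : E := algebraMap F E a₂ + algebraMap F E b₂ * ε with hβ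
  have hβ0 : β ≠ 0 := by
    intro h
    by_cases hb2 : b₂ = 0
    · apply hb
      refine ⟨?_, hb2⟩
      rw [hβ, hb2, map_zero, zero_mul, add_zero] at h
      exact (map_eq_zero _).mp h
    · apply hε
      refine ⟨-a₂ / b₂, ?_⟩
      have hb2' : algebraMap F E b₂ ≠ 0 := by simpa using hb2
      rw [map_div₀, map_neg, div_eq_iff hb2']
      linear_combination -h
  have hz : algebraMap K₂ H₂ (algebraMap F K₂ a₁ + algebraMap F K₂ a₂ * θ₂) +
      algebraMap K₂ H₂ (algebraMap F K₂ b₁ + algebraMap F K₂ b₂ * θ₂) * j₂ ε =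
      j₂ α + j₂ β * algebraMap K₂ H₂ θ₂ := by
    rw [hα, hβ, map_add, map_mul, map_add, map_mul, map_add, map_mul, map_add, map_mul, hj₂, hj₂,
      hj₂, hj₂]
    ring
  rw [hz, map_add, map_mul, ← hσ, ← hσ] at hyz
  -- `θ₂` is in the image of `H₁`
  have hσβ : σ (j₁ β) ≠ 0 := by
    rw [Ne, map_eq_zero, map_eq_zero]; exact hβ0
  have hθim : σ' (algebraMap K₂ H₂ θ₂) = σ ((y - j₁ α) / j₁ β) := by
    rw [map_div₀, map_sub, eq_div_iff hσβ]
    linear_combination -hyz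
  set t : H₁ := (y - j₁ α) / j₁ β with ht
  have hFeq : ∀ a : F, σ (algebraMap K₁ H₁ (algebraMap F K₁ a)) =
      σ' (algebraMap K₂ H₂ (algebraMap F K₂ a)) := by
    intro a
    rw [← hj₁, ← hj₂, hσ]
  have ht2 : t ^ 2 = algebraMap K₁ H₁ (algebraMap F K₁ d₂) := by
    apply σ.injective
    rw [map_pow, ← hθim, ← map_pow, ← map_pow, hθ₂2, hFeq]
  have hj1sq : (j₁ ε) ^ 2 = algebraMap K₁ H₁ (algebraMap F K₁ D) := by
    rw [← map_pow, hε2, hj₁]
  have hK1char : CharZero K₁ := inferInstance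
  -- if `d₂` is a square in `K₁`: contradiction with `hdist`
  have hcase1 : ∀ x : K₁, x ^ 2 = algebraMap F K₁ d₂ → False := by
    intro x hx
    obtain ⟨w, hw⟩ := hdist d₂ ⟨x, hx⟩ ⟨θ₂, hθ₂2⟩
    rw [← hw, map_pow] at hθ₂2
    rcases sq_eq_sq_iff_eq_or_eq_neg.mp hθ₂2 with h | h
    · exact hθ₂ ⟨w, h.symm⟩
    · exact hθ₂ ⟨-w, by rw [map_neg, h]⟩
  have hre' : star (ι (ρ₁' (j₂ ε))) = ι (ρ₁' (j₂ ε)) := by rw [← hρ₁]; exact hre
  have hF1 : ∀ a : F, ρ₁ (algebraMap K₁ H₁ (algebraMap F K₁ a)) =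
      ρ₁' (algebraMap K₂ H₂ (algebraMap F K₂ a)) := fun a ↦ by rw [← hj₁, ← hj₂, hρ₁]
  have hF2 : ∀ a : F, ρ₂ (algebraMap K₁ H₁ (algebraMap F K₁ a)) =
      ρ₂' (algebraMap K₂ H₂ (algebraMap F K₂ a)) := fun a ↦ by rw [← hj₁, ← hj₂, hρ₂]
  -- conjugation on `θ₂` and `θ₁`
  have hc2 : ∀ φ : H₂ →+* ℂ, star (φ (algebraMap K₂ H₂ θ₂)) = -φ (algebraMap K₂ H₂ θ₂) :=
    fun φ ↦ conjugate_theta hK₂ hθ₂ hθ₂2 (φ.comp (algebraMap K₂ H₂))
  have hc1 : ∀ φ : H₁ →+* ℂ, star (φ (algebraMap K₁ H₁ θ₁)) = -φ (algebraMap K₁ H₁ θ₁) :=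
    fun φ ↦ conjugate_theta hK₁ hθ₁ hθ₁2 (φ.comp (algebraMap K₁ H₁))
  have hFreal : ∀ (φ : H₁ →+* ℂ) (a : F), star (φ (algebraMap K₁ H₁ (algebraMap F K₁ a))) =
      φ (algebraMap K₁ H₁ (algebraMap F K₁ a)) := fun φ a ↦
    RingHom.congr_fun (conjugate_real ((φ.comp (algebraMap K₁ H₁)).comp (algebraMap F K₁))) a
  have hθ₂0 : θ₂ ≠ 0 := by
    rintro rfl
    exact hθ₂ ⟨0, map_zero _⟩
  -- the square of a complex number determines it up to sign; reality is preserved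
  have hsq : ∀ (a b : ℂ), a ^ 2 = b ^ 2 → star a = -a → star b = b → a = 0 := by
    intro a b hab ha hb
    rcases sq_eq_sq_iff_eq_or_eq_neg.mp hab with h | h
    · rw [h, hb] at ha
      have : b = 0 := by linear_combination (1 / 2 : ℂ) * ha
      rw [h, this]
    · rw [h, star_neg, hb, neg_neg] at ha
      have : b = 0 := by linear_combination (-1 / 2 : ℂ) * ha
      rw [h, this, neg_zero]
  obtain ⟨x, hx | hx⟩ := sq_in_base hH₁ hjε₁ hj1sq ht2
  · exact hcase1 x hx.2.symm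
  · -- `d₂ = x ^ 2 * D` in `K₁`
    have hD0 : D ≠ 0 := by
      rintro rfl
      rw [map_zero] at hε2
      exact hε ⟨0, by rw [map_zero, pow_eq_zero_iff (two_ne_zero)] at *; exact hε2.symm⟩
    have hD0' : algebraMap F K₁ D ≠ 0 := by simpa using hD0
    have hx2 : x ^ 2 = algebraMap F K₁ (d₂ / D) := by
      rw [map_div₀, eq_div_iff hD0']
      exact hx.2.symm
    obtain ⟨w, hw | hw⟩ := sq_in_base hK₁ hθ₁ hθ₁2 hx2
    · -- `d₂ = w ^ 2 * D`: contradiction at the real place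
      have hd₂ : d₂ = w ^ 2 * D := by
        have := hw.2
        field_simp at this
        rw [this]; ring
      have e1 : (ι (ρ₁' (algebraMap K₂ H₂ θ₂))) ^ 2 =
          (ι (ρ₁ (algebraMap K₁ H₁ (algebraMap F K₁ w))) * ι (ρ₁ (j₁ ε))) ^ 2 := by
        rw [← map_pow, ← map_pow, ← map_pow, hθ₂2, mul_pow, ← map_pow ι (ρ₁ (j₁ ε)), ← map_pow ρ₁,
          hj1sq, ← map_pow ι, ← map_pow ρ₁, ← map_pow, ← map_pow, ← map_mul, ← map_mul, ← map_mul,
          ← map_mul, ← hd₂, hF1]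
      have e2 := hsq _ _ e1 (hc2 (ι.comp ρ₁')) (by
        rw [star_mul', hre]
        congr 1
        exact hFreal (ι.comp ρ₁) w)
      rw [map_eq_zero, map_eq_zero, map_eq_zero] at e2
      exact hθ₂0 e2
    · -- `d₂ = w ^ 2 * d₁ * D`: contradiction at the complex place
      have hd₂ : d₂ = w ^ 2 * d₁ * D := by
        have := hw.2
        field_simp at this
        rw [this]; ring
      have e1 : (ι (ρ₂' (algebraMap K₂ H₂ θ₂))) ^ 2 =
          (ι (ρ₂ (algebraMap K₁ H₁ (algebraMap F K₁ w))) *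
            ι (ρ₂ (algebraMap K₁ H₁ θ₁)) * ι (ρ₂ (j₁ ε))) ^ 2 := by
        rw [← map_pow, ← map_pow, ← map_pow, hθ₂2, mul_pow, mul_pow, ← map_pow ι (ρ₂ (j₁ ε)),
          ← map_pow ρ₂,
          hj1sq, ← map_pow ι, ← map_pow ρ₂, ← map_pow, ← map_pow, ← map_pow ι, ← map_pow ρ₂,
          ← map_pow (algebraMap K₁ H₁), hθ₁2, ← map_mul, ← map_mul, ← map_mul,
          ← map_mul, ← map_mul, ← map_mul, ← map_mul, ← map_mul, ← hd₂, hF2]
      have e2 := hsq _ _ e1 (hc2 (ι.comp ρ₂')) (by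
        rw [star_mul', star_mul', him]
        have e3 : star (ι (ρ₂ (algebraMap K₁ H₁ (algebraMap F K₁ w)))) =
          ι (ρ₂ (algebraMap K₁ H₁ (algebraMap F K₁ w))) := hFreal (ι.comp ρ₂) w
        have e4 : star (ι (ρ₂ (algebraMap K₁ H₁ θ₁))) = -ι (ρ₂ (algebraMap K₁ H₁ θ₁)) :=
          hc1 (ι.comp ρ₂)
        rw [e3, e4]
        ring)
      rw [map_eq_zero, map_eq_zero, map_eq_zero] at e2
      exact hθ₂0 e2

end intersect

end Pool.Agent.Helper51.SixExp
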