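import Mathlib

/-!
# A Schwarz lemma for power series over an ultrametric field, in terms of the coefficients
-/

namespace Pool.Agent.Helper51.SixExp

variable {k : Type*} [NormedField k] [IsUltrametricDist k] [CompleteSpace k]

omit [IsUltrametricDist k] in
theorem summable_of_bound {ρ B : ℝ} (hρ0 : 0 ≤ ρ) (hρ1 : ρ < 1) {a : ℕ → k}
    (ha : ∀ n, ‖a n‖ ≤ B * ρ ^ n) {z : k} (hz : ‖z‖ ≤ 1) : Summable (fun n ↦ a n * z ^ n) := by
  refine Summable.of_norm_bounded (g := fun n ↦ B * ρ ^ n)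
    ((summable_geometric_of_lt_one hρ0 hρ1).mul_left B) (fun n ↦ ?_)
  rw [norm_mul, norm_pow]
  calc ‖a n‖ * ‖z‖ ^ n ≤ ‖a n‖ * 1 :=
        mul_le_mul_of_nonneg_left (pow_le_one₀ (norm_nonneg _) hz) (norm_nonneg _)
    _ ≤ B * ρ ^ n := by rw [mul_one]; exact ha n

/-- Division of a power series by `z - z₁` when `z₁` is a zero. -/
theorem divide {ρ B : ℝ} (hρ0 : 0 ≤ ρ) (hρ1 : ρ < 1) (hB : 0 ≤ B) {a : ℕ → k}
    (ha : ∀ n, ‖a n‖ ≤ B * ρ ^ n) {z₁ : k} (hz₁ : ‖z₁‖ ≤ 1) (h0 : ∑' n, a n * z₁ ^ n = 0) :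
    ∃ b : ℕ → k, (∀ n, ‖b n‖ ≤ (B * ρ) * ρ ^ n) ∧ a 0 = - (z₁ * b 0) ∧
      (∀ n, a (n + 1) = b n - z₁ * b (n + 1)) ∧
      ∀ z : k, ‖z‖ ≤ 1 → ∑' n, a n * z ^ n = (z - z₁) * ∑' n, b n * z ^ n := by
  have hshift : ∀ n : ℕ, ∀ j, ‖a (n + j)‖ ≤ (B * ρ ^ n) * ρ ^ j := by
    intro n j
    rw [mul_assoc, ← pow_add]; exact ha _
  have hs : ∀ n : ℕ, Summable (fun j ↦ a (n + j) * z₁ ^ j) := fun n ↦
    summable_of_bound hρ0 hρ1 (hshift n) hz₁
  set b : ℕ → k := fun n ↦ ∑' j, a (n + 1 + j) * z₁ ^ j with hb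
  have hrec : ∀ n : ℕ, ∑' j, a (n + j) * z₁ ^ j = a n + z₁ * b n := by
    intro n
    have e1 : ∀ j : ℕ, a (n + (j + 1)) * z₁ ^ (j + 1) = z₁ * (a (n + 1 + j) * z₁ ^ j) := by
      intro j
      have e2 : n + (j + 1) = n + 1 + j := by omega
      rw [e2, pow_succ]
      ring
    have e3 := (hs n).tsum_eq_zero_add
    simp_rw [e1] at e3
    rw [e3, tsum_mul_left, add_zero, pow_zero, mul_one]
  have hbb : ∀ n, ‖b n‖ ≤ (B * ρ) * ρ ^ n := by
    intro n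
    have hnn : 0 ≤ B * ρ * ρ ^ n := by positivity
    refine IsUltrametricDist.norm_tsum_le_of_forall_le_of_nonneg hnn (fun j ↦ ?_)
    rw [norm_mul, norm_pow]
    calc ‖a (n + 1 + j)‖ * ‖z₁‖ ^ j ≤ ‖a (n + 1 + j)‖ * 1 :=
          mul_le_mul_of_nonneg_left (pow_le_one₀ (norm_nonneg _) hz₁) (norm_nonneg _)
      _ ≤ B * ρ ^ (n + 1 + j) := by rw [mul_one]; exact ha _
      _ = (B * ρ * ρ ^ n) * ρ ^ j := by ring
      _ ≤ (B * ρ * ρ ^ n) * 1 := mul_le_mul_of_nonneg_left (pow_le_one₀ hρ0 hρ1.le) hnn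
      _ = _ := mul_one _
  have h1 : a 0 = - (z₁ * b 0) := by
    have := hrec 0
    simp only [zero_add] at this
    rw [h0] at this
    exact eq_neg_of_add_eq_zero_left this.symm
  have h2 : ∀ n, a (n + 1) = b n - z₁ * b (n + 1) := by
    intro n
    have := hrec (n + 1)
    have hbn : b n = a (n + 1) + z₁ * b (n + 1) := by rw [← this]
    rw [hbn]; ring
  refine ⟨b, hbb, h1, h2, fun z hz ↦ ?_⟩
  have hsb : Summable (fun n ↦ b n * z ^ n) := summable_of_bound hρ0 hρ1 hbb hz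
  have hsa : Summable (fun n ↦ a n * z ^ n) := summable_of_bound hρ0 hρ1 ha hz
  have hsb1 : Summable (fun n ↦ b (n + 1) * z ^ (n + 1)) := (summable_nat_add_iff 1).mpr hsb
  rw [hsa.tsum_eq_zero_add]
  have h3 : ∀ n, a (n + 1) * z ^ (n + 1) = z * (b n * z ^ n) - z₁ * (b (n + 1) * z ^ (n + 1)) := by
    intro n
    rw [h2 n, pow_succ]; ring
  simp_rw [h3]
  rw [Summable.tsum_sub (hsb.mul_left z) (hsb1.mul_left z₁), tsum_mul_left, tsum_mul_left, h1]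
  have h4 : ∑' n, b n * z ^ n = b 0 + ∑' n, b (n + 1) * z ^ (n + 1) := by
    rw [hsb.tsum_eq_zero_add]; simp
  have h5 : ∑' n, b (n + 1) * z ^ (n + 1) = ∑' n, b n * z ^ n - b 0 := by rw [h4]; ring
  rw [h5]
  simp only [pow_zero, mul_one]
  ring

/-- Schwarz lemma: many zeros force small coefficients. -/
theorem schwarz {ρ : ℝ} (hρ0 : 0 ≤ ρ) (hρ1 : ρ < 1) (Z : Finset k) :
    (∀ z ∈ Z, ‖z‖ ≤ 1) → ∀ (B : ℝ), 0 ≤ B → ∀ a : ℕ → k, (∀ n, ‖a n‖ ≤ B * ρ ^ n) →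
      (∀ z ∈ Z, ∑' n, a n * z ^ n = 0) → ∀ n, ‖a n‖ ≤ B * ρ ^ Z.card := by
  classical
  induction Z using Finset.induction_on with
  | empty =>
    intro _ B hB a ha _ n
    rw [Finset.card_empty, pow_zero, mul_one]
    refine (ha n).trans ?_
    calc B * ρ ^ n ≤ B * 1 := mul_le_mul_of_nonneg_left (pow_le_one₀ hρ0 hρ1.le) hB
      _ = B := mul_one B
  | insert z₁ Z hz₁Z ih =>
    intro hZ B hB a ha h0 n
    have hz₁ : ‖z₁‖ ≤ 1 := hZ z₁ (Finset.mem_insert_self _ _)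
    obtain ⟨b, hbb, h1, h2, h3⟩ := divide hρ0 hρ1 hB ha hz₁ (h0 z₁ (Finset.mem_insert_self _ _))
    have hb0 : ∀ z ∈ Z, ∑' n, b n * z ^ n = 0 := by
      intro z hz
      have hz1 : ‖z‖ ≤ 1 := hZ z (Finset.mem_insert_of_mem hz)
      have h4 := h3 z hz1
      rw [h0 z (Finset.mem_insert_of_mem hz)] at h4
      rcases mul_eq_zero.mp h4.symm with h5 | h5
      · exact absurd (sub_eq_zero.mp h5 ▸ hz) hz₁Z
      · exact h5
    have key := ih (fun z hz ↦ hZ z (Finset.mem_insert_of_mem hz)) (B * ρ) (by positivity) b hbb hb0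
    rw [Finset.card_insert_of_notMem hz₁Z]
    have hpow : B * ρ ^ (Z.card + 1) = B * ρ * ρ ^ Z.card := by ring
    rw [hpow]
    have hmul : ∀ n, ‖z₁ * b n‖ ≤ B * ρ * ρ ^ Z.card := by
      intro n
      rw [norm_mul]
      calc ‖z₁‖ * ‖b n‖ ≤ 1 * ‖b n‖ := mul_le_mul_of_nonneg_right hz₁ (norm_nonneg _)
        _ ≤ _ := by rw [one_mul]; exact key n
    cases n with
    | zero => rw [h1, norm_neg]; exact hmul 0
    | succ n =>
      rw [h2 n, sub_eq_add_neg]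
      refine (IsUltrametricDist.norm_add_le_max _ _).trans (max_le (key n) ?_)
      rw [norm_neg]; exact hmul _

omit [CompleteSpace k] in
/-- The sum of a power series with small coefficients is small on the unit disc. -/
theorem norm_tsum_le {C : ℝ} (hC : 0 ≤ C) {a : ℕ → k} (ha : ∀ n, ‖a n‖ ≤ C) {z : k}
    (hz : ‖z‖ ≤ 1) : ‖∑' n, a n * z ^ n‖ ≤ C := by
  refine IsUltrametricDist.norm_tsum_le_of_forall_le_of_nonneg hC (fun n ↦ ?_)
  rw [norm_mul, norm_pow]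
  calc ‖a n‖ * ‖z‖ ^ n ≤ ‖a n‖ * 1 :=
        mul_le_mul_of_nonneg_left (pow_le_one₀ (norm_nonneg _) hz) (norm_nonneg _)
    _ ≤ C := by rw [mul_one]; exact ha n

end Pool.Agent.Helper51.SixExp
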